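import Mathlib

/-!
Definitions of project SW (MP_1eb80b_an, noncommutative Singer-Wermer).
-/

set_option autoImplicit false

namespace Pool.Agent.SW

section General

variable {X Y : Type*} [NormedAddCommGroup X] [NormedSpace ℂ X]
  [NormedAddCommGroup Y] [NormedSpace ℂ Y]

/-- The separating space of a linear map `T : X → Y`: all `y` such that `(0, y)` lies in the
closure of the graph of `T`, that is, such that there are `xₖ → 0` with `T xₖ → y`. -/
def sep (T : X →ₗ[ℂ] Y) : Submodule ℂ Y :=
  T.graph.topologicalClosure.comap (LinearMap.inr ℂ X Y)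

/-- `prodL B k = B 0 ∘ B 1 ∘ ⋯ ∘ B (k - 1)`. -/
noncomputable def prodL (B : ℕ → Y →L[ℂ] Y) : ℕ → Y →L[ℂ] Y
  | 0 => ContinuousLinearMap.id ℂ Y
  | k + 1 => (prodL B k).comp (B k)

end General

section Alg

variable {A : Type*} [Ring A] [Algebra ℂ A]

/-- `δ` is a derivation. -/
def IsDer (δ : A →ₗ[ℂ] A) : Prop :=
  ∀ x y : A, δ (x * y) = δ x * y + x * δ y

/-- `P` is a two-sided ideal. -/
def TwoSided (P : Submodule ℂ A) : Prop :=
  ∀ a x : A, x ∈ P → a * x ∈ P ∧ x * a ∈ P

/-- The largest two-sided ideal contained in the left ideal `M`. -/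
def core (M : Ideal A) : Submodule ℂ A where
  carrier := {x | ∀ a, x * a ∈ M}
  add_mem' := by
    intro x y hx hy a
    rw [add_mul]
    exact M.add_mem (hx a) (hy a)
  zero_mem' := by
    intro a
    rw [zero_mul]
    exact M.zero_mem
  smul_mem' := by
    intro c x hx a
    rw [Algebra.smul_def, mul_assoc]
    exact M.mul_mem_left _ (hx a)

end Alg

end Pool.Agent.SW
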