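import Mathlib
import Pool.Agent.SW.Defs

/-!
Project SW: the higher derivatives of a derivation composed with a character.
-/

set_option autoImplicit false

namespace Pool.Agent.SW

section Psi

variable {A : Type*} [Ring A] [Algebra ℂ A]

theorem psi_one (δ : A →ₗ[ℂ] A) (hδ : IsDer δ) : δ 1 = 0 := by
  have h := hδ 1 1
  rw [mul_one, mul_one, one_mul] at h
  exact left_eq_add.mp h

theorem psi_pow_one (δ : A →ₗ[ℂ] A) (hδ : IsDer δ) (n : ℕ) (hn : n ≠ 0) : (δ ^ n) 1 = 0 := by
  obtain ⟨m, rfl⟩ := Nat.exists_eq_succ_of_ne_zero hn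
  rw [Nat.succ_eq_add_one, pow_succ, Module.End.mul_apply, psi_one δ hδ, map_zero]

theorem psi_conv (δ : A →ₗ[ℂ] A) (hδ : IsDer δ) (n : ℕ) (x y : A) :
    (δ ^ n) (x * y) =
      ∑ ij ∈ Finset.HasAntidiagonal.antidiagonal n, n.choose ij.1 • ((δ ^ ij.1) x * (δ ^ ij.2) y) := by
  induction n with
  | zero => simp
  | succ n ih =>
    rw [Finset.sum_antidiagonal_choose_succ_nsmul (M := A) (fun i j => (δ ^ i) x * (δ ^ j) y) n]
    rw [pow_succ' δ n, Module.End.mul_apply, ih]
    simp only [map_sum, map_nsmul, hδ _ _, smul_add, Finset.sum_add_distrib]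
    simp only [pow_succ', Module.End.mul_apply]
    rw [add_comm]
    congr 1
    refine Finset.sum_congr rfl fun ⟨i, j⟩ hij ↦ ?_
    rw [n.choose_symm_of_eq_add (Finset.HasAntidiagonal.mem_antidiagonal.1 hij).symm]

theorem iter_leibniz (δ : A →ₗ[ℂ] A) (hδ : IsDer δ) (n : ℕ) (x y : A) :
    (δ ^ n) (x * y) =
      ∑ i ∈ Finset.range (n + 1), (n.choose i : ℂ) • ((δ ^ i) x * (δ ^ (n - i)) y) := by
  rw [psi_conv δ hδ n x y,
    Finset.Nat.sum_antidiagonal_eq_sum_range_succ
      (fun i j ↦ n.choose i • ((δ ^ i) x * (δ ^ j) y)) n]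
  refine Finset.sum_congr rfl fun i _ ↦ ?_
  rw [Nat.cast_smul_eq_nsmul]

/-- `Psi a = ∑ φ(δⁿ a) tⁿ / n!`. -/
noncomputable def Psi (δ : A →ₗ[ℂ] A) (hδ : IsDer δ) (φ : A →ₐ[ℂ] ℂ) : A →ₐ[ℂ] PowerSeries ℂ :=
  AlgHom.ofLinearMap
    { toFun := fun a => PowerSeries.mk fun n => φ ((δ ^ n) a) / (n.factorial : ℂ)
      map_add' := by
        intro a b
        ext n
        simp [add_div]
      map_smul' := by
        intro c a
        ext n
        simp [mul_div_assoc] }
    (by
      ext n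
      simp only [LinearMap.coe_mk, AddHom.coe_mk, PowerSeries.coeff_mk, PowerSeries.coeff_one]
      split_ifs with h
      · subst h
        simp
      · rw [psi_pow_one δ hδ n h, map_zero, zero_div])
    (by
      intro x y
      ext n
      simp only [LinearMap.coe_mk, AddHom.coe_mk, PowerSeries.coeff_mk, PowerSeries.coeff_mul]
      rw [psi_conv δ hδ n x y, map_sum, Finset.sum_div]
      refine Finset.sum_congr rfl fun ⟨i, j⟩ hij ↦ ?_
      have hn : i + j = n := Finset.HasAntidiagonal.mem_antidiagonal.1 hij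
      simp only [map_mul, nsmul_eq_mul, map_natCast]
      have h1 : ((n.choose i : ℕ) : ℂ) * (i.factorial : ℂ) * (j.factorial : ℂ) = (n.factorial : ℂ) := by
        have h2 := Nat.choose_mul_factorial_mul_factorial (n := n) (k := i) (by omega)
        have h3 : n - i = j := by omega
        rw [h3] at h2
        exact_mod_cast h2
      have hi : (i.factorial : ℂ) ≠ 0 := by exact_mod_cast i.factorial_ne_zero
      have hj : (j.factorial : ℂ) ≠ 0 := by exact_mod_cast j.factorial_ne_zero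
      have hnn : (n.factorial : ℂ) ≠ 0 := by exact_mod_cast n.factorial_ne_zero
      rw [div_mul_div_comm, div_eq_div_iff hnn (mul_ne_zero hi hj), ← h1]
      ring)

theorem coeff_Psi (δ : A →ₗ[ℂ] A) (hδ : IsDer δ) (φ : A →ₐ[ℂ] ℂ) (n : ℕ) (a : A) :
    PowerSeries.coeff n (Psi δ hδ φ a) = φ ((δ ^ n) a) / (n.factorial : ℂ) := by
  simp [Psi]

end Psi

end Pool.Agent.SW
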