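import Pool.Agent.SW.Defs

/-!
Project SW, row SW-3: the separating space of a linear map.
-/

set_option autoImplicit false

namespace Pool.Agent.SW

section Sep

variable {X Y Z : Type*} [NormedAddCommGroup X] [NormedSpace ℂ X]
  [NormedAddCommGroup Y] [NormedSpace ℂ Y] [NormedAddCommGroup Z] [NormedSpace ℂ Z]

theorem mem_sep_iff (T : X →ₗ[ℂ] Y) (y : Y) :
    y ∈ sep T ↔ ∀ ε > 0, ∃ x, ‖x‖ < ε ∧ ‖T x - y‖ < ε := by
  have h0 : y ∈ sep T ↔ ((0 : X), y) ∈ closure (T.graph : Set (X × Y)) := Iff.rfl
  rw [h0, Metric.mem_closure_iff]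
  constructor
  · intro h ε hε
    obtain ⟨⟨a, b⟩, hab, hd⟩ := h ε hε
    have hb : b = T a := hab
    subst hb
    rw [Prod.dist_eq, max_lt_iff] at hd
    refine ⟨a, ?_, ?_⟩
    · have h1 := hd.1
      rw [dist_comm, dist_zero_right] at h1
      exact h1
    · have h1 := hd.2
      rw [dist_comm, dist_eq_norm] at h1
      exact h1
  · intro h ε hε
    obtain ⟨x, hx, hy⟩ := h ε hε
    refine ⟨(x, T x), rfl, ?_⟩
    rw [Prod.dist_eq, max_lt_iff]
    refine ⟨?_, ?_⟩
    · change dist (0 : X) x < ε
      rw [dist_comm, dist_zero_right]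
      exact hx
    · change dist y (T x) < ε
      rw [dist_comm, dist_eq_norm]
      exact hy

theorem sep_isClosed (T : X →ₗ[ℂ] Y) : IsClosed (sep T : Set Y) := by
  have h1 : IsClosed (T.graph.topologicalClosure : Set (X × Y)) :=
    T.graph.isClosed_topologicalClosure
  have h2 : Continuous fun y : Y => ((0 : X), y) := by fun_prop
  exact h1.preimage h2

theorem continuous_comp_of_sep [CompleteSpace X] [CompleteSpace Y] (T : X →ₗ[ℂ] Y)
    (G : Y →L[ℂ] Z) (h : ∀ y ∈ sep T, G y = 0) : Continuous (fun x => G (T x)) := by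
  have hc : IsClosed (T.graph.topologicalClosure : Set (X × Y)) :=
    T.graph.isClosed_topologicalClosure
  have : CompleteSpace T.graph.topologicalClosure := hc.completeSpace_coe
  let p : T.graph.topologicalClosure →L[ℂ] X :=
    (ContinuousLinearMap.fst ℂ X Y).comp T.graph.topologicalClosure.subtypeL
  have hp : Function.Surjective p := fun x =>
    ⟨⟨(x, T x), T.graph.le_topologicalClosure (show (x, T x) ∈ T.graph from rfl)⟩, rfl⟩
  have hq : Topology.IsQuotientMap p := (p.isOpenMap hp).isQuotientMap p.continuous hp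
  rw [hq.continuous_iff]
  have heq : (fun x => G (T x)) ∘ p =
      fun z : T.graph.topologicalClosure => G (z : X × Y).2 := by
    funext z
    have h1 : ((0 : X), (z : X × Y).2 - T (z : X × Y).1) ∈ T.graph.topologicalClosure := by
      have h2 : ((z : X × Y).1, T (z : X × Y).1) ∈ T.graph.topologicalClosure :=
        T.graph.le_topologicalClosure (show _ ∈ T.graph from rfl)
      have h3 := T.graph.topologicalClosure.sub_mem z.2 h2
      have h4 : (z : X × Y) - ((z : X × Y).1, T (z : X × Y).1) =
          ((0 : X), (z : X × Y).2 - T (z : X × Y).1) := by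
        ext <;> simp
      rwa [h4] at h3
    have h5 := h _ (show (z : X × Y).2 - T (z : X × Y).1 ∈ sep T from h1)
    rw [map_sub, sub_eq_zero] at h5
    exact h5.symm
  rw [heq]
  fun_prop

theorem sep_of_continuous_comp (T : X →ₗ[ℂ] Y) (G : Y →L[ℂ] Z)
    (h : Continuous (fun x => G (T x))) (y : Y) (hy : y ∈ sep T) : G y = 0 := by
  have hcl : IsClosed {z : X × Y | G (T z.1) = G z.2} :=
    isClosed_eq (h.comp continuous_fst) (G.continuous.comp continuous_snd)
  have hsub : (T.graph : Set (X × Y)) ⊆ {z : X × Y | G (T z.1) = G z.2} := by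
    rintro ⟨a, b⟩ hab
    have hb : b = T a := hab
    subst hb
    rfl
  have h1 : ((0 : X), y) ∈ closure (T.graph : Set (X × Y)) := hy
  have h2 : G (T 0) = G y := closure_minimal hsub hcl h1
  rw [← h2, map_zero, map_zero]

end Sep

end Pool.Agent.SW
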