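import Mathlib
import Pool.Agent.SW.Defs
import Pool.Agent.SW.Psi

/-!
Project SW: continuous higher derivatives (Sinclair).
-/

set_option autoImplicit false

namespace Pool.Agent.SW

section Sinclair

variable {A : Type*} [NormedRing A] [NormedAlgebra ℂ A] [CompleteSpace A]

omit [CompleteSpace A] in
theorem sinclair_coeff (δ : A →ₗ[ℂ] A) (hδ : IsDer δ) (φ : A →ₐ[ℂ] ℂ) (y : A) (h0 : φ y = 0)
    (n : ℕ) : φ ((δ ^ n) (y ^ n)) = (n.factorial : ℂ) * φ (δ y) ^ n := by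
  have h1 : PowerSeries.constantCoeff (Psi δ hδ φ y) = 0 := by
    rw [← PowerSeries.coeff_zero_eq_constantCoeff_apply, coeff_Psi]
    simp [h0]
  obtain ⟨g, hg⟩ := PowerSeries.X_dvd_iff.2 h1
  have h2 : PowerSeries.constantCoeff g = φ (δ y) := by
    have h3 : PowerSeries.coeff 1 (Psi δ hδ φ y) = φ (δ y) := by
      rw [coeff_Psi]
      simp
    rw [hg, show (1 : ℕ) = 0 + 1 from rfl, PowerSeries.coeff_succ_X_mul,
      PowerSeries.coeff_zero_eq_constantCoeff_apply] at h3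
    exact h3
  have h4 : PowerSeries.coeff n (Psi δ hδ φ (y ^ n)) = φ (δ y) ^ n := by
    rw [map_pow, hg, mul_pow]
    have h5 := PowerSeries.coeff_X_pow_mul (g ^ n) n 0
    rw [zero_add] at h5
    rw [h5, PowerSeries.coeff_zero_eq_constantCoeff_apply, map_pow, h2]
  rw [coeff_Psi] at h4
  have h6 : (n.factorial : ℂ) ≠ 0 := by exact_mod_cast n.factorial_ne_zero
  rw [div_eq_iff h6] at h4
  rw [h4, mul_comm]

theorem sinclair (δ : A →ₗ[ℂ] A) (hδ : IsDer δ) (φ : A →ₐ[ℂ] ℂ)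
    (h : ∀ n : ℕ, Continuous (fun x => φ ((δ ^ n) x))) (x : A) : φ (δ x) = 0 := by
  by_contra hx
  let y : A := x - algebraMap ℂ A (φ x)
  have hy0 : φ y = 0 := by
    change φ (x - algebraMap ℂ A (φ x)) = 0
    rw [map_sub, AlgHom.commutes]
    simp
  have hδ1 : ∀ c : ℂ, δ (algebraMap ℂ A c) = 0 := by
    intro c
    rw [Algebra.algebraMap_eq_smul_one, map_smul, psi_one δ hδ, smul_zero]
  have hy1 : φ (δ y) = φ (δ x) := by
    change φ (δ (x - algebraMap ℂ A (φ x))) = _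
    rw [map_sub, hδ1, sub_zero]
  let F : ℕ → A →L[ℂ] ℂ := fun n => ⟨φ.toLinearMap ∘ₗ (δ ^ n), h n⟩
  have hF : ∀ n z, F n z = φ ((δ ^ n) z) := fun n z => rfl
  have hFy : ∀ n, F n (y ^ n) = (n.factorial : ℂ) * φ (δ x) ^ n := by
    intro n
    rw [hF, sinclair_coeff δ hδ φ y hy0 n, hy1]
  have hFne : ∀ n, F n ≠ 0 := by
    intro n hn
    have h1 := hFy n
    rw [hn, zero_apply] at h1
    have h6 : (n.factorial : ℂ) ≠ 0 := by exact_mod_cast n.factorial_ne_zero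
    exact mul_ne_zero h6 (pow_ne_zero n hx) h1.symm
  have hFpos : ∀ n, 0 < ‖F n‖ := fun n => norm_pos_iff.2 (hFne n)
  have hsucc : ∀ n z, F (n + 1) z = F n (δ z) := by
    intro n z
    rw [hF, hF, pow_succ, Module.End.mul_apply]
  obtain ⟨C, hC⟩ : ∃ C', ∀ n, ‖((‖F n‖⁻¹ : ℝ) : ℂ) • F (n + 1)‖ ≤ C' := by
    refine banach_steinhaus ?_
    intro z
    refine ⟨‖δ z‖, fun n => ?_⟩
    rw [smul_apply, norm_smul, Complex.norm_real, Real.norm_eq_abs,
      abs_of_pos (inv_pos.2 (hFpos n)), hsucc]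
    calc ‖F n‖⁻¹ * ‖F n (δ z)‖ ≤ ‖F n‖⁻¹ * (‖F n‖ * ‖δ z‖) :=
          mul_le_mul_of_nonneg_left (ContinuousLinearMap.le_opNorm _ _)
            (inv_pos.2 (hFpos n)).le
      _ = ‖δ z‖ := by
          rw [← mul_assoc, inv_mul_cancel₀ (hFpos n).ne', one_mul]
  have hC0 : 0 ≤ C := le_trans (norm_nonneg _) (hC 0)
  have hstep : ∀ n, ‖F (n + 1)‖ ≤ C * ‖F n‖ := by
    intro n
    have h1 := hC n
    rw [norm_smul, Complex.norm_real, Real.norm_eq_abs, abs_of_pos (inv_pos.2 (hFpos n))] at h1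
    rw [inv_mul_le_iff₀ (hFpos n)] at h1
    rw [mul_comm]
    exact h1
  have hpow : ∀ n, ‖F n‖ ≤ C ^ n * ‖F 0‖ := by
    intro n
    induction n with
    | zero => simp
    | succ n ih =>
      calc ‖F (n + 1)‖ ≤ C * ‖F n‖ := hstep n
        _ ≤ C * (C ^ n * ‖F 0‖) := mul_le_mul_of_nonneg_left ih hC0
        _ = C ^ (n + 1) * ‖F 0‖ := by ring
  have hc : 0 < ‖φ (δ x)‖ := norm_pos_iff.2 hx
  let K : ℝ := C * ‖y‖ / ‖φ (δ x)‖
  have hbound : ∀ n : ℕ, 0 < n → 1 ≤ ‖F 0‖ * (K ^ n / (n.factorial : ℝ)) := by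
    intro n hn
    have h1 : ‖F n (y ^ n)‖ = (n.factorial : ℝ) * ‖φ (δ x)‖ ^ n := by
      rw [hFy n, norm_mul, norm_pow]
      simp
    have h2 : ‖F n (y ^ n)‖ ≤ C ^ n * ‖F 0‖ * ‖y‖ ^ n := by
      calc ‖F n (y ^ n)‖ ≤ ‖F n‖ * ‖y ^ n‖ := ContinuousLinearMap.le_opNorm _ _
        _ ≤ (C ^ n * ‖F 0‖) * ‖y‖ ^ n :=
            mul_le_mul (hpow n) (norm_pow_le' y hn) (norm_nonneg _)
              (mul_nonneg (pow_nonneg hC0 n) (norm_nonneg _))
    rw [h1] at h2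
    have hfac : (0 : ℝ) < n.factorial := by exact_mod_cast n.factorial_pos
    have h3 : ‖F 0‖ * (K ^ n / (n.factorial : ℝ)) =
        (C ^ n * ‖F 0‖ * ‖y‖ ^ n) / ((n.factorial : ℝ) * ‖φ (δ x)‖ ^ n) := by
      change ‖F 0‖ * ((C * ‖y‖ / ‖φ (δ x)‖) ^ n / (n.factorial : ℝ)) = _
      rw [div_pow, mul_pow]
      field_simp
    rw [h3, le_div_iff₀ (mul_pos hfac (pow_pos hc n)), one_mul]
    exact h2
  have hlim := (FloorSemiring.tendsto_pow_div_factorial_atTop K).const_mul ‖F 0‖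
  rw [mul_zero] at hlim
  have hev := (hlim.eventually (gt_mem_nhds (zero_lt_one))).and (Filter.eventually_gt_atTop 0)
  obtain ⟨n, hn, hn0⟩ := hev.exists
  exact absurd (hbound n hn0) (not_le.2 hn)

end Sinclair

end Pool.Agent.SW
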