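import Mathlib
import Pool.Agent.SW.Defs
import Pool.Agent.SW.Sep

set_option autoImplicit false

/-!
SW-4 (project SW of helper12, MP_1eb80b_an): the stability lemma of Johnson and Sinclair, by the
gliding hump.
-/

namespace Pool.Agent.SW

section StabilityAux

variable {X Y : Type*} [NormedAddCommGroup X] [NormedSpace ℂ X]
  [NormedAddCommGroup Y] [NormedSpace ℂ Y]

theorem stability_norm_prodL (U : ℕ → X →L[ℂ] X) (hU : ∀ i, ‖U i‖ ≤ 1) (k : ℕ) :
    ‖prodL U k‖ ≤ 1 := by
  induction k with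
  | zero => exact ContinuousLinearMap.norm_id_le
  | succ k ih =>
    calc ‖(prodL U k).comp (U k)‖ ≤ ‖prodL U k‖ * ‖U k‖ := ContinuousLinearMap.opNorm_comp_le _ _
      _ ≤ 1 * 1 := mul_le_mul ih (hU k) (norm_nonneg _) zero_le_one
      _ = 1 := one_mul 1

theorem stability_prodL_add (U : ℕ → X →L[ℂ] X) (m j : ℕ) :
    prodL U (m + j) = (prodL U m).comp (prodL (fun i => U (m + i)) j) := by
  induction j with
  | zero => rfl
  | succ j ih =>
    have h : prodL U (m + (j + 1)) = (prodL U (m + j)).comp (U (m + j)) := rfl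
    rw [h, ih]
    rfl

theorem stability_intertwine (T : X →ₗ[ℂ] Y) (U : ℕ → X →L[ℂ] X) (B : ℕ → Y →L[ℂ] Y)
    (hTU : ∀ i, Continuous (fun x => T (U i x) - B i (T x))) (k : ℕ) :
    Continuous (fun x => T (prodL U k x) - prodL B k (T x)) := by
  induction k with
  | zero =>
    have h : (fun x => T (prodL U 0 x) - prodL B 0 (T x)) = fun _ : X => (0 : Y) := by
      funext x
      simp [prodL]
    rw [h]
    exact continuous_const
  | succ k ih =>
    have h : (fun x => T (prodL U (k + 1) x) - prodL B (k + 1) (T x)) =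
        fun x => (T (prodL U k (U k x)) - prodL B k (T (U k x))) +
          prodL B k (T (U k x) - B k (T x)) := by
      funext x
      simp only [prodL, ContinuousLinearMap.comp_apply, map_sub]
      abel
    rw [h]
    exact (ih.comp (U k).continuous).add ((prodL B k).continuous.comp (hTU k))

/-- A functional vanishing on a submodule `S` and not at a point outside of the closure. -/
theorem stability_functional (S : Submodule ℂ Y) (y : Y) (hy : y ∉ closure (S : Set Y)) :
    ∃ f : Y →L[ℂ] ℂ, (∀ s ∈ S, f s = 0) ∧ f y ≠ 0 := by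
  have hcl : IsClosed (S.topologicalClosure : Set Y) := S.isClosed_topologicalClosure
  have hy' : y ∉ S.topologicalClosure := fun h => hy h
  have hne : S.topologicalClosure.mkQL y ≠ 0 := by
    intro h
    rw [Submodule.mkQL_apply, Submodule.mkQ_apply, Submodule.Quotient.mk_eq_zero] at h
    exact hy' h
  obtain ⟨g, hg⟩ := SeparatingDual.exists_ne_zero (R := ℂ) hne
  refine ⟨g.comp S.topologicalClosure.mkQL, fun s hs => ?_, hg⟩
  have h0 : S.topologicalClosure.mkQL s = 0 := by
    rw [Submodule.mkQL_apply, Submodule.mkQ_apply, Submodule.Quotient.mk_eq_zero]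
    exact S.le_topologicalClosure hs
  rw [ContinuousLinearMap.comp_apply, h0, map_zero]

/-- A discontinuous functional is unbounded on every ball. -/
theorem stability_unbounded (g : X →ₗ[ℂ] ℂ) (hg : ¬ Continuous g) {ε : ℝ} (hε : 0 < ε) (M : ℝ) :
    ∃ x, ‖x‖ ≤ ε ∧ M ≤ ‖g x‖ := by
  by_contra h
  push Not at h
  obtain ⟨C, hC⟩ := LinearMap.bound_of_ball_bound hε M g (fun z hz =>
    (h z (mem_ball_zero_iff.mp hz).le).le)
  exact hg (g.mkContinuous C hC).continuous

end StabilityAux

section Stability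

variable {X Y : Type*} [NormedAddCommGroup X] [NormedSpace ℂ X] [CompleteSpace X]
  [NormedAddCommGroup Y] [NormedSpace ℂ Y] [CompleteSpace Y]

omit [CompleteSpace Y] in
/-- The gliding hump: there are no functionals `f k` such that `f k ∘ T ∘ V (k + 1)` is
continuous and `f k ∘ T ∘ V k` is not, for all `k`. -/
theorem stability_hump (T : X →ₗ[ℂ] Y) (U : ℕ → X →L[ℂ] X) (hU : ∀ i, ‖U i‖ ≤ 1)
    (f : ℕ → Y →L[ℂ] ℂ)
    (h1 : ∀ k, Continuous (fun x => f k (T (prodL U (k + 1) x))))
    (h2 : ∀ k, ¬ Continuous (fun x => f k (T (prodL U k x)))) : False := by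
  -- bounds for the continuous ones
  have hc : ∀ k, ∃ c : ℝ, 0 ≤ c ∧ ∀ x, ‖f k (T (prodL U (k + 1) x))‖ ≤ c * ‖x‖ := by
    intro k
    let h : X →L[ℂ] ℂ :=
      ⟨(f k).toLinearMap.comp (T.comp (prodL U (k + 1)).toLinearMap), h1 k⟩
    exact ⟨‖h‖, norm_nonneg _, fun x => h.le_opNorm x⟩
  choose c hc0 hc using hc
  -- unboundedness of the others
  have hun : ∀ (k : ℕ) (s : X), ∃ x, ‖x‖ ≤ (1 / 2 : ℝ) ^ (k + 1) / (1 + ∑ j ∈ Finset.range k, c j) ∧
      k * ‖f k‖ + 2 + ‖f k (T s)‖ ≤ ‖f k (T (prodL U k x))‖ := by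
    intro k s
    have hpos : 0 < (1 / 2 : ℝ) ^ (k + 1) / (1 + ∑ j ∈ Finset.range k, c j) := by
      have : 0 ≤ ∑ j ∈ Finset.range k, c j := Finset.sum_nonneg fun j _ => hc0 j
      positivity
    exact stability_unbounded
      ((f k).toLinearMap.comp (T.comp (prodL U k).toLinearMap)) (h2 k) hpos _
  choose ξ hξ1 hξ2 using hun
  -- the partial sums
  obtain ⟨s, hs0, hss⟩ : ∃ s : ℕ → X, s 0 = 0 ∧
      ∀ k, s (k + 1) = s k + prodL U k (ξ k (s k)) :=
    ⟨fun k => Nat.rec (0 : X) (fun k s => s + prodL U k (ξ k s)) k, rfl, fun k => rfl⟩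
  set x : ℕ → X := fun k => ξ k (s k) with hx
  have hsum : ∀ k, s k = ∑ j ∈ Finset.range k, prodL U j (x j) := by
    intro k
    induction k with
    | zero => simp [hs0]
    | succ k ih => rw [hss, Finset.sum_range_succ, ← ih]
  have hden : ∀ k, 1 ≤ 1 + ∑ j ∈ Finset.range k, c j := fun k => by
    have : 0 ≤ ∑ j ∈ Finset.range k, c j := Finset.sum_nonneg fun j _ => hc0 j
    linarith
  have hxk : ∀ k, ‖x k‖ ≤ (1 / 2 : ℝ) ^ (k + 1) := fun k =>
    (hξ1 k (s k)).trans (div_le_self (by positivity) (hden k))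
  have hxm : ∀ m k, m < k → ‖x k‖ ≤ (1 / 2 : ℝ) ^ (k + 1) / (1 + c m) := by
    intro m k hmk
    refine (hξ1 k (s k)).trans ?_
    have h3 : c m ≤ ∑ j ∈ Finset.range k, c j :=
      Finset.single_le_sum (fun j _ => hc0 j) (Finset.mem_range.mpr hmk)
    have h4 : 0 < 1 + c m := by linarith [hc0 m]
    exact div_le_div_of_nonneg_left (by positivity) h4 (by linarith)
  -- summability
  have hgeo : Summable (fun k : ℕ => (1 / 2 : ℝ) ^ (k + 1)) :=
    (summable_nat_add_iff 1).mpr summable_geometric_two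
  have hVx : ∀ k, ‖prodL U k (x k)‖ ≤ (1 / 2 : ℝ) ^ (k + 1) := fun k =>
    calc ‖prodL U k (x k)‖ ≤ ‖prodL U k‖ * ‖x k‖ := (prodL U k).le_opNorm _
      _ ≤ 1 * ‖x k‖ := mul_le_mul_of_nonneg_right (stability_norm_prodL U hU k) (norm_nonneg _)
      _ = ‖x k‖ := one_mul _
      _ ≤ _ := hxk k
  have hS : Summable (fun k => prodL U k (x k)) := Summable.of_norm_bounded hgeo hVx
  set X0 : X := ∑' k, prodL U k (x k) with hX0
  obtain ⟨m, hm⟩ := exists_nat_ge ‖T X0‖
  -- the tail
  have hz : ∀ j, ‖prodL (fun i => U (m + 1 + i)) j (x (m + 1 + j))‖ ≤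
      (1 / 2 : ℝ) ^ (j + 1) / (1 + c m) := by
    intro j
    have h4 : 0 < 1 + c m := by linarith [hc0 m]
    calc ‖prodL (fun i => U (m + 1 + i)) j (x (m + 1 + j))‖
        ≤ ‖prodL (fun i => U (m + 1 + i)) j‖ * ‖x (m + 1 + j)‖ := ContinuousLinearMap.le_opNorm _ _
      _ ≤ 1 * ‖x (m + 1 + j)‖ := mul_le_mul_of_nonneg_right
          (stability_norm_prodL _ (fun i => hU (m + 1 + i)) j) (norm_nonneg _)
      _ = ‖x (m + 1 + j)‖ := one_mul _
      _ ≤ (1 / 2 : ℝ) ^ (m + 1 + j + 1) / (1 + c m) := hxm m _ (by omega)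
      _ ≤ (1 / 2 : ℝ) ^ (j + 1) / (1 + c m) := by
          refine div_le_div_of_nonneg_right ?_ h4.le
          exact pow_le_pow_of_le_one (by norm_num) (by norm_num) (by omega)
  have hzS : Summable (fun j => prodL (fun i => U (m + 1 + i)) j (x (m + 1 + j))) :=
    Summable.of_norm_bounded (hgeo.div_const _) hz
  set z : X := ∑' j, prodL (fun i => U (m + 1 + i)) j (x (m + 1 + j)) with hzdef
  have hzn : ‖z‖ ≤ 1 / (1 + c m) := by
    have h5 : HasSum (fun j : ℕ => (1 / 2 : ℝ) ^ (j + 1) / (1 + c m)) (1 / (1 + c m)) := by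
      have h6 : HasSum (fun j : ℕ => (1 / 2 : ℝ) ^ (j + 1)) 1 := by
        have h7 := hasSum_geometric_two.mul_left (1 / 2 : ℝ)
        have h8 : (1 / 2 : ℝ) * 2 = 1 := by norm_num
        have h9 : (fun j : ℕ => (1 / 2 : ℝ) ^ (j + 1)) = fun j => 1 / 2 * (1 / 2 : ℝ) ^ j := by
          funext j
          rw [pow_succ]
          ring
        rwa [h8, ← h9] at h7
      exact h6.div_const _
    exact tsum_of_norm_bounded h5 hz
  have hdec : X0 = s (m + 1) + prodL U (m + 1) z := by
    have h9 := hS.sum_add_tsum_nat_add (m + 1)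
    rw [← hX0] at h9
    rw [← h9, hsum, hzdef, ContinuousLinearMap.map_tsum _ hzS]
    congr 1
    refine tsum_congr (fun j => ?_)
    rw [add_comm j (m + 1), stability_prodL_add, ContinuousLinearMap.comp_apply]
  have hT : f m (T X0) = f m (T (s m)) + f m (T (prodL U m (x m))) +
      f m (T (prodL U (m + 1) z)) := by
    rw [hdec, hss, map_add, map_add, map_add, map_add]
  have h10 : ‖f m (T (prodL U (m + 1) z))‖ ≤ 1 := by
    have h4 : 0 < 1 + c m := by linarith [hc0 m]
    calc ‖f m (T (prodL U (m + 1) z))‖ ≤ c m * ‖z‖ := hc m z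
      _ ≤ c m * (1 / (1 + c m)) := mul_le_mul_of_nonneg_left hzn (hc0 m)
      _ = c m / (1 + c m) := by ring
      _ ≤ 1 := by
          rw [div_le_one h4]
          linarith
  have h11 : m * ‖f m‖ + 2 + ‖f m (T (s m))‖ ≤ ‖f m (T (prodL U m (x m)))‖ := hξ2 m (s m)
  have h12 : ‖f m (T (prodL U m (x m)))‖ ≤
      ‖f m (T X0)‖ + ‖f m (T (s m))‖ + ‖f m (T (prodL U (m + 1) z))‖ := by
    have h13 : f m (T (prodL U m (x m))) =
        f m (T X0) - f m (T (s m)) - f m (T (prodL U (m + 1) z)) := by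
      rw [hT]
      ring
    rw [h13]
    exact (norm_sub_le _ _).trans (add_le_add (norm_sub_le _ _) le_rfl)
  have h14 : ‖f m (T X0)‖ ≤ ‖f m‖ * m :=
    ((f m).le_opNorm _).trans (mul_le_mul_of_nonneg_left hm (norm_nonneg _))
  nlinarith

/-- The stability lemma (Johnson-Sinclair), in the form: the chain of the closures of
`B 0 ⋯ B (k-1) (sep T)` is not strictly decreasing at every step. -/
theorem stability (T : X →ₗ[ℂ] Y) (U : ℕ → X →L[ℂ] X) (B : ℕ → Y →L[ℂ] Y)
    (hU : ∀ i, ‖U i‖ ≤ 1)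
    (hTU : ∀ i, Continuous (fun x => T (U i x) - B i (T x))) :
    ∃ k, ∀ y ∈ sep T, prodL B k y ∈ closure (prodL B (k + 1) '' (sep T : Set Y)) := by
  by_contra hcon
  push Not at hcon
  choose y hy hyc using hcon
  have hf : ∀ k, ∃ f : Y →L[ℂ] ℂ, (∀ s ∈ sep T, f (prodL B (k + 1) s) = 0) ∧
      f (prodL B k (y k)) ≠ 0 := by
    intro k
    obtain ⟨f, hf1, hf2⟩ := stability_functional
      ((sep T).map (prodL B (k + 1)).toLinearMap) (prodL B k (y k))
      (by simpa using hyc k)
    exact ⟨f, fun s hs => hf1 _ (Submodule.mem_map_of_mem hs), hf2⟩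
  choose f hf1 hf2 using hf
  have hint := stability_intertwine T U B hTU
  refine stability_hump T U hU f (fun k => ?_) (fun k hk => ?_)
  · have h1 : Continuous (fun x => ((f k).comp (prodL B (k + 1))) (T x)) :=
      continuous_comp_of_sep T _ (fun s hs => hf1 k s hs)
    have h2 : (fun x => f k (T (prodL U (k + 1) x))) = fun x =>
        f k (T (prodL U (k + 1) x) - prodL B (k + 1) (T x)) +
          ((f k).comp (prodL B (k + 1))) (T x) := by
      funext x
      rw [map_sub, ContinuousLinearMap.comp_apply]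
      ring
    rw [h2]
    exact ((f k).continuous.comp (hint (k + 1))).add h1
  · have h2 : (fun x => ((f k).comp (prodL B k)) (T x)) = fun x =>
        f k (T (prodL U k x)) - f k (T (prodL U k x) - prodL B k (T x)) := by
      funext x
      rw [map_sub, ContinuousLinearMap.comp_apply]
      ring
    have h1 : Continuous (fun x => ((f k).comp (prodL B k)) (T x)) := by
      rw [h2]
      exact hk.sub ((f k).continuous.comp (hint k))
    exact hf2 k (sep_of_continuous_comp T _ h1 (y k) (hy k))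

end Stability

end Pool.Agent.SW
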