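import Mathlib
import Pool.Agent.SW.Defs
import Pool.Agent.SW.Sep
import Pool.Agent.SW.Stability
import Pool.Agent.SW.Psi
import Pool.Agent.SW.Sinclair

/-!
Project SW: the multiplication algebra and the two consequences of the stability lemma.
-/

set_option autoImplicit false

namespace Pool.Agent.SW

section MulAlg

/-- The multiplication algebra of a unital algebra: the algebra of operators generated by the left
and the right multiplications. -/
def mulAlg (A : Type*) [Ring A] [Algebra ℂ A] : Subalgebra ℂ (Module.End ℂ A) :=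
  Algebra.adjoin ℂ (Set.range (fun a : A => LinearMap.mulLeft ℂ a) ∪
    Set.range (fun a : A => LinearMap.mulRight ℂ a))

/-- `prodE T k = T 0 ∘ T 1 ∘ ⋯ ∘ T (k - 1)`. -/
def prodE {A : Type*} [AddCommGroup A] [Module ℂ A] (T : ℕ → Module.End ℂ A) :
    ℕ → Module.End ℂ A
  | 0 => 1
  | k + 1 => prodE T k * T k

theorem prodE_add {A : Type*} [AddCommGroup A] [Module ℂ A] (T : ℕ → Module.End ℂ A) (m j : ℕ) :
    prodE T (m + j) = prodE T m * prodE (fun i => T (m + i)) j := by
  induction j with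
  | zero => simp [prodE]
  | succ j ih =>
    have h : prodE T (m + (j + 1)) = prodE T (m + j) * T (m + j) := rfl
    rw [h, ih, mul_assoc]
    rfl

section Ring

variable {A : Type*} [Ring A] [Algebra ℂ A]

theorem mulLeft_mem (a : A) : LinearMap.mulLeft ℂ a ∈ mulAlg A :=
  Algebra.subset_adjoin (Or.inl ⟨a, rfl⟩)

theorem mulRight_mem (a : A) : LinearMap.mulRight ℂ a ∈ mulAlg A :=
  Algebra.subset_adjoin (Or.inr ⟨a, rfl⟩)

theorem prodE_mem (T : ℕ → Module.End ℂ A) (hT : ∀ i, T i ∈ mulAlg A) (k : ℕ) :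
    prodE T k ∈ mulAlg A := by
  induction k with
  | zero => exact (mulAlg A).one_mem
  | succ k ih => exact (mulAlg A).mul_mem ih (hT k)

theorem mulAlg_comm (δ : A →ₗ[ℂ] A) (hδ : IsDer δ) (T : Module.End ℂ A) (hT : T ∈ mulAlg A) :
    ∃ T' ∈ mulAlg A, ∀ x, δ (T x) - T (δ x) = T' x := by
  unfold mulAlg at hT
  induction hT using Algebra.adjoin_induction with
  | mem T h =>
    rcases h with ⟨a, rfl⟩ | ⟨a, rfl⟩
    · refine ⟨LinearMap.mulLeft ℂ (δ a), mulLeft_mem _, fun x => ?_⟩
      simp only [LinearMap.mulLeft_apply, hδ a x]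
      abel
    · refine ⟨LinearMap.mulRight ℂ (δ a), mulRight_mem _, fun x => ?_⟩
      simp only [LinearMap.mulRight_apply, hδ x a]
      abel
  | algebraMap c =>
    refine ⟨0, (mulAlg A).zero_mem, fun x => ?_⟩
    simp [Module.algebraMap_end_apply]
  | add T U _ _ ihT ihU =>
    obtain ⟨T', hT', hT⟩ := ihT
    obtain ⟨U', hU', hU⟩ := ihU
    refine ⟨T' + U', (mulAlg A).add_mem hT' hU', fun x => ?_⟩
    rw [LinearMap.add_apply, LinearMap.add_apply, LinearMap.add_apply, ← hT, ← hU, map_add]
    abel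
  | mul T U hTm hUm ihT ihU =>
    obtain ⟨T', hT', hT⟩ := ihT
    obtain ⟨U', hU', hU⟩ := ihU
    refine ⟨T' * U + T * U', (mulAlg A).add_mem ((mulAlg A).mul_mem hT' hUm)
      ((mulAlg A).mul_mem hTm hU'), fun x => ?_⟩
    rw [LinearMap.add_apply, Module.End.mul_apply, Module.End.mul_apply, Module.End.mul_apply,
      Module.End.mul_apply, ← hT, ← hU, map_sub]
    abel

theorem mulAlg_psi (δ : A →ₗ[ℂ] A) (hδ : IsDer δ) (φ : A →ₐ[ℂ] ℂ) (T : Module.End ℂ A)
    (hT : T ∈ mulAlg A) (x : A) : Psi δ hδ φ (T x) = Psi δ hδ φ (T 1) * Psi δ hδ φ x := by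
  unfold mulAlg at hT
  induction hT using Algebra.adjoin_induction generalizing x with
  | mem T h =>
    rcases h with ⟨a, rfl⟩ | ⟨a, rfl⟩
    · simp [map_mul]
    · simp [map_mul, mul_comm]
  | algebraMap c => simp [Module.algebraMap_end_apply]
  | add T U _ _ ihT ihU =>
    rw [LinearMap.add_apply, LinearMap.add_apply, map_add, map_add, ihT, ihU]
    ring
  | mul T U _ _ ihT ihU =>
    rw [Module.End.mul_apply, Module.End.mul_apply, ihT, ihU, ihT (U 1)]
    ring

theorem mulAlg_twoSided (P : Submodule ℂ A) (hP : TwoSided P) (T : Module.End ℂ A)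
    (hT : T ∈ mulAlg A) (x : A) (hx : x ∈ P) : T x ∈ P := by
  unfold mulAlg at hT
  induction hT using Algebra.adjoin_induction generalizing x with
  | mem T h =>
    rcases h with ⟨a, rfl⟩ | ⟨a, rfl⟩
    · exact (hP a x hx).1
    · exact (hP a x hx).2
  | algebraMap c =>
    rw [Module.algebraMap_end_apply]
    exact P.smul_mem c hx
  | add T U _ _ ihT ihU => exact P.add_mem (ihT x hx) (ihU x hx)
  | mul T U _ _ ihT ihU => exact ihT _ (ihU x hx)

end Ring

section Normed

variable {A : Type*} [NormedRing A] [NormedAlgebra ℂ A]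

theorem mulAlg_continuous (T : Module.End ℂ A) (hT : T ∈ mulAlg A) : Continuous T := by
  unfold mulAlg at hT
  induction hT using Algebra.adjoin_induction with
  | mem T h =>
    rcases h with ⟨a, rfl⟩ | ⟨a, rfl⟩
    · exact continuous_const.mul continuous_id
    · exact continuous_id.mul continuous_const
  | algebraMap c =>
    have e : (fun x : A => (algebraMap ℂ (Module.End ℂ A) c) x) = fun x => c • x := by
      funext x
      rw [Module.algebraMap_end_apply]
    show Continuous (fun x : A => (algebraMap ℂ (Module.End ℂ A) c) x)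
    rw [e]
    exact continuous_const_smul c
  | add T U _ _ ihT ihU => exact ihT.add ihU
  | mul T U _ _ ihT ihU => exact ihT.comp ihU

theorem sep_twoSided (δ : A →ₗ[ℂ] A) (hδ : IsDer δ) : TwoSided (sep δ) := by
  intro a x hx
  have hx' : ((0 : A), x) ∈ closure (δ.graph : Set (A × A)) := hx
  refine ⟨?_, ?_⟩
  · have hcont : Continuous (fun p : A × A => (a * p.1, δ a * p.1 + a * p.2)) := by fun_prop
    have h := map_mem_closure hcont hx' (t := (δ.graph : Set (A × A))) (by
      rintro ⟨u, v⟩ huv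
      have hv : v = δ u := huv
      show δ a * u + a * v = δ (a * u)
      rw [hv, hδ])
    simp only [mul_zero, zero_add] at h
    exact h
  · have hcont : Continuous (fun p : A × A => (p.1 * a, p.1 * δ a + p.2 * a)) := by fun_prop
    have h := map_mem_closure hcont hx' (t := (δ.graph : Set (A × A))) (by
      rintro ⟨u, v⟩ huv
      have hv : v = δ u := huv
      show u * δ a + v * a = δ (u * a)
      rw [hv, hδ, add_comm])
    simp only [zero_mul, zero_add] at h
    exact h

variable [CompleteSpace A]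

/-- The stability lemma for a sequence in the multiplication algebra, without normalisation. -/
theorem mulAlg_stability (δ : A →ₗ[ℂ] A) (hδ : IsDer δ) (T : ℕ → Module.End ℂ A)
    (hT : ∀ i, T i ∈ mulAlg A) :
    ∃ k, ∀ s ∈ sep δ, prodE T k s ∈ closure (prodE T (k + 1) '' (sep δ : Set A)) := by
  -- the operators as continuous linear maps, normalised
  let C : ℕ → A →L[ℂ] A := fun i => ⟨T i, mulAlg_continuous _ (hT i)⟩
  have hC : ∀ i x, C i x = T i x := fun _ _ => rfl
  let c : ℕ → ℂ := fun i => ((1 + ‖C i‖ : ℝ) : ℂ)⁻¹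
  have hc0 : ∀ i, c i ≠ 0 := by
    intro i
    apply inv_ne_zero
    have : (0 : ℝ) < 1 + ‖C i‖ := by positivity
    exact_mod_cast this.ne'
  let U : ℕ → A →L[ℂ] A := fun i => c i • C i
  have hU : ∀ i, ‖U i‖ ≤ 1 := by
    intro i
    have hpos : (0 : ℝ) < 1 + ‖C i‖ := by positivity
    have h1 : ‖c i‖ = (1 + ‖C i‖)⁻¹ := by
      simp only [c, norm_inv, Complex.norm_real, Real.norm_of_nonneg hpos.le]
    calc ‖U i‖ ≤ ‖c i‖ * ‖C i‖ := ContinuousLinearMap.opNorm_smul_le (c i) (C i)
      _ = (1 + ‖C i‖)⁻¹ * ‖C i‖ := by rw [h1]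
      _ ≤ 1 := by
        rw [inv_mul_le_iff₀ hpos]
        linarith
  have hTU : ∀ i, Continuous (fun x => δ (U i x) - U i (δ x)) := by
    intro i
    obtain ⟨T', hT'm, hT'⟩ := mulAlg_comm δ hδ (T i) (hT i)
    have e : (fun x => δ (U i x) - U i (δ x)) = fun x => c i • T' x := by
      funext x
      show δ (c i • T i x) - c i • T i (δ x) = c i • T' x
      rw [map_smul, ← smul_sub, hT']
    rw [e]
    exact continuous_const.smul (mulAlg_continuous _ hT'm)
  obtain ⟨k, hk⟩ := stability δ U U hU hTU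
  have hprod : ∀ k, ∃ d : ℂ, d ≠ 0 ∧ ∀ x, prodL U k x = d • prodE T k x := by
    intro k
    induction k with
    | zero => exact ⟨1, one_ne_zero, fun x => by simp [prodL, prodE]⟩
    | succ k ih =>
      obtain ⟨d, hd, h⟩ := ih
      refine ⟨d * c k, mul_ne_zero hd (hc0 k), fun x => ?_⟩
      show prodL U k (U k x) = _
      rw [h]
      show d • prodE T k (c k • T k x) = (d * c k) • prodE T k (T k x)
      rw [map_smul, smul_smul]
  refine ⟨k, fun s hs => ?_⟩
  obtain ⟨d, hd, hdk⟩ := hprod k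
  obtain ⟨e, he, hek⟩ := hprod (k + 1)
  have h1 := hk s hs
  rw [hdk] at h1
  have hcont : Continuous (fun x : A => d⁻¹ • x) := continuous_const_smul _
  have h2 := map_mem_closure hcont h1 (t := prodE T (k + 1) '' (sep δ : Set A)) (by
    rintro _ ⟨y, hy, rfl⟩
    refine ⟨(d⁻¹ * e) • y, (sep δ).smul_mem _ hy, ?_⟩
    show prodE T (k + 1) ((d⁻¹ * e) • y) = d⁻¹ • prodL U (k + 1) y
    rw [hek, map_smul, smul_smul])
  simpa [smul_smul, inv_mul_cancel₀ hd] using h2

end Normed

end MulAlg

end Pool.Agent.SW
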