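import Mathlib
import Pool.Agent.SW.MulAlg

/-!
Project SW: terminal operators and descending chains in the multiplication algebra.
-/

set_option autoImplicit false

namespace Pool.Agent.SW

section Core

variable {A : Type*} [NormedRing A] [NormedAlgebra ℂ A] [CompleteSpace A]

/-- The separating space of `δ` is not contained in the kernel of `Psi`. -/
theorem core_sep (δ : A →ₗ[ℂ] A) (hδ : IsDer δ) (φ : A →ₐ[ℂ] ℂ) (hφ : ∃ x, φ (δ x) ≠ 0) :
    ∃ s ∈ sep δ, Psi δ hδ φ s ≠ 0 := by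
  by_contra hcon
  push Not at hcon
  obtain ⟨x, hx⟩ := hφ
  apply hx
  refine sinclair δ hδ φ ?_ x
  intro n
  induction n with
  | zero => exact φ.toContinuousLinearMap.continuous
  | succ n ih =>
    let G : A →L[ℂ] ℂ := ⟨φ.toLinearMap ∘ₗ (δ ^ n), ih⟩
    have h := continuous_comp_of_sep δ G (by
      intro y hy
      have h1 := coeff_Psi δ hδ φ n y
      rw [hcon y hy, map_zero] at h1
      have hfac : (n.factorial : ℂ) ≠ 0 := by exact_mod_cast n.factorial_ne_zero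
      exact (div_eq_zero_iff.mp h1.symm).resolve_right hfac)
    exact h

/-- A terminal operator in the multiplication algebra. -/
theorem core_terminal (δ : A →ₗ[ℂ] A) (hδ : IsDer δ) (φ : A →ₐ[ℂ] ℂ) :
    ∃ T₀ ∈ mulAlg A, Psi δ hδ φ (T₀ 1) ≠ 0 ∧ ∀ T ∈ mulAlg A, Psi δ hδ φ (T 1) ≠ 0 →
      ∀ s ∈ sep δ, T₀ s ∈ closure ((T₀ * T) '' (sep δ : Set A)) := by
  by_contra hcon
  push Not at hcon
  let G := {T : Module.End ℂ A // T ∈ mulAlg A ∧ Psi δ hδ φ (T 1) ≠ 0}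
  have hstep : ∀ T₀ : G, ∃ T : G, ∃ s ∈ sep δ,
      T₀.1 s ∉ closure ((T₀.1 * T.1) '' (sep δ : Set A)) := by
    rintro ⟨T₀, h1, h2⟩
    obtain ⟨T, hT1, hT2, s, hs1, hs2⟩ := hcon T₀ h1 h2
    exact ⟨⟨T, hT1, hT2⟩, s, hs1, hs2⟩
  choose F hF using hstep
  let one : G := ⟨1, (mulAlg A).one_mem, by simp⟩
  let mul : G → G → G := fun T U => ⟨T.1 * U.1, (mulAlg A).mul_mem T.2.1 U.2.1, by
    rw [Module.End.mul_apply, mulAlg_psi δ hδ φ T.1 T.2.1]
    exact mul_ne_zero T.2.2 U.2.2⟩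
  let U : ℕ → G := fun k => Nat.rec one (fun _ T => mul T (F T)) k
  let T : ℕ → Module.End ℂ A := fun k => (F (U k)).1
  have hprod : ∀ k, prodE T k = (U k).1 := by
    intro k
    induction k with
    | zero => rfl
    | succ k ih =>
      show prodE T k * T k = _
      rw [ih]
  obtain ⟨k, hk⟩ := mulAlg_stability δ hδ T (fun i => (F (U i)).2.1)
  obtain ⟨s, hs1, hs2⟩ := hF (U k)
  apply hs2
  have h := hk s hs1
  rw [hprod, hprod] at h
  exact h

/-- For every sequence in the multiplication algebra the closures of the images of the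
separating space are eventually constant. -/
theorem core_chain (δ : A →ₗ[ℂ] A) (hδ : IsDer δ) (T : ℕ → Module.End ℂ A)
    (hT : ∀ i, T i ∈ mulAlg A) :
    ∃ k, ∀ s ∈ sep δ, ∀ m, prodE T k s ∈ closure (prodE T m '' (sep δ : Set A)) := by
  by_contra hcon
  push Not at hcon
  have hstep : ∀ k, ∃ m, k < m ∧ ∃ s ∈ sep δ, prodE T k s ∉ closure (prodE T m '' (sep δ : Set A)) := by
    intro k
    obtain ⟨s, hs, m, hm⟩ := hcon k
    refine ⟨m, ?_, s, hs, hm⟩
    by_contra hle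
    push Not at hle
    apply hm
    apply subset_closure
    obtain ⟨j, rfl⟩ := Nat.exists_eq_add_of_le hle
    rw [prodE_add, Module.End.mul_apply]
    refine ⟨_, ?_, rfl⟩
    exact mulAlg_twoSided (sep δ) (sep_twoSided δ hδ) _
      (prodE_mem (fun i => T (m + i)) (fun i => hT _) j) s hs
  choose g hg using hstep
  let κ : ℕ → ℕ := fun j => Nat.rec 0 (fun _ k => g k) j
  have hκ : ∀ j, κ (j + 1) = g (κ j) := fun _ => rfl
  let T' : ℕ → Module.End ℂ A := fun j => prodE (fun i => T (κ j + i)) (κ (j + 1) - κ j)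
  have hprod : ∀ j, prodE T' j = prodE T (κ j) := by
    intro j
    induction j with
    | zero => rfl
    | succ j ih =>
      show prodE T' j * T' j = _
      rw [ih]
      show prodE T (κ j) * prodE (fun i => T (κ j + i)) (κ (j + 1) - κ j) = _
      rw [← prodE_add]
      congr 1
      have : κ j < κ (j + 1) := by rw [hκ]; exact (hg (κ j)).1
      omega
  obtain ⟨j, hj⟩ := mulAlg_stability δ hδ T' (fun j =>
    prodE_mem (fun i => T (κ j + i)) (fun i => hT _) _)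
  obtain ⟨-, s, hs, hs2⟩ := hg (κ j)
  apply hs2
  have h := hj s hs
  rw [hprod, hprod, hκ] at h
  exact h

/-- There is a smallest closed ideal outside the kernel of `Psi`. -/
theorem core_min (δ : A →ₗ[ℂ] A) (hδ : IsDer δ) (φ : A →ₐ[ℂ] ℂ) (hφ : ∃ x, φ (δ x) ≠ 0) :
    ∃ Q : Submodule ℂ A, IsClosed (Q : Set A) ∧ TwoSided Q ∧ (∃ x ∈ Q, Psi δ hδ φ x ≠ 0) ∧
      ∀ J : Submodule ℂ A, IsClosed (J : Set A) → TwoSided J →
        (∃ x ∈ J, Psi δ hδ φ x ≠ 0) → Q ≤ J := by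
  obtain ⟨s, hs1, hs2⟩ := core_sep δ hδ φ hφ
  obtain ⟨T₀, hT1, hT2, hT3⟩ := core_terminal δ hδ φ
  let F : Set (Submodule ℂ A) := {J | IsClosed (J : Set A) ∧ TwoSided J ∧
    ∃ x ∈ J, Psi δ hδ φ x ≠ 0}
  refine ⟨sInf F, ?_, ?_, ⟨T₀ s, ?_, ?_⟩, ?_⟩
  · have e : ((sInf F : Submodule ℂ A) : Set A) = ⋂ J ∈ F, (J : Set A) := Submodule.coe_sInf F
    rw [e]
    exact isClosed_biInter fun J hJ => hJ.1
  · intro a x hx
    rw [Submodule.mem_sInf] at hx
    exact ⟨Submodule.mem_sInf.mpr fun J hJ => (hJ.2.1 a x (hx J hJ)).1,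
      Submodule.mem_sInf.mpr fun J hJ => (hJ.2.1 a x (hx J hJ)).2⟩
  · refine Submodule.mem_sInf.mpr ?_
    rintro J ⟨hJ1, hJ2, b, hb1, hb2⟩
    have h := hT3 (LinearMap.mulLeft ℂ b) (mulLeft_mem b) (by simpa using hb2) s hs1
    refine hJ1.closure_subset_iff.mpr ?_ h
    rintro _ ⟨y, -, rfl⟩
    exact mulAlg_twoSided J hJ2 T₀ hT1 _ (hJ2 y b hb1).2
  · rw [mulAlg_psi δ hδ φ T₀ hT1]
    exact mul_ne_zero hT2 hs2
  · intro J hJ1 hJ2 hJ3
    exact sInf_le ⟨hJ1, hJ2, hJ3⟩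

end Core

end Pool.Agent.SW
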