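import Mathlib
import Pool.Agent.SW.Core

/-!
Project SW: the Mittag-Leffler theorem for sequences of operators, and its consequences for the
separating space of a derivation.
-/

set_option autoImplicit false

namespace Pool.Agent.SW

section Mittag

section Abstract

variable {E : Type*} [NormedAddCommGroup E] [NormedSpace ℂ E]

theorem prodL_shift (T : ℕ → E →L[ℂ] E) (m : ℕ) :
    prodL T (m + 1) = (T 0).comp (prodL (fun l => T (l + 1)) m) := by
  have h := stability_prodL_add T 1 m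
  rw [add_comm 1 m] at h
  rw [h]
  have e1 : prodL T 1 = T 0 := by
    ext x
    rfl
  have e2 : (fun i => T (1 + i)) = fun l => T (l + 1) := by
    funext l
    rw [add_comm]
  rw [e1, e2]

theorem prodL_norm_le (T : ℕ → E →L[ℂ] E) (m : ℕ) :
    ‖prodL T m‖ ≤ ∏ l ∈ Finset.range m, (1 + ‖T l‖) := by
  induction m with
  | zero =>
    have h : ‖prodL T 0‖ ≤ 1 := ContinuousLinearMap.norm_id_le
    simpa using h
  | succ m ih =>
    rw [Finset.prod_range_succ]
    calc ‖(prodL T m).comp (T m)‖ ≤ ‖prodL T m‖ * ‖T m‖ := ContinuousLinearMap.opNorm_comp_le _ _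
      _ ≤ (∏ l ∈ Finset.range m, (1 + ‖T l‖)) * (1 + ‖T m‖) := by
        refine mul_le_mul ih (by linarith [norm_nonneg (T m)]) (norm_nonneg _) ?_
        exact Finset.prod_nonneg fun l _ => by positivity

/-- The Mittag-Leffler theorem. -/
theorem mittag [CompleteSpace E] (T : ℕ → E →L[ℂ] E) (V : ℕ → Submodule ℂ E)
    (hV : ∀ j, IsClosed (V j : Set E))
    (hT : ∀ j, ∀ x ∈ V (j + 1), T j x ∈ V j)
    (hd : ∀ j, ∀ x ∈ V j, x ∈ closure (T j '' (V (j + 1) : Set E)))
    (e : E) (he : e ∈ V 0) (ε : ℝ) (hε : 0 < ε) :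
    ∃ u : ℕ → E, (∀ j, u j ∈ V j) ∧ (∀ j, u j = T j (u (j + 1))) ∧ ‖u 0 - e‖ < ε := by
  classical
  obtain ⟨c, hc⟩ : ∃ c : ℕ → ℝ, ∀ j, c j = ∏ l ∈ Finset.range j, (1 + ‖T l‖) := ⟨_, fun _ => rfl⟩
  have hcpos : ∀ j, 0 < c j := fun j => by
    rw [hc]
    exact Finset.prod_pos fun l _ => by positivity
  -- the approximate solution
  have hstep : ∀ j (x : V j), ∃ y : V (j + 1), ‖T j y - x‖ < ε / 2 ^ (j + 2) / c j := by
    rintro j ⟨x, hx⟩
    have h := hd j x hx
    rw [Metric.mem_closure_iff] at h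
    have hpos : 0 < ε / 2 ^ (j + 2) / c j := div_pos (by positivity) (hcpos j)
    obtain ⟨_, ⟨y, hy, rfl⟩, hy2⟩ := h _ hpos
    refine ⟨⟨y, hy⟩, ?_⟩
    rwa [← dist_eq_norm, dist_comm]
  choose f hf using hstep
  obtain ⟨x, hx00, hxs⟩ : ∃ x : ∀ j, V j, x 0 = ⟨e, he⟩ ∧ ∀ j, x (j + 1) = f j (x j) :=
    ⟨fun j => Nat.rec (motive := fun j => V j) ⟨e, he⟩ (fun j y => f j y) j, rfl, fun _ => rfl⟩
  have hx : ∀ j, ‖T j ((x (j + 1) : V (j + 1)) : E) - ((x j : V j) : E)‖ <
      ε / 2 ^ (j + 2) / c j := fun j => by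
    rw [hxs]
    exact hf j (x j)
  have hx0 : (x 0 : E) = e := by rw [hx00]
  obtain ⟨d, hdd⟩ : ∃ d : ℕ → E, ∀ j, d j = T j (x (j + 1)) - x j := ⟨_, fun _ => rfl⟩
  have hdV : ∀ j, d j ∈ V j := fun j => by
    rw [hdd]
    exact (V j).sub_mem (hT j _ (x (j + 1)).2) (x j).2
  have hdn : ∀ j, c j * ‖d j‖ ≤ ε / 2 ^ (j + 2) := fun j => by
    rw [hdd]
    have h := (hx j).le
    rw [le_div_iff₀ (hcpos j)] at h
    rw [mul_comm]
    exact h
  -- the terms of the correction
  have hbound : ∀ i m, ‖prodL (fun l => T (i + l)) m (d (i + m))‖ ≤ ε / 4 * (1 / 2) ^ m := by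
    intro i m
    have h1 : ‖prodL (fun l => T (i + l)) m‖ ≤ c (i + m) := by
      refine (prodL_norm_le _ m).trans ?_
      rw [hc, Finset.prod_range_add]
      have h2 : (1 : ℝ) ≤ ∏ l ∈ Finset.range i, (1 + ‖T l‖) := by
        calc (1 : ℝ) = ∏ l ∈ Finset.range i, (1 : ℝ) := by simp
          _ ≤ _ := Finset.prod_le_prod (fun _ _ => zero_le_one)
            (fun l _ => by linarith [norm_nonneg (T l)])
      have h3 : (0 : ℝ) ≤ ∏ l ∈ Finset.range m, (1 + ‖T (i + l)‖) :=
        Finset.prod_nonneg fun l _ => by positivity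
      nlinarith
    calc ‖prodL (fun l => T (i + l)) m (d (i + m))‖
        ≤ ‖prodL (fun l => T (i + l)) m‖ * ‖d (i + m)‖ := ContinuousLinearMap.le_opNorm _ _
      _ ≤ c (i + m) * ‖d (i + m)‖ := mul_le_mul_of_nonneg_right h1 (norm_nonneg _)
      _ ≤ ε / 2 ^ (i + m + 2) := hdn _
      _ ≤ ε / 4 * (1 / 2) ^ m := by
        rw [div_mul_eq_mul_div, div_pow, one_pow, mul_one_div, div_div,
          div_le_div_iff_of_pos_left hε (by positivity) (by positivity)]
        have : (2 : ℝ) ^ m ≤ 2 ^ (i + m) := pow_le_pow_right₀ (by norm_num) (Nat.le_add_left m i)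
        rw [pow_add (2 : ℝ) (i + m) 2]
        linarith
  have hgeo : HasSum (fun m : ℕ => ε / 4 * (1 / 2 : ℝ) ^ m) (ε / 4 * 2) :=
    hasSum_geometric_two.mul_left (ε / 4)
  have hsum : ∀ i, Summable (fun m => prodL (fun l => T (i + l)) m (d (i + m))) := fun i =>
    Summable.of_norm_bounded hgeo.summable (hbound i)
  have hmem : ∀ m i, ∀ y ∈ V (i + m), prodL (fun l => T (i + l)) m y ∈ V i := by
    intro m
    induction m with
    | zero => intro i y hy; exact hy
    | succ m ih =>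
      intro i y hy
      show prodL (fun l => T (i + l)) m (T (i + m) y) ∈ V i
      exact ih i _ (hT (i + m) y hy)
  refine ⟨fun i => x i + ∑' m, prodL (fun l => T (i + l)) m (d (i + m)), ?_, ?_, ?_⟩
  · intro i
    refine (V i).add_mem (x i).2 ?_
    refine (hV i).mem_of_tendsto (hsum i).hasSum (Filter.Eventually.of_forall fun s => ?_)
    exact Submodule.sum_mem _ fun m _ => hmem m i _ (hdV _)
  · intro i
    show (x i : E) + ∑' m, prodL (fun l => T (i + l)) m (d (i + m)) =
      T i (x (i + 1) + ∑' m, prodL (fun l => T (i + 1 + l)) m (d (i + 1 + m)))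
    rw [map_add, (T i).map_tsum (hsum (i + 1)), (hsum i).tsum_eq_zero_add]
    have e0 : prodL (fun l => T (i + l)) 0 (d (i + 0)) = T i (x (i + 1)) - x i := by
      show d (i + 0) = _
      rw [hdd]
      rfl
    have e1 : ∀ m, prodL (fun l => T (i + l)) (m + 1) (d (i + (m + 1))) =
        T i (prodL (fun l => T (i + 1 + l)) m (d (i + 1 + m))) := by
      intro m
      rw [prodL_shift]
      have e2 : (fun l => T (i + (l + 1))) = fun l => T (i + 1 + l) := by
        funext l
        congr 1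
        omega
      have e3 : i + (m + 1) = i + 1 + m := by omega
      rw [e2, e3]
      rfl
    rw [e0, tsum_congr e1]
    abel
  · show ‖(x 0 : E) + ∑' m, prodL (fun l => T (0 + l)) m (d (0 + m)) - e‖ < ε
    rw [hx0, add_sub_cancel_left]
    refine lt_of_le_of_lt (tsum_of_norm_bounded hgeo (hbound 0)) ?_
    linarith

/-- A point of a closed subspace of sequences whose first coordinate is not nilpotent. -/
theorem exists_nonnil {A : Type*} [NormedRing A] [NormedAlgebra ℂ A] [CompleteSpace A]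
    (F : Submodule ℂ (ℕ → A)) (hF : IsClosed (F : Set (ℕ → A))) (e : A)
    (he : ∀ ε > 0, ∃ u ∈ F, ‖u 0 - e‖ < ε) (hne : ∀ k, e ^ k ≠ 0) (ε : ℝ) (hε : 0 < ε) :
    ∃ u ∈ F, ‖u 0 - e‖ < ε ∧ ∀ k, (u 0) ^ k ≠ 0 := by
  have : TopologicalSpace.IsCompletelyPseudoMetrizableSpace F := hF.isCompletelyPseudoMetrizableSpace
  have hcont0 : Continuous (fun u : F => (u : ℕ → A) 0) :=
    (continuous_apply 0).comp continuous_subtype_val
  -- the open dense sets
  have hopen : ∀ k, IsOpen {u : F | ((u : ℕ → A) 0) ^ k ≠ 0} := fun k =>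
    isOpen_ne_fun (hcont0.pow k) continuous_const
  have hdense : ∀ k, Dense {u : F | ((u : ℕ → A) 0) ^ k ≠ 0} := by
    intro k
    -- one point outside
    obtain ⟨g, hgF, hg⟩ : ∃ g ∈ F, (g 0) ^ k ≠ 0 := by
      by_contra hcon
      push Not at hcon
      apply hne k
      have hcl : e ∈ closure {a : A | a ^ k = 0} := by
        rw [Metric.mem_closure_iff]
        intro η hη
        obtain ⟨u, hu, hu2⟩ := he η hη
        exact ⟨u 0, hcon u hu, by rwa [dist_comm, dist_eq_norm]⟩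
      have hclosed : IsClosed {a : A | a ^ k = 0} := isClosed_eq (continuous_pow k) continuous_const
      rw [hclosed.closure_eq] at hcl
      exact hcl
    rw [dense_iff_inter_open]
    intro U hU hUne
    obtain ⟨f, hf⟩ := hUne
    by_contra hcon
    rw [Set.not_nonempty_iff_eq_empty] at hcon
    -- the curve `f + z g`
    have hcurve : Continuous (fun z : ℂ => (f + z • (⟨g, hgF⟩ : F) : F)) := by fun_prop
    have hnear : ∀ᶠ z : ℂ in nhds 0, (f + z • (⟨g, hgF⟩ : F) : F) ∈ U := by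
      refine hcurve.continuousAt.preimage_mem_nhds (hU.mem_nhds ?_)
      simpa using hf
    have hzero : ∀ᶠ z : ℂ in nhds 0, ((f : ℕ → A) 0 + z • g 0) ^ k = 0 := by
      filter_upwards [hnear] with z hz
      by_contra h
      have : (f + z • (⟨g, hgF⟩ : F) : F) ∈ U ∩ {u : F | ((u : ℕ → A) 0) ^ k ≠ 0} := ⟨hz, h⟩
      rw [hcon] at this
      exact this
    have hdiff : Differentiable ℂ (fun z : ℂ => ((f : ℕ → A) 0 + z • g 0) ^ k) := by fun_prop
    have hall : ∀ z : ℂ, ((f : ℕ → A) 0 + z • g 0) ^ k = 0 := by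
      have han : AnalyticOnNhd ℂ (fun z : ℂ => ((f : ℕ → A) 0 + z • g 0) ^ k) Set.univ :=
        fun z _ => hdiff.analyticAt z
      intro z
      exact han.eqOn_zero_of_preconnected_of_eventuallyEq_zero isPreconnected_univ
        (Set.mem_univ 0) hzero (Set.mem_univ z)
    -- the leading coefficient
    have hinv : ∀ z : ℂ, z ≠ 0 → (z • (f : ℕ → A) 0 + g 0) ^ k = 0 := by
      intro z hz
      have h1 := hall z⁻¹
      have h2 : z • (f : ℕ → A) 0 + g 0 = z • ((f : ℕ → A) 0 + z⁻¹ • g 0) := by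
        rw [smul_add, smul_smul, mul_inv_cancel₀ hz, one_smul]
      rw [h2, smul_pow, h1, smul_zero]
    have hlim : Filter.Tendsto (fun z : ℂ => (z • (f : ℕ → A) 0 + g 0) ^ k)
        (nhdsWithin 0 {0}ᶜ) (nhds ((g 0) ^ k)) := by
      have hc : Continuous (fun z : ℂ => (z • (f : ℕ → A) 0 + g 0) ^ k) := by fun_prop
      have h := (hc.tendsto 0).mono_left (nhdsWithin_le_nhds (s := {0}ᶜ))
      simpa using h
    have hlim0 : Filter.Tendsto (fun z : ℂ => (z • (f : ℕ → A) 0 + g 0) ^ k)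
        (nhdsWithin 0 {0}ᶜ) (nhds 0) := by
      refine tendsto_const_nhds.congr' ?_
      filter_upwards [self_mem_nhdsWithin] with z hz
      exact (hinv z hz).symm
    exact hg (tendsto_nhds_unique hlim hlim0)
  have hint := dense_iInter_of_isOpen hopen hdense
  obtain ⟨u₀, hu₀, hu₀e⟩ := he ε hε
  have hball : IsOpen {u : F | ‖(u : ℕ → A) 0 - e‖ < ε} :=
    isOpen_lt ((hcont0.sub continuous_const).norm) continuous_const
  obtain ⟨u, hu1, hu2⟩ := hint.inter_open_nonempty _ hball ⟨⟨u₀, hu₀⟩, hu₀e⟩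
  refine ⟨u, u.2, hu1, fun k => ?_⟩
  exact Set.mem_iInter.mp hu2 k

end Abstract

section Der

variable {A : Type*} [NormedRing A] [NormedAlgebra ℂ A] [CompleteSpace A]

theorem prodE_shift {A : Type*} [AddCommGroup A] [Module ℂ A] (T : ℕ → Module.End ℂ A) (m : ℕ) :
    prodE T (m + 1) = T 0 * prodE (fun l => T (l + 1)) m := by
  have h := prodE_add T 1 m
  rw [add_comm 1 m] at h
  rw [h]
  have e1 : prodE T 1 = T 0 := by
    show 1 * T 0 = T 0
    rw [one_mul]
  have e2 : (fun i => T (1 + i)) = fun l => T (l + 1) := by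
    funext l
    rw [add_comm]
  rw [e1, e2]

/-- The subspace of the sequences in the separating space compatible with the operators `T`. -/
def orbits (δ : A →ₗ[ℂ] A) (T : ℕ → Module.End ℂ A) : Submodule ℂ (ℕ → A) where
  carrier := {u | ∀ j, u j ∈ sep δ ∧ u j = T j (u (j + 1))}
  add_mem' := by
    intro u v hu hv j
    refine ⟨(sep δ).add_mem (hu j).1 (hv j).1, ?_⟩
    rw [Pi.add_apply, Pi.add_apply, map_add, ← (hu j).2, ← (hv j).2]
  zero_mem' := by
    intro j
    refine ⟨(sep δ).zero_mem, ?_⟩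
    simp
  smul_mem' := by
    intro c u hu j
    refine ⟨(sep δ).smul_mem c (hu j).1, ?_⟩
    rw [Pi.smul_apply, Pi.smul_apply, map_smul, ← (hu j).2]

theorem orbits_isClosed (δ : A →ₗ[ℂ] A) (T : ℕ → Module.End ℂ A) (hT : ∀ i, T i ∈ mulAlg A) :
    IsClosed (orbits δ T : Set (ℕ → A)) := by
  have e : (orbits δ T : Set (ℕ → A)) =
      ⋂ j, ({u : ℕ → A | u j ∈ (sep δ : Set A)} ∩ {u : ℕ → A | u j = T j (u (j + 1))}) := by
    ext u
    simp only [Set.mem_iInter]
    rfl
  rw [e]
  refine isClosed_iInter fun j => IsClosed.inter ?_ ?_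
  · exact (sep_isClosed δ).preimage (continuous_apply j)
  · exact isClosed_eq (continuous_apply j)
      ((mulAlg_continuous (T j) (hT j)).comp (continuous_apply (j + 1)))

/-- Mittag-Leffler for the separating space. -/
theorem core_ml (δ : A →ₗ[ℂ] A) (hδ : IsDer δ) (T : ℕ → Module.End ℂ A)
    (hT : ∀ i, T i ∈ mulAlg A) (e : A)
    (he : ∀ m, e ∈ closure (prodE T m '' (sep δ : Set A))) (ε : ℝ) (hε : 0 < ε) :
    ∃ u ∈ orbits δ T, ‖u 0 - e‖ < ε := by
  let C : ℕ → A →L[ℂ] A := fun i => ⟨T i, mulAlg_continuous _ (hT i)⟩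
  let V : ℕ → Submodule ℂ A := fun j =>
    ⨅ m, ((sep δ).map (prodE (fun i => T (j + i)) m)).topologicalClosure
  have hV : ∀ j x, x ∈ V j ↔ ∀ m, x ∈ closure (prodE (fun i => T (j + i)) m '' (sep δ : Set A)) := by
    intro j x
    simp only [V, Submodule.mem_iInf]
    rfl
  have hshift : ∀ j m, prodE (fun i => T (j + i)) (m + 1) =
      T j * prodE (fun i => T (j + 1 + i)) m := by
    intro j m
    rw [prodE_shift]
    have e2 : (fun l => T (j + (l + 1))) = fun l => T (j + 1 + l) := by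
      funext l
      congr 1
      omega
    rw [e2]
    rfl
  have h1 : ∀ j, IsClosed (V j : Set A) := by
    intro j
    show IsClosed ((⨅ m, ((sep δ).map (prodE (fun i => T (j + i)) m)).topologicalClosure :
      Submodule ℂ A) : Set A)
    rw [Submodule.coe_iInf]
    exact isClosed_iInter fun m => Submodule.isClosed_topologicalClosure _
  have h2 : ∀ j, ∀ x ∈ V (j + 1), C j x ∈ V j := by
    intro j x hx
    rw [hV] at hx ⊢
    intro m
    show T j x ∈ _
    cases m with
    | zero =>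
      have h := hx 0
      have e0 : ∀ i, prodE (fun l => T (i + l)) 0 '' (sep δ : Set A) = (sep δ : Set A) := by
        intro i
        show (fun x => (1 : Module.End ℂ A) x) '' (sep δ : Set A) = _
        simp
      rw [e0, (sep_isClosed δ).closure_eq] at h ⊢
      exact mulAlg_twoSided (sep δ) (sep_twoSided δ hδ) (T j) (hT j) x h
    | succ m =>
      rw [hshift]
      refine map_mem_closure (mulAlg_continuous (T j) (hT j)) (hx m) ?_
      rintro _ ⟨y, hy, rfl⟩
      exact ⟨y, hy, rfl⟩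
  have h3 : ∀ j, ∀ x ∈ V j, x ∈ closure (C j '' (V (j + 1) : Set A)) := by
    intro j x hx
    rw [hV] at hx
    obtain ⟨k, hk⟩ := core_chain δ hδ (fun i => T (j + 1 + i)) (fun i => hT _)
    have h := hx (k + 1)
    rw [hshift] at h
    refine closure_mono ?_ h
    rintro _ ⟨s, hs, rfl⟩
    refine ⟨prodE (fun i => T (j + 1 + i)) k s, ?_, rfl⟩
    exact (hV (j + 1) _).mpr (hk s hs)
  have h4 : e ∈ V 0 := by
    rw [hV]
    intro m
    have e2 : (fun i => T (0 + i)) = T := by
      funext i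
      rw [zero_add]
    rw [e2]
    exact he m
  obtain ⟨u, hu1, hu2, hu3⟩ := mittag C V h1 h2 h3 e h4 ε hε
  refine ⟨u, fun j => ⟨?_, hu2 j⟩, hu3⟩
  have h := (hV j (u j)).mp (hu1 j) 0
  have e0 : prodE (fun i => T (j + i)) 0 '' (sep δ : Set A) = (sep δ : Set A) := by
    show (fun x => (1 : Module.End ℂ A) x) '' (sep δ : Set A) = _
    simp
  rw [e0, (sep_isClosed δ).closure_eq] at h
  exact h

/-- The approximating orbits can be chosen with a first element which is not nilpotent. -/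
theorem core_ml_nonnil (δ : A →ₗ[ℂ] A) (hδ : IsDer δ) (T : ℕ → Module.End ℂ A)
    (hT : ∀ i, T i ∈ mulAlg A) (e : A)
    (he : ∀ m, e ∈ closure (prodE T m '' (sep δ : Set A))) (hne : ∀ k, e ^ k ≠ 0)
    (ε : ℝ) (hε : 0 < ε) :
    ∃ u ∈ orbits δ T, ‖u 0 - e‖ < ε ∧ ∀ k, (u 0) ^ k ≠ 0 :=
  exists_nonnil (orbits δ T) (orbits_isClosed δ T hT) e
    (fun η hη => core_ml δ hδ T hT e he η hη) hne ε hε

end Der

end Mittag

end Pool.Agent.SW
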