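import Mathlib
import Pool.Agent.SW.Defs
import Pool.Agent.SW.Sep
import Pool.Agent.SW.Stability
import Pool.Agent.SW.Psi

/-!
Project SW, row 7: for each `n` only finitely many characters `φ` have the property that
`φ ∘ δ ^ n` is the first discontinuous one among the `φ ∘ δ ^ j`.
-/

set_option autoImplicit false

namespace Pool.Agent.SW

section Finite

open BoundedContinuousFunction

variable {A : Type*} [NormedRing A] [NormedAlgebra ℂ A] [CompleteSpace A]

/-- The bounded sequence of the values of a sequence of characters. -/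
noncomputable def finPhi (φ : ℕ → (A →ₐ[ℂ] ℂ)) : A →L[ℂ] (ℕ →ᵇ ℂ) :=
  LinearMap.mkContinuous
    { toFun := fun a => BoundedContinuousFunction.ofNormedAddCommGroupDiscrete
        (fun k => φ k a) (‖a‖ * ‖(1 : A)‖) (fun k => AlgHom.norm_apply_le_self_mul_norm_one (φ k) a)
      map_add' := by
        intro a b
        ext k
        simp
      map_smul' := by
        intro c a
        ext k
        simp } ‖(1 : A)‖ (by
      intro a
      refine (BoundedContinuousFunction.norm_le (by positivity)).2 (fun k => ?_)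
      have := AlgHom.norm_apply_le_self_mul_norm_one (φ k) a
      rw [mul_comm]
      exact this)

theorem finPhi_apply (φ : ℕ → (A →ₐ[ℂ] ℂ)) (a : A) (k : ℕ) : finPhi φ a k = φ k a := rfl

theorem finPhi_mul (φ : ℕ → (A →ₐ[ℂ] ℂ)) (a b : A) :
    finPhi φ (a * b) = finPhi φ a * finPhi φ b := by
  ext k
  rw [BoundedContinuousFunction.mul_apply, finPhi_apply, finPhi_apply, finPhi_apply, map_mul]

/-- An element which is in the kernel of exactly one of the characters. -/
theorem fin_exists_elem (φ : ℕ → (A →ₐ[ℂ] ℂ)) (hφ : Function.Injective φ) (k : ℕ) :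
    ∃ a : A, ‖a‖ ≤ 1 ∧ φ k a = 0 ∧ ∀ j, j ≠ k → φ j a ≠ 0 := by
  set K : Submodule ℂ A := LinearMap.ker (φ k).toLinearMap with hK
  have hcont : ∀ j, Continuous (fun a => φ j a) := by
    intro j
    have h1 : Continuous (fun a => finPhi φ a j) :=
      (BoundedContinuousFunction.evalCLM ℂ j).continuous.comp (finPhi φ).continuous
    exact h1
  have hKc : IsClosed (K : Set A) := by
    have : (K : Set A) = (fun a => φ k a) ⁻¹' {0} := by
      ext a
      simp [hK]
    rw [this]
    exact isClosed_singleton.preimage (hcont k)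
  have : CompleteSpace K := hKc.completeSpace_coe
  -- the kernels of the other characters in `K`
  set L : {j : ℕ // j ≠ k} → Submodule ℂ K := fun j =>
    LinearMap.ker ((φ j).toLinearMap.comp K.subtype) with hL
  have hLne : ∀ j, L j ≠ ⊤ := by
    intro j htop
    have hne : φ j ≠ φ k := fun h => j.2 (hφ h)
    obtain ⟨x, hx⟩ : ∃ x, φ j x ≠ φ k x := by
      by_contra h
      push Not at h
      exact hne (AlgHom.ext h)
    set v : A := x - (φ k x) • (1 : A) with hv
    have hvK : v ∈ K := by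
      rw [hK, LinearMap.mem_ker]
      simp [hv]
    have hvL : (⟨v, hvK⟩ : K) ∈ L j := by
      rw [htop]
      exact Submodule.mem_top
    rw [hL, LinearMap.mem_ker] at hvL
    have h1 : φ j v = 0 := hvL
    rw [hv, map_sub, map_smul, map_one, smul_eq_mul, mul_one, sub_eq_zero] at h1
    exact hx h1
  have hopen : ∀ j, IsOpen ((L j : Set K)ᶜ) := by
    intro j
    rw [isOpen_compl_iff]
    have : (L j : Set K) = (fun a : K => φ j (a : A)) ⁻¹' {0} := by
      ext a
      simp [hL]
    rw [this]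
    exact isClosed_singleton.preimage ((hcont j).comp continuous_subtype_val)
  have hdense : ∀ j, Dense ((L j : Set K)ᶜ) := by
    intro j
    rw [← interior_eq_empty_iff_dense_compl]
    by_contra hne
    exact hLne j (Submodule.eq_top_of_nonempty_interior' (L j)
      (Set.nonempty_iff_ne_empty.2 hne))
  have hd := dense_iInter_of_isOpen hopen hdense
  obtain ⟨x, hx⟩ := hd.nonempty
  rw [Set.mem_iInter] at hx
  have hxk : φ k (x : A) = 0 := x.2
  have hxj : ∀ j, j ≠ k → φ j (x : A) ≠ 0 := by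
    intro j hj h
    exact hx ⟨j, hj⟩ h
  have hc : (0 : ℝ) < ‖(x : A)‖ + 1 := by positivity
  have hc' : ((‖(x : A)‖ + 1 : ℝ) : ℂ)⁻¹ ≠ 0 := by
    apply inv_ne_zero
    exact_mod_cast hc.ne'
  refine ⟨(((‖(x : A)‖ + 1 : ℝ) : ℂ)⁻¹) • (x : A), ?_, ?_, ?_⟩
  · rw [norm_smul, norm_inv, Complex.norm_real, Real.norm_of_nonneg hc.le, inv_mul_le_iff₀ hc]
    linarith
  · rw [map_smul, hxk, smul_zero]
  · intro j hj
    rw [map_smul, smul_eq_mul]
    exact mul_ne_zero hc' (hxj j hj)

theorem finite_level (δ : A →ₗ[ℂ] A) (hδ : IsDer δ) (n : ℕ) :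
    {φ : A →ₐ[ℂ] ℂ | (∀ j < n, Continuous (fun x => φ ((δ ^ j) x))) ∧
      ¬ Continuous (fun x => φ ((δ ^ n) x))}.Finite := by
  by_contra hinf
  have hinf' : Set.Infinite {φ : A →ₐ[ℂ] ℂ | (∀ j < n, Continuous (fun x => φ ((δ ^ j) x))) ∧
      ¬ Continuous (fun x => φ ((δ ^ n) x))} := hinf
  set e := hinf'.natEmbedding with he
  set φ : ℕ → (A →ₐ[ℂ] ℂ) := fun k => (e k : A →ₐ[ℂ] ℂ) with hφ
  have hinj : Function.Injective φ := fun a b hab => e.injective (Subtype.ext hab)
  have hlow : ∀ k, ∀ j < n, Continuous (fun x => φ k ((δ ^ j) x)) := fun k => (e k).2.1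
  have hdis : ∀ k, ¬ Continuous (fun x => φ k ((δ ^ n) x)) := fun k => (e k).2.2
  -- the maps `T j`
  set T : ℕ → (A →ₗ[ℂ] (ℕ →ᵇ ℂ)) := fun j => (finPhi φ : A →ₗ[ℂ] (ℕ →ᵇ ℂ)).comp (δ ^ j) with hT
  have hTa : ∀ j x k, T j x k = φ k ((δ ^ j) x) := fun j x k => rfl
  have hTc : ∀ j < n, Continuous (fun x => T j x) := by
    intro j hj
    have h1 : ∀ y ∈ sep (T j), (ContinuousLinearMap.id ℂ (ℕ →ᵇ ℂ)) y = 0 := by
      intro y hy
      ext k
      exact sep_of_continuous_comp (T j) (BoundedContinuousFunction.evalCLM ℂ k)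
        (hlow k j hj) y hy
    exact continuous_comp_of_sep (T j) (ContinuousLinearMap.id ℂ (ℕ →ᵇ ℂ)) h1
  -- the elements
  choose a ha1 ha0 hane using fun k => fin_exists_elem φ hinj k
  set U : ℕ → A →L[ℂ] A := fun i => ContinuousLinearMap.mul ℂ A (a i) with hU
  set B : ℕ → (ℕ →ᵇ ℂ) →L[ℂ] (ℕ →ᵇ ℂ) :=
    fun i => ContinuousLinearMap.mul ℂ (ℕ →ᵇ ℂ) (finPhi φ (a i)) with hB
  have hU1 : ∀ i, ‖U i‖ ≤ 1 := fun i =>
    (ContinuousLinearMap.opNorm_mul_apply_le ℂ A (a i)).trans (ha1 i)
  have hTU : ∀ i, Continuous (fun x => T n (U i x) - B i (T n x)) := by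
    intro i
    have h1 : ∀ x, T n (U i x) - B i (T n x) = ∑ l ∈ Finset.range n,
        (n.choose (l + 1) : ℂ) • (finPhi φ ((δ ^ (l + 1)) (a i)) * T (n - (l + 1)) x) := by
      intro x
      have h2 : T n (U i x) = finPhi φ ((δ ^ n) (a i * x)) := rfl
      rw [h2, iter_leibniz δ hδ n (a i) x, map_sum, Finset.sum_range_succ']
      have h3 : finPhi φ ((n.choose 0 : ℂ) • ((δ ^ 0) (a i) * (δ ^ (n - 0)) x)) =
          B i (T n x) := by
        rw [Nat.choose_zero_right, Nat.cast_one, one_smul, pow_zero, Nat.sub_zero, finPhi_mul]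
        rfl
      rw [h3, add_sub_cancel_right]
      apply Finset.sum_congr rfl
      intro l _
      rw [map_smul, finPhi_mul]
      rfl
    have h4 : Continuous (fun x => ∑ l ∈ Finset.range n,
        (n.choose (l + 1) : ℂ) • (finPhi φ ((δ ^ (l + 1)) (a i)) * T (n - (l + 1)) x)) := by
      apply continuous_finsetSum
      intro l hl
      have hln := Finset.mem_range.1 hl
      exact (continuous_const.mul (hTc (n - (l + 1)) (by omega))).const_smul
        ((n.choose (l + 1) : ℂ))
    exact h4.congr (fun x => (h1 x).symm)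
  obtain ⟨k, hk⟩ := stability (T n) U B hU1 hTU
  -- the coordinates of the products
  have hprod : ∀ m (z : ℕ →ᵇ ℂ), prodL B m z k = (∏ i ∈ Finset.range m, φ k (a i)) * z k := by
    intro m
    induction m with
    | zero => intro z; simp [prodL]
    | succ m ih =>
      intro z
      have h1 : prodL B (m + 1) z = prodL B m (B m z) := rfl
      rw [h1, ih, Finset.prod_range_succ]
      have h2 : B m z k = φ k (a m) * z k := rfl
      rw [h2]
      ring
  have hzero : ∀ y ∈ sep (T n), y k = 0 := by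
    intro y hy
    have h1 := hk y hy
    have hcl : IsClosed {z : ℕ →ᵇ ℂ | z k = 0} :=
      isClosed_singleton.preimage (BoundedContinuousFunction.evalCLM ℂ k).continuous
    have h2 : prodL B (k + 1) '' (sep (T n) : Set (ℕ →ᵇ ℂ)) ⊆ {z : ℕ →ᵇ ℂ | z k = 0} := by
      rintro _ ⟨z, -, rfl⟩
      show prodL B (k + 1) z k = 0
      rw [hprod, Finset.prod_range_succ, ha0 k, mul_zero, zero_mul]
    have h3 : prodL B k y k = 0 := closure_minimal h2 hcl h1
    rw [hprod] at h3
    rcases mul_eq_zero.1 h3 with h4 | h4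
    · exfalso
      rw [Finset.prod_eq_zero_iff] at h4
      obtain ⟨i, hi, hi0⟩ := h4
      have := Finset.mem_range.1 hi
      exact hane i k (by omega) hi0
    · exact h4
  exact hdis k (continuous_comp_of_sep (T n) (BoundedContinuousFunction.evalCLM ℂ k) hzero)

end Finite

end Pool.Agent.SW
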