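import Mathlib
import Pool.Agent.SW.Defs

set_option autoImplicit false

/-!
# Posner's computation modulo a prime ideal (project SW, row SW-1)

If `[x, δ x]` is central modulo a prime ideal `P` for all `x`, then `δ` maps `A` into `P` or
`A` is commutative modulo `P`.  The ideal `P` need not be invariant under `δ`.
-/

namespace Pool.Agent.SW

variable {A : Type*} [Ring A] [Algebra ℂ A]

/-- `2 x ∈ P` implies `x ∈ P`, in the form `x + x ∈ P`. -/
private theorem sw1_half {P : Submodule ℂ A} {x : A} (h : x + x ∈ P) : x ∈ P := by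
  have h2 := P.smul_mem ((2 : ℂ)⁻¹) h
  have h3 : (2 : ℂ)⁻¹ • (x + x) = x := by
    rw [← two_smul ℂ x, smul_smul]
    norm_num
  rwa [h3] at h2

/-- Step (a): the commutator of `x` and `δ x` lies in `P`. -/
private theorem sw1_comm (δ : A →ₗ[ℂ] A) (hδ : IsDer δ) (P : Submodule ℂ A) (hP : TwoSided P)
    (hprime : ∀ a b : A, (∀ x, a * x * b ∈ P) → a ∈ P ∨ b ∈ P)
    (hc : ∀ x y : A, (x * δ x - δ x * x) * y - y * (x * δ x - δ x * x) ∈ P) (x : A) :
    x * δ x - δ x * x ∈ P := by
  obtain ⟨c, hcdef⟩ : ∃ c, c = x * δ x - δ x * x := ⟨_, rfl⟩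
  have hcen : ∀ y : A, c * y - y * c ∈ P := fun y => by rw [hcdef]; exact hc x y
  -- the commutator of the square
  have hsq : x * x * δ (x * x) - δ (x * x) * (x * x)
      = (x * x * c + x * (c * x)) + (x * x * c + x * (c * x)) - (x * x * c - c * (x * x)) := by
    rw [hδ x x, hcdef]
    noncomm_ring
  -- `c x²` is central modulo `P`
  have h1 : ∀ y : A, c * (x * x * y - y * (x * x)) ∈ P := by
    intro y
    have h := hc (x * x) y
    rw [hsq] at h
    apply sw1_half
    apply sw1_half
    have hz := hcen x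
    have hxx := hcen (x * x)
    have hy := hcen y
    -- `[x², d(x²)] = 4 c x² + e` with `e ∈ P`
    obtain ⟨e, he⟩ : ∃ e, e = ((x * x * c + x * (c * x)) + (x * x * c + x * (c * x))
        - (x * x * c - c * (x * x))) - (c * (x * x) + c * (x * x) + (c * (x * x) + c * (x * x))) :=
      ⟨_, rfl⟩
    have heP : e ∈ P := by
      have : e = x * (c * x - x * c) + x * (c * x - x * c)
          - ((c * (x * x) - x * x * c) + (c * (x * x) - x * x * c)
            + (c * (x * x) - x * x * c)) := by
        rw [he]
        noncomm_ring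
      rw [this]
      exact P.sub_mem (P.add_mem (hP x _ hz).1 (hP x _ hz).1)
        (P.add_mem (P.add_mem hxx hxx) hxx)
    have h2 : c * (x * x * y - y * (x * x)) + c * (x * x * y - y * (x * x))
        + (c * (x * x * y - y * (x * x)) + c * (x * x * y - y * (x * x)))
        = (((x * x * c + x * (c * x)) + (x * x * c + x * (c * x)) - (x * x * c - c * (x * x))) * y
          - y * ((x * x * c + x * (c * x)) + (x * x * c + x * (c * x))
            - (x * x * c - c * (x * x))))
          - (e * y - y * e)
          - (((c * y - y * c) * (x * x) + (c * y - y * c) * (x * x))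
            + ((c * y - y * c) * (x * x) + (c * y - y * c) * (x * x))) := by
      rw [he]
      noncomm_ring
    rw [h2]
    refine P.sub_mem (P.sub_mem h (P.sub_mem (hP y _ heP).2 (hP y _ heP).1)) ?_
    have := (hP (x * x) _ hy).2
    exact P.add_mem (P.add_mem this this) (P.add_mem this this)
  -- `c² x ∈ P`
  have h2 : c * c * x ∈ P := by
    have h := h1 (δ x)
    apply sw1_half
    have h3 : c * c * x + c * c * x
        = c * (x * x * δ x - δ x * (x * x)) + c * (c * x - x * c) := by
      have : x * x * δ x - δ x * (x * x) = x * c + c * x := by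
        rw [hcdef]
        noncomm_ring
      rw [this]
      noncomm_ring
    rw [h3]
    exact P.add_mem h (hP c _ (hcen x)).1
  -- `c³ ∈ P`
  have h3 : c * c * c ∈ P := by
    have h4 : c * c * c = c * c * x * δ x - δ x * (c * c * x)
        - (c * (c * δ x - δ x * c) + (c * δ x - δ x * c) * c) * x := by
      have : c * c * c = c * c * (x * δ x - δ x * x) := by rw [← hcdef]
      rw [this]
      noncomm_ring
    rw [h4]
    refine P.sub_mem (P.sub_mem (hP (δ x) _ h2).2 (hP (δ x) _ h2).1) ?_
    exact (hP x _ (P.add_mem (hP c _ (hcen (δ x))).1 (hP c _ (hcen (δ x))).2)).2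
  -- primality
  have h4 : c ∈ P ∨ c * c ∈ P := by
    apply hprime
    intro z
    have : c * z * (c * c) = c * c * c * z - (c * (c * (c * z - z * c))
        + c * ((c * z - z * c) * c)) := by
      noncomm_ring
    rw [this]
    refine P.sub_mem (hP z _ h3).2 (P.add_mem ?_ ?_)
    · exact (hP c _ (hP c _ (hcen z)).1).1
    · exact (hP c _ (hP c _ (hcen z)).2).1
  rw [← hcdef]
  rcases h4 with h4 | h4
  · exact h4
  · have h5 : c ∈ P ∨ c ∈ P := by
      apply hprime
      intro z
      have : c * z * c = c * c * z - c * (c * z - z * c) := by noncomm_ring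
      rw [this]
      exact P.sub_mem (hP z _ h4).2 (hP c _ (hcen z)).1
    exact h5.elim id id

/-- Posner's theorem modulo a prime ideal which need not be invariant. -/
theorem dichotomy (δ : A →ₗ[ℂ] A) (hδ : IsDer δ) (P : Submodule ℂ A) (hP : TwoSided P)
    (hprime : ∀ a b : A, (∀ x, a * x * b ∈ P) → a ∈ P ∨ b ∈ P)
    (hc : ∀ x y : A, (x * δ x - δ x * x) * y - y * (x * δ x - δ x * x) ∈ P) :
    (∀ x, δ x ∈ P) ∨ (∀ x y : A, x * y - y * x ∈ P) := by
  have hC : ∀ x, x * δ x - δ x * x ∈ P := sw1_comm δ hδ P hP hprime hc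
  -- linearisation
  have hB : ∀ x y : A, x * δ y - δ y * x + (y * δ x - δ x * y) ∈ P := by
    intro x y
    have h1 := hC (x + y)
    have h2 : x * δ y - δ y * x + (y * δ x - δ x * y)
        = ((x + y) * δ (x + y) - δ (x + y) * (x + y)) - (x * δ x - δ x * x)
          - (y * δ y - δ y * y) := by
      rw [map_add]
      noncomm_ring
    rw [h2]
    exact P.sub_mem (P.sub_mem h1 (hC x)) (hC y)
  have hD : ∀ x y : A, (x * y - y * x) * δ x ∈ P := by
    intro x y
    have h1 := hB x (y * x)
    rw [hδ y x] at h1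
    have h2 : (x * y - y * x) * δ x
        = (x * (δ y * x + y * δ x) - (δ y * x + y * δ x) * x
            + (y * x * δ x - δ x * (y * x)))
          - (x * δ y - δ y * x + (y * δ x - δ x * y)) * x
          - (y * (x * δ x - δ x * x) + y * (x * δ x - δ x * x)) := by
      noncomm_ring
    rw [h2]
    exact P.sub_mem (P.sub_mem h1 (hP x _ (hB x y)).2)
      (P.add_mem (hP y _ (hC x)).1 (hP y _ (hC x)).1)
  have hE : ∀ x z : A, x * z - z * x ∈ P ∨ δ x ∈ P := by
    intro x z
    apply hprime
    intro y
    have h1 := hD x (z * y)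
    have h2 : (x * z - z * x) * y * δ x
        = (x * (z * y) - z * y * x) * δ x - z * ((x * y - y * x) * δ x) := by
      noncomm_ring
    rw [h2]
    exact P.sub_mem h1 (hP z _ (hD x y)).1
  by_contra hcon
  push Not at hcon
  obtain ⟨⟨x₀, hx₀⟩, u, v, huv⟩ := hcon
  have hu : δ u ∈ P := (hE u v).resolve_left huv
  have hw : δ (x₀ + u) ∉ P := by
    intro h
    rw [map_add] at h
    exact hx₀ ((P.add_mem_iff_left hu).1 h)
  have h1 := (hE (x₀ + u) v).resolve_right hw
  have h2 := (hE x₀ v).resolve_right hx₀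
  apply huv
  have h3 : u * v - v * u = ((x₀ + u) * v - v * (x₀ + u)) - (x₀ * v - v * x₀) := by
    noncomm_ring
  rw [h3]
  exact P.sub_mem h1 h2

end Pool.Agent.SW
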