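import Mathlib
import Pool.Agent.SW.Defs

/-!
SW-2 of project SW (MP_1eb80b_an): the primitive ideal of a maximal left ideal, and
Gelfand-Mazur for a maximal left ideal with commutative primitive quotient.
-/

set_option autoImplicit false

namespace Pool.Agent.SW

section Primitive

variable {A : Type*} [NormedRing A] [NormedAlgebra ℂ A]

theorem core_le (M : Ideal A) (x : A) (hx : x ∈ core M) : x ∈ M := by
  have h := hx 1
  rwa [mul_one] at h

theorem core_twoSided (M : Ideal A) : TwoSided (core M) := by
  intro a x hx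
  constructor
  · intro b
    rw [mul_assoc]
    exact M.mul_mem_left _ (hx b)
  · intro b
    rw [mul_assoc]
    exact hx (a * b)

omit [NormedAlgebra ℂ A] in
/-- If `z` is not in the maximal left ideal `M` then `y * z - 1 ∈ M` for some `y`. -/
theorem primitive_inv (M : Ideal A) (hM : M.IsMaximal) (z : A) (hz : z ∉ M) :
    ∃ y, y * z - 1 ∈ M := by
  have h1 : M ⊔ Ideal.span {z} = ⊤ := by
    rcases hM.out.le_iff.mp (le_sup_left : M ≤ M ⊔ Ideal.span {z}) with h | h
    · exact h
    · exfalso
      apply hz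
      rw [← h]
      exact Ideal.mem_sup_right (Ideal.subset_span rfl)
  have h2 : (1 : A) ∈ M ⊔ Ideal.span {z} := by
    rw [h1]
    trivial
  obtain ⟨m, hm, w, hw, hmw⟩ := Submodule.mem_sup.mp h2
  obtain ⟨y, rfl⟩ := Submodule.mem_span_singleton.mp hw
  refine ⟨y, ?_⟩
  have : y * z - 1 = -m := by
    rw [← hmw, smul_eq_mul]
    abel
  rw [this]
  exact M.neg_mem hm

theorem core_prime (M : Ideal A) (hM : M.IsMaximal) (a b : A)
    (h : ∀ x, a * x * b ∈ core M) : a ∈ core M ∨ b ∈ core M := by
  by_contra hcon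
  rw [not_or] at hcon
  obtain ⟨ha, hb⟩ := hcon
  have hb' : ∃ c, b * c ∉ M := by
    by_contra hc
    rw [not_exists] at hc
    apply hb
    intro c
    by_contra hcc
    exact hc c hcc
  obtain ⟨c, hc⟩ := hb'
  obtain ⟨y, hy⟩ := primitive_inv M hM _ hc
  apply ha
  intro d
  have h1 : a * (d * y) * b * c ∈ M := h (d * y) c
  have h2 : a * d * (y * (b * c) - 1) ∈ M := M.mul_mem_left _ hy
  have h3 : a * d = a * (d * y) * b * c - a * d * (y * (b * c) - 1) := by
    noncomm_ring
  rw [h3]
  exact M.sub_mem h1 h2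

variable [CompleteSpace A]

/-- For every `x` there is a scalar `z` with `x - z ∈ M`. -/
theorem primitive_scalar (M : Ideal A) (hM : M.IsMaximal)
    (hcomm : ∀ a b : A, a * b - b * a ∈ M) (x : A) :
    ∃ z : ℂ, x - algebraMap ℂ A z ∈ M := by
  have := hM
  have htwo : ∀ a b : A, b ∈ M → b * a ∈ M := by
    intro a b hb
    have h1 := M.add_mem (M.mul_mem_left a hb) (hcomm b a)
    rwa [add_sub_cancel] at h1
  let N : Submodule ℂ A := M.restrictScalars ℂ
  have hNmem : ∀ a, a ∈ N ↔ a ∈ M := fun a => Iff.rfl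
  have hNc : IsClosed (N : Set A) := (Ideal.IsMaximal.isClosed : IsClosed (M : Set A))
  have hNtop : N ≠ ⊤ := by
    intro htop
    apply hM.ne_top
    rw [Ideal.eq_top_iff_one]
    have : (1 : A) ∈ N := by
      rw [htop]
      trivial
    exact this
  have : Nontrivial (A ⧸ N) := Submodule.Quotient.nontrivial_iff.mpr hNtop
  have hL : ∀ a : A, N ≤ N.comap (LinearMap.mulLeft ℂ a) := by
    intro a b hb
    exact M.mul_mem_left a hb
  let l : A → (A ⧸ N →L[ℂ] A ⧸ N) := fun a =>
    { toLinearMap := N.mapQ N (LinearMap.mulLeft ℂ a) (hL a)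
      cont := by
        apply (QuotientAddGroup.isQuotientMap_mk (N := N.toAddSubgroup)).continuous_iff.mpr
        exact continuous_quotient_mk'.comp (continuous_const.mul continuous_id) }
  have hl : ∀ a b : A, l a (Submodule.Quotient.mk b) = Submodule.Quotient.mk (a * b) := by
    intro a b
    rfl
  obtain ⟨z, hz⟩ := spectrum.nonempty (l x)
  refine ⟨z, ?_⟩
  by_contra hnot
  apply spectrum.mem_iff.mp hz
  have hnot' : algebraMap ℂ A z - x ∉ M := by
    intro h
    apply hnot
    have := M.neg_mem h
    rwa [neg_sub] at this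
  obtain ⟨y, hy⟩ := primitive_inv M hM _ hnot'
  have hy' : (algebraMap ℂ A z - x) * y - 1 ∈ M := by
    have h1 := M.add_mem hy (hcomm (algebraMap ℂ A z - x) y)
    have h2 : y * (algebraMap ℂ A z - x) - 1 + ((algebraMap ℂ A z - x) * y -
        y * (algebraMap ℂ A z - x)) = (algebraMap ℂ A z - x) * y - 1 := by
      abel
    rwa [h2] at h1
  have hz1 : ∀ b : A, (algebraMap ℂ (A ⧸ N →L[ℂ] A ⧸ N) z - l x) (Submodule.Quotient.mk b) =
      Submodule.Quotient.mk ((algebraMap ℂ A z - x) * b) := by
    intro b
    rw [sub_apply, hl, sub_mul, Submodule.Quotient.mk_sub,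
      Algebra.algebraMap_eq_smul_one, Algebra.algebraMap_eq_smul_one, smul_mul_assoc, one_mul,
      Submodule.Quotient.mk_smul]
    rfl
  have key : ∀ a b : A, a - 1 ∈ M →
      (Submodule.Quotient.mk (a * b) : A ⧸ N) = Submodule.Quotient.mk b := by
    intro a b ha
    rw [Submodule.Quotient.eq, hNmem]
    have := htwo b _ ha
    rwa [sub_mul, one_mul] at this
  have e1 : (algebraMap ℂ (A ⧸ N →L[ℂ] A ⧸ N) z - l x) * l y = 1 := by
    ext q
    obtain ⟨b, rfl⟩ := Submodule.Quotient.mk_surjective N q
    change (algebraMap ℂ (A ⧸ N →L[ℂ] A ⧸ N) z - l x) (l y (Submodule.Quotient.mk b)) =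
      Submodule.Quotient.mk b
    rw [hl, hz1, ← mul_assoc, key _ _ hy']
  have e2 : l y * (algebraMap ℂ (A ⧸ N →L[ℂ] A ⧸ N) z - l x) = 1 := by
    ext q
    obtain ⟨b, rfl⟩ := Submodule.Quotient.mk_surjective N q
    change l y ((algebraMap ℂ (A ⧸ N →L[ℂ] A ⧸ N) z - l x) (Submodule.Quotient.mk b)) =
      Submodule.Quotient.mk b
    rw [hz1, hl, ← mul_assoc, key _ _ hy]
  exact ⟨⟨_, _, e1, e2⟩, rfl⟩

/-- Gelfand-Mazur: a maximal left ideal with commutative primitive quotient is the kernel of a
character. -/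
theorem exists_character (M : Ideal A) (hM : M.IsMaximal)
    (hc : ∀ x y : A, x * y - y * x ∈ core M) :
    ∃ φ : A →ₐ[ℂ] ℂ, ∀ x, x ∈ M ↔ φ x = 0 := by
  have hcomm : ∀ a b : A, a * b - b * a ∈ M := fun a b => core_le M _ (hc a b)
  have htwo : ∀ a b : A, b ∈ M → b * a ∈ M := by
    intro a b hb
    have h1 := M.add_mem (M.mul_mem_left a hb) (hcomm b a)
    rwa [add_sub_cancel] at h1
  choose f hf using primitive_scalar M hM hcomm
  have h0 : ∀ z : ℂ, algebraMap ℂ A z ∈ M → z = 0 := by
    intro z hz
    by_contra hz0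
    apply hM.ne_top
    rw [Ideal.eq_top_iff_one]
    have h1 := M.mul_mem_left (algebraMap ℂ A z⁻¹) hz
    rwa [← map_mul, inv_mul_cancel₀ hz0, map_one] at h1
  have huniq : ∀ (x : A) (z : ℂ), x - algebraMap ℂ A z ∈ M → f x = z := by
    intro x z hz
    have h1 := M.sub_mem hz (hf x)
    have h2 : x - algebraMap ℂ A z - (x - algebraMap ℂ A (f x)) = algebraMap ℂ A (f x - z) := by
      rw [map_sub]
      abel
    rw [h2] at h1
    exact sub_eq_zero.mp (h0 _ h1)
  let φ : A →ₐ[ℂ] ℂ :=
    { toFun := f
      map_one' := by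
        apply huniq
        rw [map_one, sub_self]
        exact M.zero_mem
      map_zero' := by
        apply huniq
        rw [map_zero, sub_self]
        exact M.zero_mem
      map_add' := by
        intro x y
        apply huniq
        have h1 := M.add_mem (hf x) (hf y)
        have h2 : x - algebraMap ℂ A (f x) + (y - algebraMap ℂ A (f y)) =
            x + y - algebraMap ℂ A (f x + f y) := by
          rw [map_add]
          abel
        rwa [h2] at h1
      map_mul' := by
        intro x y
        apply huniq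
        have h1 := M.add_mem (htwo y _ (hf x))
          (M.mul_mem_left (algebraMap ℂ A (f x)) (hf y))
        have h2 : (x - algebraMap ℂ A (f x)) * y +
            algebraMap ℂ A (f x) * (y - algebraMap ℂ A (f y)) =
            x * y - algebraMap ℂ A (f x * f y) := by
          rw [map_mul]
          noncomm_ring
        rwa [h2] at h1
      commutes' := by
        intro z
        apply huniq
        change algebraMap ℂ A z - algebraMap ℂ A z ∈ M
        rw [sub_self]
        exact M.zero_mem }
  refine ⟨φ, ?_⟩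
  intro x
  constructor
  · intro hx
    apply huniq
    rw [map_zero, sub_zero]
    exact hx
  · intro hx
    have h1 := hf x
    have h2 : f x = 0 := hx
    rwa [h2, map_zero, sub_zero] at h1

end Primitive

end Pool.Agent.SW
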