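import Mathlib
import Pool.Agent.SW.Posner
import Pool.Agent.SW.Primitive
import Pool.Agent.SW.Sep
import Pool.Agent.SW.Sinclair
import Pool.Agent.SW.Finite

/-!
Project SW: every exceptional character is witnessed by an element of the radical.
-/

set_option autoImplicit false

namespace Pool.Agent.SW

/-! ## SW-8  Radical.lean (imports all of the above) -/

section Radical

variable {A : Type*} [NormedRing A] [NormedAlgebra ℂ A] [CompleteSpace A]

theorem rad_mem_core (M : Ideal A) (hM : M.IsMaximal) (x : A)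
    (hx : x ∈ (⊥ : Ideal A).jacobson) : x ∈ core M := by
  intro a
  have h1 : x * a ∈ (⊥ : Ideal A).jacobson := by
    rw [Ideal.jacobson_bot] at hx ⊢
    exact Ideal.mul_mem_right a _ hx
  exact (Ideal.mem_sInf.mp h1) ⟨bot_le, hM⟩

/-- A character as a continuous functional. -/
noncomputable def rad_clm (φ : A →ₐ[ℂ] ℂ) : A →L[ℂ] ℂ := φ.toContinuousLinearMap

theorem rad_clm_apply (φ : A →ₐ[ℂ] ℂ) (x : A) : rad_clm φ x = φ x := rfl

theorem rad_dichotomy (δ : A →ₗ[ℂ] A) (hδ : IsDer δ)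
    (hc : ∀ x y : A, (x * δ x - δ x * x) * y - y * (x * δ x - δ x * x) ∈
      (⊥ : Ideal A).jacobson) (M : Ideal A) (hM : M.IsMaximal) :
    (∀ x, δ x ∈ core M) ∨ ∃ ψ : A →ₐ[ℂ] ℂ, ∀ x, x ∈ M ↔ ψ x = 0 := by
  rcases dichotomy δ hδ (core M) (core_twoSided M) (core_prime M hM)
    (fun x y => rad_mem_core M hM _ (hc x y)) with h | h
  · exact Or.inl h
  · exact Or.inr (exists_character M hM h)

theorem exists_exceptional (δ : A →ₗ[ℂ] A) (hδ : IsDer δ)
    (hc : ∀ x y : A, (x * δ x - δ x * x) * y - y * (x * δ x - δ x * x) ∈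
      (⊥ : Ideal A).jacobson)
    (h : ∃ x, δ x ∉ (⊥ : Ideal A).jacobson) :
    ∃ φ : A →ₐ[ℂ] ℂ, ∃ x, φ (δ x) ≠ 0 := by
  by_contra hcon
  push Not at hcon
  obtain ⟨x, hx⟩ := h
  apply hx
  refine Ideal.mem_sInf.mpr ?_
  rintro M ⟨-, hM⟩
  rcases rad_dichotomy δ hδ hc M hM with h1 | ⟨ψ, hψ⟩
  · exact core_le M _ (h1 x)
  · exact (hψ _).mpr (hcon ψ x)

/-- Characters can be separated from finitely many others. -/
theorem rad_separate (φ : A →ₐ[ℂ] ℂ) (S : Set (A →ₐ[ℂ] ℂ)) (hS : S.Finite) (hφ : φ ∉ S) :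
    ∃ c : A, φ c ≠ 0 ∧ ∀ ψ ∈ S, ψ c = 0 := by
  induction S, hS using Set.Finite.induction_on with
  | empty => exact ⟨1, by simp, by simp⟩
  | @insert ψ S _ _ ih =>
    obtain ⟨c, hc1, hc2⟩ := ih (fun h => hφ (Set.mem_insert_of_mem _ h))
    have hne : ψ ≠ φ := fun h => hφ (h ▸ Set.mem_insert _ _)
    obtain ⟨x, hx⟩ : ∃ x, ψ x ≠ φ x := by
      by_contra hcon
      push Not at hcon
      exact hne (AlgHom.ext hcon)
    refine ⟨c * (x - algebraMap ℂ A (ψ x)), ?_, ?_⟩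
    · rw [map_mul, map_sub, AlgHom.commutes]
      refine mul_ne_zero hc1 ?_
      intro h
      apply hx
      have : φ x = algebraMap ℂ ℂ (ψ x) := sub_eq_zero.mp h
      rw [this]
      rfl
    · intro χ hχ
      rcases Set.mem_insert_iff.mp hχ with rfl | hχ'
      · rw [map_mul, map_sub, AlgHom.commutes]
        simp
      · rw [map_mul, hc2 χ hχ', zero_mul]

theorem exists_radical_elem (δ : A →ₗ[ℂ] A) (hδ : IsDer δ)
    (hc : ∀ x y : A, (x * δ x - δ x * x) * y - y * (x * δ x - δ x * x) ∈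
      (⊥ : Ideal A).jacobson)
    (φ : A →ₐ[ℂ] ℂ) (hφ : ∃ x, φ (δ x) ≠ 0) :
    ∃ r ∈ (⊥ : Ideal A).jacobson, φ r = 0 ∧ φ (δ r) ≠ 0 := by
  classical
  obtain ⟨a, ha⟩ := hφ
  -- the first level of discontinuity of `φ`
  have hex : ∃ n, ¬ Continuous (fun x => φ ((δ ^ n) x)) := by
    by_contra hcon
    push Not at hcon
    exact ha (sinclair δ hδ φ hcon a)
  let n := Nat.find hex
  have hn : ¬ Continuous (fun x => φ ((δ ^ n) x)) := Nat.find_spec hex
  -- step A
  obtain ⟨e, he1, he2⟩ : ∃ e : A, φ e ≠ 0 ∧ ∀ ψ : A →ₐ[ℂ] ℂ,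
      (∀ j ≤ n, Continuous (fun x => ψ ((δ ^ j) x))) → ψ e = 0 := by
    by_contra hcon
    push Not at hcon
    apply hn
    have := continuous_comp_of_sep (δ ^ n) (rad_clm φ) ?_
    · exact this
    · intro y hy
      by_contra hy0
      obtain ⟨ψ, h1, h2⟩ := hcon y hy0
      exact h2 (sep_of_continuous_comp (δ ^ n) (rad_clm ψ) (h1 n le_rfl) y hy)
  -- step B
  let F : Set (A →ₐ[ℂ] ℂ) := ⋃ m ∈ Finset.range (n + 1),
    {φ : A →ₐ[ℂ] ℂ | (∀ j < m, Continuous (fun x => φ ((δ ^ j) x))) ∧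
      ¬ Continuous (fun x => φ ((δ ^ m) x))}
  have hF : F.Finite := by
    apply Set.Finite.biUnion (Finset.finite_toSet _)
    intro m _
    exact finite_level δ hδ m
  obtain ⟨c, hc1, hc2⟩ := rad_separate φ (F \ {φ}) (hF.subset Set.sdiff_subset) (by simp)
  -- step C
  have hC : ∀ ψ : A →ₐ[ℂ] ℂ, ψ ≠ φ → (∃ x, ψ (δ x) ≠ 0) → ψ (e * c) = 0 := by
    intro ψ hne _
    by_cases h : ∀ j ≤ n, Continuous (fun x => ψ ((δ ^ j) x))
    · rw [map_mul, he2 ψ h, zero_mul]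
    · push Not at h
      obtain ⟨j, hj, hj2⟩ := h
      have hex' : ∃ m, ¬ Continuous (fun x => ψ ((δ ^ m) x)) := ⟨j, hj2⟩
      have hm : Nat.find hex' ≤ n := (Nat.find_min' hex' hj2).trans hj
      have hmem : ψ ∈ F := by
        simp only [F, Set.mem_iUnion]
        refine ⟨Nat.find hex', Finset.mem_range.mpr (by omega), ?_, Nat.find_spec hex'⟩
        intro i hi
        have := Nat.find_min hex' hi
        push Not at this
        exact this
      rw [map_mul, hc2 ψ ⟨hmem, hne⟩, mul_zero]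
  -- step D
  let r₀ : A := a - algebraMap ℂ A (φ a)
  have hr₀ : φ r₀ = 0 := by
    simp only [r₀, map_sub, AlgHom.commutes]
    simp
  have hδr₀ : δ r₀ = δ a := by
    simp only [r₀, map_sub]
    rw [Algebra.algebraMap_eq_smul_one, map_smul, psi_one δ hδ, smul_zero, sub_zero]
  refine ⟨(e * c) * r₀ * δ a, ?_, ?_, ?_⟩
  · refine Ideal.mem_sInf.mpr ?_
    rintro M ⟨-, hM⟩
    rcases rad_dichotomy δ hδ hc M hM with h1 | ⟨ψ, hψ⟩
    · exact core_le M _ (core_twoSided M _ _ (h1 a)).1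
    · rw [hψ]
      by_cases hψφ : ψ = φ
      · rw [hψφ, map_mul, map_mul, hr₀, mul_zero, zero_mul]
      · by_cases hE : ∃ x, ψ (δ x) ≠ 0
        · rw [map_mul, map_mul, hC ψ hψφ hE, zero_mul, zero_mul]
        · push Not at hE
          rw [map_mul, hE a, mul_zero]
  · rw [map_mul, map_mul, hr₀, mul_zero, zero_mul]
  · have e1 : δ (e * c * r₀ * δ a) =
        (δ (e * c) * r₀ + e * c * δ a) * δ a + e * c * r₀ * δ (δ a) := by
      rw [hδ (e * c * r₀) (δ a), hδ (e * c) r₀, hδr₀]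
    have e2 : φ (δ (e * c * r₀ * δ a)) = φ e * φ c * φ (δ a) * φ (δ a) := by
      rw [e1]
      simp only [map_add, map_mul, hr₀, mul_zero, zero_mul, add_zero, zero_add]
    rw [e2]
    exact mul_ne_zero (mul_ne_zero (mul_ne_zero he1 hc1) ha) ha

end Radical

end Pool.Agent.SW
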