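import Mathlib
import Pool.Agent.SW.Defs
import Pool.Agent.SW.Psi
import Pool.Agent.SW.Sinclair

/-!
SW-9: the homomorphism `Psi` is onto the power series.
-/

set_option autoImplicit false

namespace Pool.Agent.SW

section SurjAlg

variable {A : Type*} [Ring A] [Algebra ℂ A]

theorem surj_der_one (δ : A →ₗ[ℂ] A) (hδ : IsDer δ) : δ 1 = 0 := by
  have h := hδ 1 1
  rw [mul_one, mul_one, one_mul] at h
  exact left_eq_add.1 h

/-- an element with `Psi r = t * U`, `U(0) = 1`. -/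
theorem surj_exists_r (δ : A →ₗ[ℂ] A) (hδ : IsDer δ) (φ : A →ₐ[ℂ] ℂ)
    (hφ : ∃ x, φ (δ x) ≠ 0) : ∃ (r : A) (U : PowerSeries ℂ),
      Psi δ hδ φ r = PowerSeries.X * U ∧ PowerSeries.constantCoeff U = 1 := by
  obtain ⟨x, hx⟩ := hφ
  have h0 : φ (δ ((φ (δ x))⁻¹ • (x - φ x • (1 : A)))) = 1 := by
    rw [map_smul, map_smul, map_sub, map_smul, surj_der_one δ hδ, smul_zero, sub_zero,
      smul_eq_mul, inv_mul_cancel₀ hx]
  have h1 : φ ((φ (δ x))⁻¹ • (x - φ x • (1 : A))) = 0 := by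
    rw [map_smul, map_sub, map_smul, map_one, smul_eq_mul, smul_eq_mul, mul_one, sub_self,
      mul_zero]
  generalize (φ (δ x))⁻¹ • (x - φ x • (1 : A)) = r at h0 h1
  have hc : PowerSeries.constantCoeff (Psi δ hδ φ r) = 0 := by
    rw [← PowerSeries.coeff_zero_eq_constantCoeff_apply, coeff_Psi, pow_zero, Module.End.one_apply,
      h1, zero_div]
  obtain ⟨U, hU⟩ := PowerSeries.X_dvd_iff.2 hc
  refine ⟨r, U, hU, ?_⟩
  have h2 : PowerSeries.coeff 1 (Psi δ hδ φ r) = 1 := by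
    rw [coeff_Psi, pow_one, h0]
    simp
  rw [hU, show (1 : ℕ) = 0 + 1 from rfl, PowerSeries.coeff_succ_X_mul,
    PowerSeries.coeff_zero_eq_constantCoeff_apply] at h2
  exact h2

/-- coefficients of `t ^ k * V * P` when `P` has order at least `n`. -/
theorem surj_shift (k n : ℕ) (V P : PowerSeries ℂ) (hP : ∀ j < n, PowerSeries.coeff j P = 0) :
    (∀ j < n + k, PowerSeries.coeff j (PowerSeries.X ^ k * V * P) = 0) ∧
      PowerSeries.coeff (n + k) (PowerSeries.X ^ k * V * P)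
        = PowerSeries.constantCoeff V * PowerSeries.coeff n P := by
  obtain ⟨Q, hQ⟩ := PowerSeries.X_pow_dvd_iff.2 hP
  have e : PowerSeries.X ^ k * V * P = PowerSeries.X ^ (n + k) * (V * Q) := by
    rw [hQ, pow_add]
    ring
  refine ⟨fun j hj => ?_, ?_⟩
  · rw [e, PowerSeries.coeff_X_pow_mul', if_neg (not_le.2 hj)]
  · have e1 : PowerSeries.coeff n P = PowerSeries.constantCoeff Q := by
      rw [hQ, PowerSeries.coeff_X_pow_mul', if_pos le_rfl, Nat.sub_self,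
        PowerSeries.coeff_zero_eq_constantCoeff_apply]
    rw [e, PowerSeries.coeff_X_pow_mul', if_pos le_rfl, Nat.sub_self,
      PowerSeries.coeff_zero_eq_constantCoeff_apply, map_mul, e1]

/-- `Psi` of `r ^ k * y`. -/
theorem surj_shift_r (δ : A →ₗ[ℂ] A) (hδ : IsDer δ) (φ : A →ₐ[ℂ] ℂ) {r : A} {U : PowerSeries ℂ}
    (hr : Psi δ hδ φ r = PowerSeries.X * U) (hU : PowerSeries.constantCoeff U = 1)
    (k n : ℕ) (y : A) (hy : ∀ j < n, PowerSeries.coeff j (Psi δ hδ φ y) = 0) :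
    (∀ j < n + k, PowerSeries.coeff j (Psi δ hδ φ (r ^ k * y)) = 0) ∧
      PowerSeries.coeff (n + k) (Psi δ hδ φ (r ^ k * y)) = PowerSeries.coeff n (Psi δ hδ φ y) := by
  have h := surj_shift k n (U ^ k) (Psi δ hδ φ y) hy
  rw [map_pow, hU, one_pow, one_mul] at h
  rw [map_mul, map_pow, hr, mul_pow]
  exact h

/-- polynomials in `r` approximate every power series to any finite order. -/
theorem surj_poly (δ : A →ₗ[ℂ] A) (hδ : IsDer δ) (φ : A →ₐ[ℂ] ℂ) {r : A} {U : PowerSeries ℂ}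
    (hr : Psi δ hδ φ r = PowerSeries.X * U) (hU : PowerSeries.constantCoeff U = 1)
    (F : PowerSeries ℂ) (k : ℕ) :
    ∃ x : A, ∀ j < k, PowerSeries.coeff j (Psi δ hδ φ x) = PowerSeries.coeff j F := by
  induction k with
  | zero => exact ⟨0, fun j hj => absurd hj (Nat.not_lt_zero j)⟩
  | succ k ih =>
    obtain ⟨x, hx⟩ := ih
    have h := surj_shift_r δ hδ φ hr hU k 0
      ((PowerSeries.coeff k F - PowerSeries.coeff k (Psi δ hδ φ x)) • (1 : A))
      (fun j hj => absurd hj (Nat.not_lt_zero j))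
    rw [zero_add] at h
    have h1 : PowerSeries.coeff 0 (Psi δ hδ φ
        ((PowerSeries.coeff k F - PowerSeries.coeff k (Psi δ hδ φ x)) • (1 : A)))
        = PowerSeries.coeff k F - PowerSeries.coeff k (Psi δ hδ φ x) := by
      rw [map_smul, map_one, PowerSeries.coeff_smul]
      simp
    rw [h1] at h
    refine ⟨x + r ^ k * ((PowerSeries.coeff k F - PowerSeries.coeff k (Psi δ hδ φ x)) • (1 : A)),
      fun j hj => ?_⟩
    rw [map_add, map_add]
    rcases Nat.lt_succ_iff_lt_or_eq.1 hj with hj | hj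
    · rw [h.1 j hj, add_zero, hx j hj]
    · rw [hj, h.2]
      ring

end SurjAlg

section Surj

variable {A : Type*} [NormedRing A] [NormedAlgebra ℂ A] [CompleteSpace A]

/-- there is a least index with `φ ∘ δ ^ n` discontinuous. -/
theorem surj_least (δ : A →ₗ[ℂ] A) (hδ : IsDer δ) (φ : A →ₐ[ℂ] ℂ)
    (hφ : ∃ x, φ (δ x) ≠ 0) : ∃ n₀ : ℕ, (∀ j < n₀, Continuous (fun x => φ ((δ ^ j) x))) ∧
      ¬ Continuous (fun x => φ ((δ ^ n₀) x)) := by
  classical
  have h : ∃ n : ℕ, ¬ Continuous (fun x => φ ((δ ^ n) x)) := by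
    by_contra hc
    push Not at hc
    obtain ⟨x, hx⟩ := hφ
    exact hx (sinclair δ hδ φ hc x)
  refine ⟨Nat.find h, fun j hj => ?_, Nat.find_spec h⟩
  exact not_not.1 (Nat.find_min h hj)

omit [CompleteSpace A] in
theorem surj_cont_coeff (δ : A →ₗ[ℂ] A) (hδ : IsDer δ) (φ : A →ₐ[ℂ] ℂ) (n : ℕ)
    (h : Continuous (fun x => φ ((δ ^ n) x))) :
    Continuous (fun x => PowerSeries.coeff n (Psi δ hδ φ x)) := by
  have e : (fun x => PowerSeries.coeff n (Psi δ hδ φ x))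
      = fun x => φ ((δ ^ n) x) / (n.factorial : ℂ) := by
    funext x
    exact coeff_Psi δ hδ φ n x
  rw [e]
  exact h.div_const _

omit [CompleteSpace A] in
theorem surj_cont_of_coeff (δ : A →ₗ[ℂ] A) (hδ : IsDer δ) (φ : A →ₐ[ℂ] ℂ) (n : ℕ)
    (h : Continuous (fun x => PowerSeries.coeff n (Psi δ hδ φ x))) :
    Continuous (fun x => φ ((δ ^ n) x)) := by
  have hn : (n.factorial : ℂ) ≠ 0 := Nat.cast_ne_zero.2 (Nat.factorial_ne_zero n)
  have e : (fun x => φ ((δ ^ n) x))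
      = fun x => PowerSeries.coeff n (Psi δ hδ φ x) * (n.factorial : ℂ) := by
    funext x
    rw [coeff_Psi, div_mul_cancel₀ _ hn]
  rw [e]
  exact h.mul_const _

theorem eventually_discontinuous (δ : A →ₗ[ℂ] A) (hδ : IsDer δ) (φ : A →ₐ[ℂ] ℂ)
    (hφ : ∃ x, φ (δ x) ≠ 0) :
    ∃ n₀ : ℕ, ∀ n ≥ n₀, ¬ Continuous (fun x => φ ((δ ^ n) x)) := by
  obtain ⟨n₀, hlt, hn₀⟩ := surj_least δ hδ φ hφ
  obtain ⟨r, U, hr, hU⟩ := surj_exists_r δ hδ φ hφ
  refine ⟨n₀, fun n hn hc => hn₀ ?_⟩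
  obtain ⟨m, rfl⟩ := Nat.exists_eq_add_of_le hn
  apply surj_cont_of_coeff δ hδ
  have h1 : Continuous (fun x => PowerSeries.coeff (n₀ + m) (Psi δ hδ φ (x * r ^ m))) :=
    (surj_cont_coeff δ hδ φ (n₀ + m) hc).comp (continuous_id.mul continuous_const)
  have e : ∀ x, PowerSeries.coeff (n₀ + m) (Psi δ hδ φ (x * r ^ m))
      = (∑ k ∈ Finset.range n₀, PowerSeries.coeff k (Psi δ hδ φ x)
          * PowerSeries.coeff (n₀ - k) (U ^ m)) + PowerSeries.coeff n₀ (Psi δ hδ φ x) := by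
    intro x
    have e1 : Psi δ hδ φ (x * r ^ m) = PowerSeries.X ^ m * (Psi δ hδ φ x * U ^ m) := by
      rw [map_mul, map_pow, hr, mul_pow]
      ring
    rw [e1, PowerSeries.coeff_X_pow_mul', if_pos (Nat.le_add_left m n₀), Nat.add_sub_cancel,
      PowerSeries.coeff_mul, Finset.Nat.sum_antidiagonal_eq_sum_range_succ
        (fun i j => PowerSeries.coeff i (Psi δ hδ φ x) * PowerSeries.coeff j (U ^ m)),
      Finset.sum_range_succ, Nat.sub_self, PowerSeries.coeff_zero_eq_constantCoeff_apply, map_pow,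
      hU, one_pow, mul_one]
  have e2 : (fun x => PowerSeries.coeff n₀ (Psi δ hδ φ x))
      = fun x => PowerSeries.coeff (n₀ + m) (Psi δ hδ φ (x * r ^ m))
        - ∑ k ∈ Finset.range n₀, PowerSeries.coeff k (Psi δ hδ φ x)
          * PowerSeries.coeff (n₀ - k) (U ^ m) := by
    funext x
    rw [e x]
    ring
  rw [e2]
  refine h1.sub (continuous_finsetSum _ fun k hk => ?_)
  exact (surj_cont_coeff δ hδ φ k (hlt k (Finset.mem_range.1 hk))).mul_const _

/-- a linear functional which is not continuous takes every value on small vectors. -/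
theorem surj_small {E : Type*} [NormedAddCommGroup E] [NormedSpace ℂ E] (f : E →ₗ[ℂ] ℂ)
    (hf : ¬ Continuous f) (ε : ℝ) (hε : 0 < ε) (c : ℂ) : ∃ y : E, ‖y‖ < ε ∧ f y = c := by
  by_contra hcon
  push Not at hcon
  refine hf (AddMonoidHomClass.continuous_of_bound f (‖c‖ / ε) fun x => ?_)
  by_contra hx
  rw [not_le] at hx
  have hfx : 0 < ‖f x‖ := lt_of_le_of_lt (by positivity) hx
  have hfx0 : f x ≠ 0 := norm_pos_iff.1 hfx
  refine hcon ((c / f x) • x) ?_ ?_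
  · rw [norm_smul, norm_div, div_mul_eq_mul_div, div_lt_iff₀ hfx]
    rw [div_mul_eq_mul_div, div_lt_iff₀ hε] at hx
    linarith
  · rw [map_smul, smul_eq_mul, div_mul_cancel₀ _ hfx0]

/-- the closed subspace of the elements with `φ (δ ^ j x) = 0` for `j < n`. -/
def surj_K (δ : A →ₗ[ℂ] A) (φ : A →ₐ[ℂ] ℂ) (n : ℕ) : Submodule ℂ A where
  carrier := {x | ∀ j < n, φ ((δ ^ j) x) = 0}
  add_mem' := by
    intro x y hx hy j hj
    rw [map_add, map_add, hx j hj, hy j hj, add_zero]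
  zero_mem' := by
    intro j _
    rw [map_zero, map_zero]
  smul_mem' := by
    intro c x hx j hj
    rw [map_smul, map_smul, hx j hj, smul_zero]

theorem surj_mem_K (δ : A →ₗ[ℂ] A) (φ : A →ₐ[ℂ] ℂ) (n : ℕ) (x : A) :
    x ∈ surj_K δ φ n ↔ ∀ j < n, φ ((δ ^ j) x) = 0 := Iff.rfl

theorem surj_K_closed (δ : A →ₗ[ℂ] A) (φ : A →ₐ[ℂ] ℂ) (n : ℕ)
    (h : ∀ j < n, Continuous (fun x => φ ((δ ^ j) x))) :
    IsClosed (surj_K δ φ n : Set A) := by
  have e : (surj_K δ φ n : Set A) = ⋂ j, ⋂ (_ : j < n), {x | φ ((δ ^ j) x) = 0} := by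
    ext x
    simp only [SetLike.mem_coe, surj_mem_K, Set.mem_iInter, Set.mem_ofPred_eq]
  rw [e]
  exact isClosed_iInter fun j => isClosed_iInter fun hj => isClosed_eq (h j hj) continuous_const

/-- `φ ∘ δ ^ n` is unbounded on `surj_K δ φ n`. -/
theorem surj_K_small (δ : A →ₗ[ℂ] A) (φ : A →ₐ[ℂ] ℂ) (n : ℕ)
    (h : ∀ j < n, Continuous (fun x => φ ((δ ^ j) x)))
    (hn : ¬ Continuous (fun x => φ ((δ ^ n) x))) (ε : ℝ) (hε : 0 < ε) (c : ℂ) :
    ∃ y ∈ surj_K δ φ n, ‖y‖ < ε ∧ φ ((δ ^ n) y) = c := by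
  let f : A →ₗ[ℂ] ℂ := φ.toLinearMap ∘ₗ (δ ^ n)
  have hf : ¬ Continuous (f.comp (surj_K δ φ n).subtype) := by
    intro hc
    obtain ⟨g, hg, -⟩ := exists_extension_norm_eq (surj_K δ φ n)
      (⟨f.comp (surj_K δ φ n).subtype, hc⟩ : StrongDual ℂ (surj_K δ φ n))
    let Lj : Fin n → (A →ₗ[ℂ] ℂ) := fun j => φ.toLinearMap ∘ₗ (δ ^ (j : ℕ))
    have hker : ⨅ j, LinearMap.ker (Lj j) ≤ LinearMap.ker (f - (g : A →ₗ[ℂ] ℂ)) := by
      intro x hx
      rw [Submodule.mem_iInf] at hx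
      have hxK : x ∈ surj_K δ φ n := fun j hj => LinearMap.mem_ker.1 (hx ⟨j, hj⟩)
      have h1 : g x = f x := hg ⟨x, hxK⟩
      rw [LinearMap.mem_ker, LinearMap.sub_apply]
      show f x - g x = 0
      rw [h1, sub_self]
    have hspan := mem_span_of_iInf_ker_le_ker hker
    rw [Submodule.mem_span_range_iff_exists_fun] at hspan
    obtain ⟨c, hc'⟩ := hspan
    apply hn
    have e : (fun x => φ ((δ ^ n) x)) = fun x => g x + ∑ j, c j * Lj j x := by
      funext x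
      have h2 := LinearMap.congr_fun hc' x
      rw [LinearMap.sum_apply, LinearMap.sub_apply] at h2
      have h3 : ∑ j, c j * Lj j x = f x - g x := by
        rw [← show ∑ d, (c d • Lj d) x = ∑ j, c j * Lj j x from rfl]
        exact h2
      rw [h3]
      show f x = g x + (f x - g x)
      ring
    rw [e]
    refine g.continuous.add (continuous_finsetSum _ fun j _ => ?_)
    exact continuous_const.mul (h j j.2)
  obtain ⟨y, hy, hyc⟩ := surj_small _ hf ε hε c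
  exact ⟨y, y.2, hy, hyc⟩

omit [NormedAlgebra ℂ A] [CompleteSpace A] in
theorem surj_norm_pow_mul (r y : A) (k : ℕ) : ‖r ^ k * y‖ ≤ ‖r‖ ^ k * ‖y‖ := by
  induction k with
  | zero => simp
  | succ k ih =>
    rw [pow_succ', pow_succ', mul_assoc, mul_assoc]
    exact (norm_mul_le _ _).trans (mul_le_mul_of_nonneg_left ih (norm_nonneg _))

theorem psi_surjective (δ : A →ₗ[ℂ] A) (hδ : IsDer δ) (φ : A →ₐ[ℂ] ℂ)
    (hφ : ∃ x, φ (δ x) ≠ 0) : Function.Surjective (Psi δ hδ φ) := by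
  classical
  obtain ⟨n₀, hlt, hn₀⟩ := surj_least δ hδ φ hφ
  obtain ⟨r, U, hr, hU⟩ := surj_exists_r δ hδ φ hφ
  intro F
  obtain ⟨x₀, hx₀⟩ := surj_poly δ hδ φ hr hU F n₀
  have hKcoeff : ∀ y, y ∈ surj_K δ φ n₀ ↔ ∀ j < n₀, PowerSeries.coeff j (Psi δ hδ φ y) = 0 := by
    intro y
    rw [surj_mem_K]
    refine forall_congr' fun j => forall_congr' fun hj => ?_
    have hn : (j.factorial : ℂ) ≠ 0 := Nat.cast_ne_zero.2 (Nat.factorial_ne_zero j)
    rw [coeff_Psi, div_eq_zero_iff]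
    constructor
    · exact fun h => Or.inl h
    · rintro (h | h)
      · exact h
      · exact absurd h hn
  -- the choice of the corrections
  have hstep : ∀ (k : ℕ) (p : A), ∃ y, y ∈ surj_K δ φ n₀ ∧
      ‖y‖ < (1 / 2) ^ k / (1 + ‖r‖) ^ k ∧ PowerSeries.coeff n₀ (Psi δ hδ φ y)
        = PowerSeries.coeff (n₀ + k) F - PowerSeries.coeff (n₀ + k) (Psi δ hδ φ p) := by
    intro k p
    have hn : (n₀.factorial : ℂ) ≠ 0 := Nat.cast_ne_zero.2 (Nat.factorial_ne_zero n₀)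
    obtain ⟨y, hyK, hy, hyc⟩ := surj_K_small δ φ n₀ hlt hn₀ ((1 / 2) ^ k / (1 + ‖r‖) ^ k)
      (by positivity) ((PowerSeries.coeff (n₀ + k) F
        - PowerSeries.coeff (n₀ + k) (Psi δ hδ φ p)) * (n₀.factorial : ℂ))
    refine ⟨y, hyK, hy, ?_⟩
    rw [coeff_Psi, hyc, mul_div_cancel_right₀ _ hn]
  choose Y hYK hYn hYc using hstep
  obtain ⟨p, hp0, hps'⟩ : ∃ p : ℕ → A, p 0 = x₀ ∧ ∀ k, p (k + 1) = p k + r ^ k * Y k (p k) :=
    ⟨fun k => Nat.rec x₀ (fun k q => q + r ^ k * Y k q) k, rfl, fun k => rfl⟩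
  obtain ⟨y, hyY⟩ : ∃ y : ℕ → A, ∀ k, y k = Y k (p k) := ⟨fun k => Y k (p k), fun k => rfl⟩
  have hps : ∀ k, p (k + 1) = p k + r ^ k * y k := fun k => by rw [hps', hyY]
  have hyK : ∀ k, y k ∈ surj_K δ φ n₀ := fun k => by rw [hyY]; exact hYK k (p k)
  have hyn : ∀ k, ‖y k‖ < (1 / 2) ^ k / (1 + ‖r‖) ^ k := fun k => by rw [hyY]; exact hYn k (p k)
  have hyc : ∀ k, PowerSeries.coeff n₀ (Psi δ hδ φ (y k))
      = PowerSeries.coeff (n₀ + k) F - PowerSeries.coeff (n₀ + k) (Psi δ hδ φ (p k)) :=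
    fun k => by rw [hyY]; exact hYc k (p k)
  have hpc : ∀ k, ∀ j < n₀ + k, PowerSeries.coeff j (Psi δ hδ φ (p k))
      = PowerSeries.coeff j F := by
    intro k
    induction k with
    | zero =>
      intro j hj
      rw [hp0]
      exact hx₀ j hj
    | succ k ih =>
      intro j hj
      have h := surj_shift_r δ hδ φ hr hU k n₀ (y k) ((hKcoeff _).1 (hyK k))
      rw [hps, map_add, map_add]
      have hj' : j < (n₀ + k) + 1 := hj
      rcases Nat.lt_succ_iff_lt_or_eq.1 hj' with hj | hj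
      · rw [h.1 j hj, add_zero, ih j hj]
      · rw [hj, h.2, hyc]
        ring
  have hbound : ∀ k m, ‖r ^ m * y (k + m)‖ ≤ (1 / 2) ^ m := by
    intro k m
    have h1 := surj_norm_pow_mul r (y (k + m)) m
    have h2 : ‖y (k + m)‖ ≤ (1 / 2) ^ (k + m) / (1 + ‖r‖) ^ (k + m) := (hyn (k + m)).le
    have hr1 : (1 : ℝ) ≤ 1 + ‖r‖ := le_add_of_nonneg_right (norm_nonneg r)
    have h3 : ‖r‖ ^ m ≤ (1 + ‖r‖) ^ (k + m) := by
      calc ‖r‖ ^ m ≤ (1 + ‖r‖) ^ m :=
            pow_le_pow_left₀ (norm_nonneg r) (le_add_of_nonneg_left zero_le_one) m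
        _ ≤ (1 + ‖r‖) ^ (k + m) := pow_le_pow_right₀ hr1 (Nat.le_add_left m k)
    calc ‖r ^ m * y (k + m)‖ ≤ ‖r‖ ^ m * ‖y (k + m)‖ := h1
      _ ≤ (1 + ‖r‖) ^ (k + m) * ((1 / 2) ^ (k + m) / (1 + ‖r‖) ^ (k + m)) :=
          mul_le_mul h3 h2 (norm_nonneg _) (by positivity)
      _ = (1 / 2) ^ (k + m) := by
          rw [mul_div_cancel₀]
          positivity
      _ ≤ (1 / 2) ^ m := pow_le_pow_of_le_one (by norm_num) (by norm_num) (Nat.le_add_left m k)
  have hsum : ∀ k, Summable (fun m => r ^ m * y (k + m)) := fun k =>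
    Summable.of_norm_bounded (summable_geometric_of_lt_one (by norm_num) (by norm_num))
      (hbound k)
  have hclosed := surj_K_closed δ φ n₀ hlt
  have hz : ∀ k, (∑' m, r ^ m * y (k + m)) ∈ surj_K δ φ n₀ := by
    intro k
    have hmem : ∀ m, r ^ m * y (k + m) ∈ surj_K δ φ n₀ := by
      intro m
      rw [hKcoeff]
      intro j hj
      exact (surj_shift_r δ hδ φ hr hU m n₀ (y (k + m))
        ((hKcoeff _).1 (hyK (k + m)))).1 j (lt_of_lt_of_le hj (Nat.le_add_right n₀ m))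
    have ht := (hsum k).hasSum
    refine hclosed.mem_of_tendsto ht (Filter.Eventually.of_forall fun s => ?_)
    exact Submodule.sum_mem _ fun i _ => hmem i
  have hpsum : ∀ k, p k = x₀ + ∑ l ∈ Finset.range k, r ^ l * y l := by
    intro k
    induction k with
    | zero => rw [hp0, Finset.sum_range_zero, add_zero]
    | succ k ih => rw [hps, Finset.sum_range_succ, ih, add_assoc]
  have hsum0 : Summable (fun m => r ^ m * y m) := by
    have h := hsum 0
    simp only [zero_add] at h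
    exact h
  refine ⟨x₀ + ∑' m, r ^ m * y m, ?_⟩
  ext n
  have hdecomp : x₀ + ∑' m, r ^ m * y m
      = p (n + 1) + r ^ (n + 1) * ∑' m, r ^ m * y (n + 1 + m) := by
    rw [hpsum, ← hsum0.sum_add_tsum_nat_add (n + 1), add_assoc,
      ← Summable.tsum_mul_left _ (hsum (n + 1))]
    congr 2
    refine tsum_congr fun m => ?_
    rw [← mul_assoc, ← pow_add, Nat.add_comm m (n + 1)]
  rw [hdecomp, map_add, map_add, hpc (n + 1) n (by omega),
    (surj_shift_r δ hδ φ hr hU (n + 1) n₀ _ ((hKcoeff _).1 (hz (n + 1)))).1 n (by omega),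
    add_zero]

end Surj

end Pool.Agent.SW
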