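import Mathlib
import Pool.Agent.SW.Surj

/-!
Project SW: total discontinuity of the epimorphism onto the formal power series.
(The construction is the one of helper84 in Surj.lean, with a bound.)
-/

set_option autoImplicit false

namespace Pool.Agent.SW

section Small

variable {A : Type*} [NormedRing A] [NormedAlgebra ℂ A] [CompleteSpace A]

/-- The power series with vanishing coefficients below the first discontinuous one are attained
on arbitrarily small elements. -/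
theorem small_aux (δ : A →ₗ[ℂ] A) (hδ : IsDer δ) (φ : A →ₐ[ℂ] ℂ)
    (hφ : ∃ x, φ (δ x) ≠ 0) (n₀ : ℕ) (hlt : ∀ j < n₀, Continuous (fun x => φ ((δ ^ j) x)))
    (hn₀ : ¬ Continuous (fun x => φ ((δ ^ n₀) x))) (F : PowerSeries ℂ)
    (hx₀ : ∀ j < n₀, PowerSeries.coeff j F = 0) (ε : ℝ) (hε : 0 < ε) :
    ∃ x : A, ‖x‖ ≤ ε * 2 ∧ Psi δ hδ φ x = F := by
  classical
  obtain ⟨r, U, hr, hU⟩ := surj_exists_r δ hδ φ hφ
  obtain ⟨x₀, hx₀0⟩ : ∃ x₀ : A, x₀ = 0 := ⟨0, rfl⟩
  replace hx₀ : ∀ j < n₀, PowerSeries.coeff j (Psi δ hδ φ x₀) = PowerSeries.coeff j F := by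
    intro j hj
    rw [hx₀0, map_zero, map_zero, hx₀ j hj]
  have hKcoeff : ∀ y, y ∈ surj_K δ φ n₀ ↔ ∀ j < n₀, PowerSeries.coeff j (Psi δ hδ φ y) = 0 := by
    intro y
    rw [surj_mem_K]
    refine forall_congr' fun j => forall_congr' fun hj => ?_
    have hn : (j.factorial : ℂ) ≠ 0 := Nat.cast_ne_zero.2 (Nat.factorial_ne_zero j)
    rw [coeff_Psi, div_eq_zero_iff]
    constructor
    · exact fun h => Or.inl h
    · rintro (h | h)
      · exact h
      · exact absurd h hn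
  -- the choice of the corrections
  have hstep : ∀ (k : ℕ) (p : A), ∃ y, y ∈ surj_K δ φ n₀ ∧
      ‖y‖ < ε * (1 / 2) ^ k / (1 + ‖r‖) ^ k ∧ PowerSeries.coeff n₀ (Psi δ hδ φ y)
        = PowerSeries.coeff (n₀ + k) F - PowerSeries.coeff (n₀ + k) (Psi δ hδ φ p) := by
    intro k p
    have hn : (n₀.factorial : ℂ) ≠ 0 := Nat.cast_ne_zero.2 (Nat.factorial_ne_zero n₀)
    obtain ⟨y, hyK, hy, hyc⟩ := surj_K_small δ φ n₀ hlt hn₀ (ε * (1 / 2) ^ k / (1 + ‖r‖) ^ k)
      (by positivity) ((PowerSeries.coeff (n₀ + k) F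
        - PowerSeries.coeff (n₀ + k) (Psi δ hδ φ p)) * (n₀.factorial : ℂ))
    refine ⟨y, hyK, hy, ?_⟩
    rw [coeff_Psi, hyc, mul_div_cancel_right₀ _ hn]
  choose Y hYK hYn hYc using hstep
  obtain ⟨p, hp0, hps'⟩ : ∃ p : ℕ → A, p 0 = x₀ ∧ ∀ k, p (k + 1) = p k + r ^ k * Y k (p k) :=
    ⟨fun k => Nat.rec x₀ (fun k q => q + r ^ k * Y k q) k, rfl, fun k => rfl⟩
  obtain ⟨y, hyY⟩ : ∃ y : ℕ → A, ∀ k, y k = Y k (p k) := ⟨fun k => Y k (p k), fun k => rfl⟩
  have hps : ∀ k, p (k + 1) = p k + r ^ k * y k := fun k => by rw [hps', hyY]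
  have hyK : ∀ k, y k ∈ surj_K δ φ n₀ := fun k => by rw [hyY]; exact hYK k (p k)
  have hyn : ∀ k, ‖y k‖ < ε * (1 / 2) ^ k / (1 + ‖r‖) ^ k := fun k => by rw [hyY]; exact hYn k (p k)
  have hyc : ∀ k, PowerSeries.coeff n₀ (Psi δ hδ φ (y k))
      = PowerSeries.coeff (n₀ + k) F - PowerSeries.coeff (n₀ + k) (Psi δ hδ φ (p k)) :=
    fun k => by rw [hyY]; exact hYc k (p k)
  have hpc : ∀ k, ∀ j < n₀ + k, PowerSeries.coeff j (Psi δ hδ φ (p k))
      = PowerSeries.coeff j F := by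
    intro k
    induction k with
    | zero =>
      intro j hj
      rw [hp0]
      exact hx₀ j hj
    | succ k ih =>
      intro j hj
      have h := surj_shift_r δ hδ φ hr hU k n₀ (y k) ((hKcoeff _).1 (hyK k))
      rw [hps, map_add, map_add]
      have hj' : j < (n₀ + k) + 1 := hj
      rcases Nat.lt_succ_iff_lt_or_eq.1 hj' with hj | hj
      · rw [h.1 j hj, add_zero, ih j hj]
      · rw [hj, h.2, hyc]
        ring
  have hbound : ∀ k m, ‖r ^ m * y (k + m)‖ ≤ ε * (1 / 2) ^ m := by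
    intro k m
    have h1 := surj_norm_pow_mul r (y (k + m)) m
    have h2 : ‖y (k + m)‖ ≤ ε * (1 / 2) ^ (k + m) / (1 + ‖r‖) ^ (k + m) := (hyn (k + m)).le
    have hr1 : (1 : ℝ) ≤ 1 + ‖r‖ := le_add_of_nonneg_right (norm_nonneg r)
    have h3 : ‖r‖ ^ m ≤ (1 + ‖r‖) ^ (k + m) := by
      calc ‖r‖ ^ m ≤ (1 + ‖r‖) ^ m :=
            pow_le_pow_left₀ (norm_nonneg r) (le_add_of_nonneg_left zero_le_one) m
        _ ≤ (1 + ‖r‖) ^ (k + m) := pow_le_pow_right₀ hr1 (Nat.le_add_left m k)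
    calc ‖r ^ m * y (k + m)‖ ≤ ‖r‖ ^ m * ‖y (k + m)‖ := h1
      _ ≤ (1 + ‖r‖) ^ (k + m) * (ε * (1 / 2) ^ (k + m) / (1 + ‖r‖) ^ (k + m)) :=
          mul_le_mul h3 h2 (norm_nonneg _) (by positivity)
      _ = ε * (1 / 2) ^ (k + m) := by
          rw [mul_div_cancel₀]
          positivity
      _ ≤ ε * (1 / 2) ^ m := mul_le_mul_of_nonneg_left
          (pow_le_pow_of_le_one (by norm_num) (by norm_num) (Nat.le_add_left m k)) hε.le
  have hsum : ∀ k, Summable (fun m => r ^ m * y (k + m)) := fun k =>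
    Summable.of_norm_bounded ((summable_geometric_of_lt_one (by norm_num) (by norm_num)).mul_left ε)
      (hbound k)
  have hclosed := surj_K_closed δ φ n₀ hlt
  have hz : ∀ k, (∑' m, r ^ m * y (k + m)) ∈ surj_K δ φ n₀ := by
    intro k
    have hmem : ∀ m, r ^ m * y (k + m) ∈ surj_K δ φ n₀ := by
      intro m
      rw [hKcoeff]
      intro j hj
      exact (surj_shift_r δ hδ φ hr hU m n₀ (y (k + m))
        ((hKcoeff _).1 (hyK (k + m)))).1 j (lt_of_lt_of_le hj (Nat.le_add_right n₀ m))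
    have ht := (hsum k).hasSum
    refine hclosed.mem_of_tendsto ht (Filter.Eventually.of_forall fun s => ?_)
    exact Submodule.sum_mem _ fun i _ => hmem i
  have hpsum : ∀ k, p k = x₀ + ∑ l ∈ Finset.range k, r ^ l * y l := by
    intro k
    induction k with
    | zero => rw [hp0, Finset.sum_range_zero, add_zero]
    | succ k ih => rw [hps, Finset.sum_range_succ, ih, add_assoc]
  have hsum0 : Summable (fun m => r ^ m * y m) := by
    have h := hsum 0
    simp only [zero_add] at h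
    exact h
  refine ⟨x₀ + ∑' m, r ^ m * y m, ?_, ?_⟩
  · rw [hx₀0, zero_add]
    have hb : ∀ m, ‖r ^ m * y m‖ ≤ ε * (1 / 2) ^ m := by
      intro m
      have := hbound 0 m
      rwa [zero_add] at this
    have hg : HasSum (fun m : ℕ => ε * (1 / 2 : ℝ) ^ m) (ε * 2) := hasSum_geometric_two.mul_left ε
    exact tsum_of_norm_bounded hg hb
  ext n
  have hdecomp : x₀ + ∑' m, r ^ m * y m
      = p (n + 1) + r ^ (n + 1) * ∑' m, r ^ m * y (n + 1 + m) := by
    rw [hpsum, ← hsum0.sum_add_tsum_nat_add (n + 1), add_assoc,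
      ← Summable.tsum_mul_left _ (hsum (n + 1))]
    congr 2
    refine tsum_congr fun m => ?_
    rw [← mul_assoc, ← pow_add, Nat.add_comm m (n + 1)]
  rw [hdecomp, map_add, map_add, hpc (n + 1) n (by omega),
    (surj_shift_r δ hδ φ hr hU (n + 1) n₀ _ ((hKcoeff _).1 (hz (n + 1)))).1 n (by omega),
    add_zero]

/-- The continuity behaviour of `Psi`. -/
theorem psi_small (δ : A →ₗ[ℂ] A) (hδ : IsDer δ) (φ : A →ₐ[ℂ] ℂ) (hφ : ∃ x, φ (δ x) ≠ 0) :
    ∃ n₀ : ℕ, 1 ≤ n₀ ∧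
      (∀ j < n₀, Continuous (fun x => PowerSeries.coeff j (Psi δ hδ φ x))) ∧
      ∀ F : PowerSeries ℂ, (∀ j < n₀, PowerSeries.coeff j F = 0) → ∀ ε > 0,
        ∃ x : A, ‖x‖ < ε ∧ Psi δ hδ φ x = F := by
  obtain ⟨n₀, hlt, hn₀⟩ := surj_least δ hδ φ hφ
  refine ⟨n₀, ?_, ?_, ?_⟩
  · by_contra h
    have h0 : n₀ = 0 := by omega
    subst h0
    exact hn₀ φ.toContinuousLinearMap.continuous
  · intro j hj
    have e : (fun x => PowerSeries.coeff j (Psi δ hδ φ x)) =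
        fun x => φ ((δ ^ j) x) / (j.factorial : ℂ) := by
      funext x
      exact coeff_Psi δ hδ φ j x
    rw [e]
    exact (hlt j hj).div_const _
  · intro F hF ε hε
    obtain ⟨x, hx1, hx2⟩ := small_aux δ hδ φ hφ n₀ hlt hn₀ F hF (ε / 4) (by positivity)
    exact ⟨x, by linarith, hx2⟩

end Small

end Pool.Agent.SW
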