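import Mathlib
import Pool.Agent.SW.Radical
import Pool.Agent.SW.Mittag
import Pool.Agent.SW.Small

/-!
Project SW: the structure theorem for unital algebras.
-/

set_option autoImplicit false

namespace Pool.Agent.SW

section Unital

/-- The radical as a complex subspace. -/
noncomputable def jac (B : Type*) [NormedRing B] [NormedAlgebra ℂ B] : Submodule ℂ B :=
  ((⊥ : Ideal B).jacobson).restrictScalars ℂ

theorem mem_jac {B : Type*} [NormedRing B] [NormedAlgebra ℂ B] (x : B) :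
    x ∈ jac B ↔ x ∈ (⊥ : Ideal B).jacobson := Iff.rfl

theorem jac_twoSided {B : Type*} [NormedRing B] [NormedAlgebra ℂ B] : TwoSided (jac B) := by
  intro a x hx
  rw [mem_jac] at hx
  refine ⟨Ideal.mul_mem_left _ a hx, ?_⟩
  rw [mem_jac]
  rw [Ideal.jacobson_bot] at hx ⊢
  exact Ideal.mul_mem_right a _ hx

variable {B : Type*} [NormedRing B] [NormedAlgebra ℂ B] [CompleteSpace B]

theorem jac_isClosed : IsClosed (jac B : Set B) := by
  have h : (jac B : Set B) = ⋂ M : {M : Ideal B // M.IsMaximal}, (M.1 : Set B) := by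
    ext x
    simp only [SetLike.mem_coe, mem_jac, Set.mem_iInter]
    constructor
    · rintro hx ⟨M, hM⟩
      exact (Ideal.mem_sInf.mp hx) ⟨bot_le, hM⟩
    · intro hx
      refine Ideal.mem_sInf.mpr ?_
      rintro M ⟨-, hM⟩
      exact hx ⟨M, hM⟩
  rw [h]
  refine isClosed_iInter ?_
  rintro ⟨M, hM⟩
  exact Ideal.IsMaximal.isClosed

theorem char_jac (χ : B →ₐ[ℂ] ℂ) (x : B) (hx : x ∈ (⊥ : Ideal B).jacobson) : χ x = 0 := by
  by_contra h
  obtain ⟨z, hz⟩ := Ideal.mem_jacobson_iff.mp hx (algebraMap ℂ B (-(χ x)⁻¹))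
  rw [Ideal.mem_bot] at hz
  have := congrArg χ hz
  simp only [map_sub, map_add, map_mul, AlgHom.commutes, map_zero, map_one] at this
  have e : χ z * algebraMap ℂ ℂ (-(χ x)⁻¹) * χ x = - χ z := by
    show χ z * (-(χ x)⁻¹) * χ x = - χ z
    field_simp
  rw [e] at this
  simp at this

theorem prodE_psi (δ : B →ₗ[ℂ] B) (hδ : IsDer δ) (φ : B →ₐ[ℂ] ℂ) (T : ℕ → Module.End ℂ B)
    (hT : ∀ i, T i ∈ mulAlg B) (hT' : ∀ i, Psi δ hδ φ (T i 1) ≠ 0) (k : ℕ) :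
    Psi δ hδ φ (prodE T k 1) ≠ 0 := by
  induction k with
  | zero => simp [prodE]
  | succ k ih =>
    show Psi δ hδ φ ((prodE T k * T k) 1) ≠ 0
    rw [Module.End.mul_apply, mulAlg_psi δ hδ φ _ (prodE_mem T hT k)]
    exact mul_ne_zero ih (hT' k)

/-- The structure theorem for unital algebras. -/
theorem unital_structure (δ : B →ₗ[ℂ] B) (hδ : IsDer δ)
    (hc : ∀ x y : B, (x * δ x - δ x * x) * y - y * (x * δ x - δ x * x) ∈
      (⊥ : Ideal B).jacobson)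
    (h : ∃ x, δ x ∉ (⊥ : Ideal B).jacobson) :
    ∃ (φ : B →ₐ[ℂ] ℂ), (∃ x, φ (δ x) ≠ 0) ∧
      Function.Surjective (Psi δ hδ φ) ∧
      (∃ n₀ : ℕ, 1 ≤ n₀ ∧
        (∀ j < n₀, Continuous (fun x => PowerSeries.coeff j (Psi δ hδ φ x))) ∧
        ∀ F : PowerSeries ℂ, (∀ j < n₀, PowerSeries.coeff j F = 0) → ∀ ε > 0,
          ∃ x : B, ‖x‖ < ε ∧ Psi δ hδ φ x = F) ∧
      (∃ Q : Submodule ℂ B, IsClosed (Q : Set B) ∧ TwoSided Q ∧
        (∀ x ∈ Q, x ∈ (⊥ : Ideal B).jacobson) ∧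
        (∃ x ∈ Q, Psi δ hδ φ x ≠ 0) ∧
        ∀ J : Submodule ℂ B, IsClosed (J : Set B) → TwoSided J →
          (∃ x ∈ J, Psi δ hδ φ x ≠ 0) → Q ≤ J) ∧
      (∃ T₀ ∈ mulAlg B, ∃ w ∈ (⊥ : Ideal B).jacobson, Psi δ hδ φ w ≠ 0 ∧
        ∀ T : ℕ → Module.End ℂ B, (∀ i, T i ∈ mulAlg B) → (∀ i, Psi δ hδ φ (T i 1) ≠ 0) →
          ∀ ε > 0, ∃ u : ℕ → B, (∀ j, u j ∈ sep δ) ∧ (∀ j, u j = T j (u (j + 1))) ∧
            ‖T₀ (u 0) - w‖ < ε ∧ ∀ k, (T₀ (u 0)) ^ k ≠ 0) ∧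
      ∀ T : ℕ → Module.End ℂ B, (∀ i, T i ∈ mulAlg B) → (∀ i, Psi δ hδ φ (T i 1) ≠ 0) →
        ∃ w ∈ (⊥ : Ideal B).jacobson, Psi δ hδ φ w ≠ 0 ∧
          ∀ ε > 0, ∃ u : ℕ → B, (∀ j, u j ∈ sep δ) ∧ (∀ j, u j = T j (u (j + 1))) ∧
            ‖u 0 - w‖ < ε ∧ ∀ k, (u 0) ^ k ≠ 0 := by
  obtain ⟨φ, hφ⟩ := exists_exceptional δ hδ hc h
  obtain ⟨r, hr1, -, hr3⟩ := exists_radical_elem δ hδ hc φ hφ
  have hr4 : Psi δ hδ φ r ≠ 0 := by
    intro h0
    have h1 := coeff_Psi δ hδ φ 1 r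
    rw [h0] at h1
    simp only [map_zero, pow_one, Nat.factorial_one, Nat.cast_one, div_one] at h1
    exact hr3 h1.symm
  obtain ⟨s₀, hs1, hs2⟩ := core_sep δ hδ φ hφ
  -- an element of the separating space in the radical outside the kernel
  have hs3 : r * s₀ ∈ sep δ := (sep_twoSided δ hδ r s₀ hs1).1
  have hs4 : r * s₀ ∈ jac B := (jac_twoSided s₀ r hr1).2
  have hs5 : Psi δ hδ φ (r * s₀) ≠ 0 := by
    rw [map_mul]
    exact mul_ne_zero hr4 hs2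
  refine ⟨φ, hφ, psi_surjective δ hδ φ hφ, psi_small δ hδ φ hφ, ?_, ?_, ?_⟩
  · obtain ⟨Q, hQ1, hQ2, hQ3, hQ4⟩ := core_min δ hδ φ hφ
    exact ⟨Q, hQ1, hQ2, fun x hx => hQ4 (jac B) jac_isClosed jac_twoSided ⟨r, hr1, hr4⟩ hx,
      hQ3, hQ4⟩
  · obtain ⟨T₀, hT1, hT2, hT3⟩ := core_terminal δ hδ φ
    have hw : Psi δ hδ φ (T₀ (r * s₀)) ≠ 0 := by
      rw [mulAlg_psi δ hδ φ T₀ hT1]
      exact mul_ne_zero hT2 hs5
    refine ⟨T₀, hT1, T₀ (r * s₀), mulAlg_twoSided (jac B) jac_twoSided T₀ hT1 _ hs4, hw, ?_⟩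
    intro T hT hT' ε hε
    -- the sequence `T₀, T 0, T 1, …`
    let U : ℕ → Module.End ℂ B := fun i => Nat.casesOn i T₀ T
    have hU : ∀ i, U i ∈ mulAlg B := by
      intro i
      cases i with
      | zero => exact hT1
      | succ i => exact hT i
    have hclos : ∀ m, T₀ (r * s₀) ∈ closure (prodE U m '' (sep δ : Set B)) := by
      intro m
      cases m with
      | zero =>
        apply subset_closure
        exact ⟨_, mulAlg_twoSided (sep δ) (sep_twoSided δ hδ) T₀ hT1 _ hs3, rfl⟩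
      | succ m =>
        rw [prodE_shift]
        refine hT3 (prodE (fun l => U (l + 1)) m) (prodE_mem _ (fun i => hT i) m) ?_ _ hs3
        exact prodE_psi δ hδ φ T hT hT' m
    have hne : ∀ k, (T₀ (r * s₀)) ^ k ≠ 0 := by
      intro k h0
      have h1 := congrArg (Psi δ hδ φ) h0
      rw [map_pow, map_zero] at h1
      exact pow_ne_zero k hw h1
    obtain ⟨u, hu1, hu2, hu3⟩ := core_ml_nonnil δ hδ U hU _ hclos hne ε hε
    have e0 : u 0 = T₀ (u 1) := (hu1 0).2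
    refine ⟨fun j => u (j + 1), fun j => (hu1 (j + 1)).1, fun j => (hu1 (j + 1)).2, ?_, ?_⟩
    · rw [← e0]
      exact hu2
    · rw [← e0]
      exact hu3
  · intro T hT hT'
    obtain ⟨k, hk⟩ := core_chain δ hδ T hT
    have hP := prodE_mem T hT k
    have hw : Psi δ hδ φ (prodE T k (r * s₀)) ≠ 0 := by
      rw [mulAlg_psi δ hδ φ _ hP]
      exact mul_ne_zero (prodE_psi δ hδ φ T hT hT' k) hs5
    refine ⟨prodE T k (r * s₀), mulAlg_twoSided (jac B) jac_twoSided _ hP _ hs4, hw, ?_⟩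
    intro ε hε
    have hne : ∀ j, (prodE T k (r * s₀)) ^ j ≠ 0 := by
      intro j h0
      have h1 := congrArg (Psi δ hδ φ) h0
      rw [map_pow, map_zero] at h1
      exact pow_ne_zero j hw h1
    obtain ⟨u, hu1, hu2, hu3⟩ := core_ml_nonnil δ hδ T hT _ (hk _ hs3) hne ε hε
    exact ⟨u, fun j => (hu1 j).1, fun j => (hu1 j).2, hu2, hu3⟩

end Unital

end Pool.Agent.SW
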