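import Mathlib
import Pool.Agent.SW.Unital

/-!
Project SW: the structure theorem for Banach algebras without unit.
-/

set_option autoImplicit false

namespace Pool.Agent.SW

section Transfer

variable {A : Type*} [NonUnitalNormedRing A] [NormedSpace ℂ A] [IsScalarTower ℂ A A]
  [SMulCommClass ℂ A A]

/-- The embedding of `A` into its unitization with the `ℓ¹` norm. -/
noncomputable def iota : A →ₗ[ℂ] WithLp 1 (Unitization ℂ A) :=
  (WithLp.linearEquiv 1 ℂ (Unitization ℂ A)).symm.toLinearMap ∘ₗ Unitization.inrHom ℂ ℂ A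

/-- The projection of the unitization onto `A`. -/
noncomputable def pr : WithLp 1 (Unitization ℂ A) →ₗ[ℂ] A where
  toFun b := (WithLp.ofLp b).snd
  map_add' _ _ := rfl
  map_smul' _ _ := rfl

/-- The augmentation of the unitization. -/
noncomputable def aug : WithLp 1 (Unitization ℂ A) →ₐ[ℂ] ℂ :=
  (Unitization.fstHom ℂ A).comp (WithLp.unitizationAlgEquiv (𝕜 := ℂ) (A := A) ℂ).toAlgHom

theorem iota_apply (a : A) : iota a = WithLp.toLp 1 (Unitization.inr a : Unitization ℂ A) := rfl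

theorem pr_iota (a : A) : pr (iota a) = a := rfl

theorem aug_iota (a : A) : aug (iota a) = 0 := rfl

theorem norm_iota (a : A) : ‖iota a‖ = ‖a‖ := WithLp.unitization_norm_inr a

theorem iota_mul (a b : A) : iota (a * b) = iota a * iota b := by
  apply (WithLp.equiv 1 (Unitization ℂ A)).injective
  show (Unitization.inr (a * b) : Unitization ℂ A) = Unitization.inr a * Unitization.inr b
  exact Unitization.inr_mul ℂ a b

theorem decomp (b : WithLp 1 (Unitization ℂ A)) : b = aug b • (1 : WithLp 1 (Unitization ℂ A)) + iota (pr b) := by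
  apply (WithLp.equiv 1 (Unitization ℂ A)).injective
  show WithLp.ofLp b = (WithLp.ofLp b).fst • (1 : Unitization ℂ A) + Unitization.inr (WithLp.ofLp b).snd
  ext
  · simp
  · simp

theorem iota_injective : Function.Injective (iota : A →ₗ[ℂ] WithLp 1 (Unitization ℂ A)) :=
  Function.LeftInverse.injective pr_iota

theorem norm_pr_le (b : WithLp 1 (Unitization ℂ A)) : ‖pr b‖ ≤ ‖b‖ := by
  rw [WithLp.unitization_norm_def]
  show ‖(WithLp.ofLp b).snd‖ ≤ _
  have := norm_nonneg (WithLp.ofLp b).fst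
  linarith


theorem pr_mul (b c : WithLp 1 (Unitization ℂ A)) :
    pr (b * c) = aug b • pr c + aug c • pr b + pr b * pr c := rfl

/-- The extension of a linear map to the unitization, zero on the unit. -/
noncomputable def ext (δ : A →ₗ[ℂ] A) :
    WithLp 1 (Unitization ℂ A) →ₗ[ℂ] WithLp 1 (Unitization ℂ A) :=
  iota ∘ₗ δ ∘ₗ pr

theorem ext_apply (δ : A →ₗ[ℂ] A) (b : WithLp 1 (Unitization ℂ A)) :
    ext δ b = iota (δ (pr b)) := rfl

theorem iota_mul_right (a : A) (c : WithLp 1 (Unitization ℂ A)) :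
    iota a * c = iota (aug c • a + a * pr c) := by
  conv_lhs => rw [decomp c]
  rw [mul_add, mul_smul_comm, mul_one, ← iota_mul, map_add, map_smul]

theorem iota_mul_left (a : A) (c : WithLp 1 (Unitization ℂ A)) :
    c * iota a = iota (aug c • a + pr c * a) := by
  conv_lhs => rw [decomp c]
  rw [add_mul, smul_mul_assoc, one_mul, ← iota_mul, map_add, map_smul]

theorem ext_isDer (δ : A →ₗ[ℂ] A) (hδ : ∀ x y : A, δ (x * y) = δ x * y + x * δ y) :
    IsDer (ext δ) := by
  intro b c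
  rw [ext_apply, ext_apply, ext_apply, pr_mul, iota_mul_right, iota_mul_left, ← map_add]
  congr 1
  rw [map_add, map_add, map_smul, map_smul, hδ]
  abel

/-- `x` lies in the Jacobson radical of `A`. -/
def InRad (x : A) : Prop :=
  (Unitization.inr x : Unitization ℂ A) ∈ (⊥ : Ideal (Unitization ℂ A)).jacobson

theorem inRad_iff (x : A) :
    InRad x ↔ iota x ∈ (⊥ : Ideal (WithLp 1 (Unitization ℂ A))).jacobson := by
  unfold InRad
  rw [Ideal.mem_jacobson_iff, Ideal.mem_jacobson_iff]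
  constructor
  · intro h y
    obtain ⟨z, hz⟩ := h (WithLp.ofLp y)
    refine ⟨WithLp.toLp 1 z, ?_⟩
    rw [Ideal.mem_bot] at hz ⊢
    apply (WithLp.unitizationAlgEquiv (𝕜 := ℂ) (A := A) ℂ).injective
    exact hz
  · intro h y
    obtain ⟨z, hz⟩ := h (WithLp.toLp 1 y)
    refine ⟨WithLp.ofLp z, ?_⟩
    rw [Ideal.mem_bot] at hz ⊢
    exact congrArg (WithLp.unitizationAlgEquiv (𝕜 := ℂ) (A := A) ℂ) hz

theorem ext_central (δ : A →ₗ[ℂ] A)
    (hc : ∀ x y : A, InRad ((x * δ x - δ x * x) * y - y * (x * δ x - δ x * x)))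
    (b c : WithLp 1 (Unitization ℂ A)) :
    (b * ext δ b - ext δ b * b) * c - c * (b * ext δ b - ext δ b * b) ∈
      (⊥ : Ideal (WithLp 1 (Unitization ℂ A))).jacobson := by
  have h := (inRad_iff _).mp (hc (pr b) (pr c))
  have e : (b * ext δ b - ext δ b * b) = iota (pr b * δ (pr b) - δ (pr b) * pr b) := by
    rw [ext_apply, iota_mul_right, iota_mul_left, ← map_sub]
    congr 1
    abel
  rw [e, iota_mul_right, iota_mul_left, ← map_sub]
  convert h using 2
  abel


/-- Closed two-sided ideals of a Banach algebra without unit. -/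
def ClosedIdeal (Q : Submodule ℂ A) : Prop :=
  IsClosed (Q : Set A) ∧ ∀ a x : A, x ∈ Q → a * x ∈ Q ∧ x * a ∈ Q

/-- `npowr x k = x ^ (k + 1)`. -/
def npowr {A : Type*} [NonUnitalNormedRing A] (x : A) : ℕ → A
  | 0 => x
  | k + 1 => x * npowr x k

theorem iota_npowr (x : A) (k : ℕ) : iota (npowr x k) = (iota x) ^ (k + 1) := by
  induction k with
  | zero => simp [npowr]
  | succ k ih => rw [npowr, iota_mul, ih, ← pow_succ']

theorem pr_iota_of_jac (q : WithLp 1 (Unitization ℂ A))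
    (hq : aug q = 0) : iota (pr q) = q := by
  have h := decomp q
  rw [hq, zero_smul, zero_add] at h
  exact h.symm


/-- The multiplication algebra of a Banach algebra without unit: the unital algebra of operators
generated by the left and the right multiplications. -/
def opAlg (A : Type*) [NonUnitalNormedRing A] [NormedSpace ℂ A] : Subalgebra ℂ (Module.End ℂ A) :=
  Algebra.adjoin ℂ ({T | ∃ a : A, ∀ x, T x = a * x} ∪ {T | ∃ a : A, ∀ x, T x = x * a})

theorem opAlg_lift (T : Module.End ℂ A) (hT : T ∈ opAlg A) :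
    ∃ T' ∈ mulAlg (WithLp 1 (Unitization ℂ A)), ∀ a, T' (iota a) = iota (T a) := by
  unfold opAlg at hT
  induction hT using Algebra.adjoin_induction with
  | mem T h =>
    rcases h with ⟨a, ha⟩ | ⟨a, ha⟩
    · refine ⟨_, mulLeft_mem (iota a), fun x => ?_⟩
      rw [ha, iota_mul]
      rfl
    · refine ⟨_, mulRight_mem (iota a), fun x => ?_⟩
      rw [ha, iota_mul]
      rfl
  | algebraMap c =>
    refine ⟨algebraMap ℂ _ c, Subalgebra.algebraMap_mem _ c, fun x => ?_⟩
    rw [Module.algebraMap_end_apply, Module.algebraMap_end_apply, map_smul]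
  | add T U _ _ ihT ihU =>
    obtain ⟨T', hT', hT⟩ := ihT
    obtain ⟨U', hU', hU⟩ := ihU
    refine ⟨T' + U', Subalgebra.add_mem _ hT' hU', fun x => ?_⟩
    rw [LinearMap.add_apply, LinearMap.add_apply, hT, hU, map_add]
  | mul T U _ _ ihT ihU =>
    obtain ⟨T', hT', hT⟩ := ihT
    obtain ⟨U', hU', hU⟩ := ihU
    refine ⟨T' * U', Subalgebra.mul_mem _ hT' hU', fun x => ?_⟩
    rw [Module.End.mul_apply, Module.End.mul_apply, hU, hT]

theorem opAlg_restrict (T' : Module.End ℂ (WithLp 1 (Unitization ℂ A)))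
    (hT' : T' ∈ mulAlg (WithLp 1 (Unitization ℂ A))) :
    ∃ T ∈ opAlg A, ∀ a, T' (iota a) = iota (T a) := by
  unfold mulAlg at hT'
  induction hT' using Algebra.adjoin_induction with
  | mem T h =>
    rcases h with ⟨b, rfl⟩ | ⟨b, rfl⟩
    · refine ⟨algebraMap ℂ _ (aug b) + LinearMap.mulLeft ℂ (pr b), ?_, fun x => ?_⟩
      · exact Subalgebra.add_mem _ (Subalgebra.algebraMap_mem _ _)
          (Algebra.subset_adjoin (Or.inl ⟨pr b, fun _ => rfl⟩))
      · rw [LinearMap.mulLeft_apply, iota_mul_left, LinearMap.add_apply,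
          Module.algebraMap_end_apply, LinearMap.mulLeft_apply]
    · refine ⟨algebraMap ℂ _ (aug b) + LinearMap.mulRight ℂ (pr b), ?_, fun x => ?_⟩
      · exact Subalgebra.add_mem _ (Subalgebra.algebraMap_mem _ _)
          (Algebra.subset_adjoin (Or.inr ⟨pr b, fun _ => rfl⟩))
      · rw [LinearMap.mulRight_apply, iota_mul_right, LinearMap.add_apply,
          Module.algebraMap_end_apply, LinearMap.mulRight_apply]
  | algebraMap c =>
    refine ⟨algebraMap ℂ _ c, Subalgebra.algebraMap_mem _ c, fun x => ?_⟩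
    rw [Module.algebraMap_end_apply, Module.algebraMap_end_apply, map_smul]
  | add T U _ _ ihT ihU =>
    obtain ⟨T', hT', hT⟩ := ihT
    obtain ⟨U', hU', hU⟩ := ihU
    refine ⟨T' + U', Subalgebra.add_mem _ hT' hU', fun x => ?_⟩
    rw [LinearMap.add_apply, LinearMap.add_apply, hT, hU, map_add]
  | mul T U _ _ ihT ihU =>
    obtain ⟨T', hT', hT⟩ := ihT
    obtain ⟨U', hU', hU⟩ := ihU
    refine ⟨T' * U', Subalgebra.mul_mem _ hT' hU', fun x => ?_⟩
    rw [Module.End.mul_apply, Module.End.mul_apply, hU, hT]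

theorem prodE_iota (T : ℕ → Module.End ℂ A)
    (T' : ℕ → Module.End ℂ (WithLp 1 (Unitization ℂ A)))
    (h : ∀ i a, T' i (iota a) = iota (T i a)) (m : ℕ) (a : A) :
    prodE T' m (iota a) = iota (prodE T m a) := by
  induction m generalizing a with
  | zero => rfl
  | succ m ih =>
    show prodE T' m (T' m (iota a)) = iota (prodE T m (T m a))
    rw [h, ih]

theorem continuous_pr : Continuous (pr : WithLp 1 (Unitization ℂ A) →ₗ[ℂ] A) :=
  AddMonoidHomClass.continuous_of_bound pr 1 (fun x => by rw [one_mul]; exact norm_pr_le x)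

theorem continuous_iota : Continuous (iota : A →ₗ[ℂ] WithLp 1 (Unitization ℂ A)) :=
  AddMonoidHomClass.continuous_of_bound iota 1 (fun x => by rw [one_mul]; exact (norm_iota x).le)

/-- The separating space of the extension consists of elements of `A`. -/
theorem sep_ext (δ : A →ₗ[ℂ] A) (y : WithLp 1 (Unitization ℂ A)) (hy : y ∈ sep (ext δ)) :
    iota (pr y) = y := by
  have hy' : ((0 : WithLp 1 (Unitization ℂ A)), y) ∈ closure ((ext δ).graph : Set _) := hy
  have hcl : IsClosed {p : WithLp 1 (Unitization ℂ A) × WithLp 1 (Unitization ℂ A) |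
      iota (pr p.2) = p.2} :=
    isClosed_eq (continuous_iota.comp (continuous_pr.comp continuous_snd)) continuous_snd
  have hsub : ((ext δ).graph : Set (WithLp 1 (Unitization ℂ A) × WithLp 1 (Unitization ℂ A))) ⊆
      {p | iota (pr p.2) = p.2} := by
    rintro ⟨u, v⟩ huv
    have hv : v = ext δ u := huv
    show iota (pr v) = v
    rw [hv, ext_apply, pr_iota]
  exact hcl.closure_subset_iff.mpr hsub hy'

/-- Structure theorem, internal version. -/
theorem structure_aux [CompleteSpace A] (δ : A →ₗ[ℂ] A)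
    (hδ : ∀ x y : A, δ (x * y) = δ x * y + x * δ y)
    (hc : ∀ x y : A, InRad ((x * δ x - δ x * x) * y - y * (x * δ x - δ x * x)))
    (h : ∃ x, ¬ InRad (δ x)) :
    ∃ (Ψ : A →ₙₐ[ℂ] PowerSeries ℂ) (χ : A →L[ℂ] ℂ),
      (∀ a, InRad a → χ a = 0) ∧
      (∀ a n, PowerSeries.coeff n (Ψ a) = χ ((δ ^ n) a) / (n.factorial : ℂ)) ∧
      Function.Surjective Ψ ∧
      (∃ n₀ : ℕ, 1 ≤ n₀ ∧
        (∀ j < n₀, Continuous (fun a => PowerSeries.coeff j (Ψ a))) ∧
        ∀ F : PowerSeries ℂ, (∀ j < n₀, PowerSeries.coeff j F = 0) → ∀ ε > 0,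
          ∃ a : A, ‖a‖ < ε ∧ Ψ a = F) ∧
      (∃ Q : Submodule ℂ A, ClosedIdeal Q ∧ (∀ x ∈ Q, InRad x) ∧ (∃ x ∈ Q, Ψ x ≠ 0) ∧
        ∀ J : Submodule ℂ A, ClosedIdeal J → (∃ x ∈ J, Ψ x ≠ 0) → Q ≤ J) ∧
      (∃ T₀ ∈ opAlg A, ∃ w, InRad w ∧ Ψ w ≠ 0 ∧
        ∀ T : ℕ → Module.End ℂ A, (∀ i, T i ∈ opAlg A) → (∀ i, ∃ x, Ψ (T i x) ≠ 0) →
          ∀ ε > 0, ∃ u : ℕ → A, (∀ j, u j = T j (u (j + 1))) ∧ ‖T₀ (u 0) - w‖ < ε ∧
            ∀ k, npowr (T₀ (u 0)) k ≠ 0) ∧
      ∀ T : ℕ → Module.End ℂ A, (∀ i, T i ∈ opAlg A) → (∀ i, ∃ x, Ψ (T i x) ≠ 0) →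
        ∃ w, InRad w ∧ Ψ w ≠ 0 ∧
          ∀ ε > 0, ∃ u : ℕ → A, (∀ j, u j = T j (u (j + 1))) ∧ ‖u 0 - w‖ < ε ∧
            ∀ k, npowr (u 0) k ≠ 0 := by
  obtain ⟨x₀, hx₀⟩ := h
  obtain ⟨φ, ⟨b₀, hb₀⟩, hsurj, ⟨n₀, hn1, hn2, hn3⟩, ⟨Q, hQ1, hQ2, hQ3, hQ4, hQ5⟩,
      ⟨T₀', hT₀', w', hw1, hw2, hw3⟩, hchain⟩ :=
    unital_structure (ext δ) (ext_isDer δ hδ) (ext_central δ hc)
      ⟨iota x₀, by rw [ext_apply, pr_iota]; exact fun h' => hx₀ ((inRad_iff _).mpr h')⟩
  have hD : IsDer (ext δ) := ext_isDer δ hδ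
  have hpow : ∀ (n : ℕ) (a : A), ((ext δ) ^ n) (iota a) = iota ((δ ^ n) a) := by
    intro n a
    induction n with
    | zero => rfl
    | succ n ih =>
      rw [pow_succ', pow_succ', Module.End.mul_apply, Module.End.mul_apply, ih, ext_apply, pr_iota]
  let Ψ : A →ₙₐ[ℂ] PowerSeries ℂ :=
    { toFun := fun a => Psi (ext δ) hD φ (iota a)
      map_smul' := fun c a => by simp
      map_zero' := by simp
      map_add' := fun a b => by simp
      map_mul' := fun a b => by rw [iota_mul, map_mul] }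
  have hΨ : ∀ a, Ψ a = Psi (ext δ) hD φ (iota a) := fun _ => rfl
  let χ : A →L[ℂ] ℂ := LinearMap.mkContinuous (φ.toLinearMap ∘ₗ iota)
    ‖φ.toContinuousLinearMap‖ (by
      intro a
      have := φ.toContinuousLinearMap.le_opNorm (iota a)
      rw [norm_iota] at this
      exact this)
  have hχ : ∀ a, χ a = φ (iota a) := fun _ => rfl
  have hcoeff : ∀ a n, PowerSeries.coeff n (Ψ a) = χ ((δ ^ n) a) / (n.factorial : ℂ) := by
    intro a n
    rw [hΨ, coeff_Psi, hpow, hχ]
  have hjac : ∀ q : WithLp 1 (Unitization ℂ A),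
      q ∈ (⊥ : Ideal (WithLp 1 (Unitization ℂ A))).jacobson → iota (pr q) = q :=
    fun q hq => pr_iota_of_jac q (char_jac aug q hq)
  -- an element of `A` with invertible image
  let u : A := δ (pr b₀)
  have hu : PowerSeries.constantCoeff (Psi (ext δ) hD φ (iota u)) ≠ 0 := by
    rw [← PowerSeries.coeff_zero_eq_constantCoeff_apply, coeff_Psi]
    simpa [u, ext_apply] using hb₀
  have hunit : IsUnit (Psi (ext δ) hD φ (iota u)) := by
    rw [PowerSeries.isUnit_iff_constantCoeff]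
    exact isUnit_iff_ne_zero.mpr hu
  obtain ⟨v, hv⟩ := hunit.exists_right_inv
  -- non-vanishing of symbols
  have hsymb : ∀ (T : Module.End ℂ A) (T' : Module.End ℂ (WithLp 1 (Unitization ℂ A))),
      T' ∈ mulAlg (WithLp 1 (Unitization ℂ A)) → (∀ a, T' (iota a) = iota (T a)) →
      (∃ x, Ψ (T x) ≠ 0) → Psi (ext δ) hD φ (T' 1) ≠ 0 := by
    rintro T T' hT' hTT' ⟨x, hx⟩ h0
    apply hx
    rw [hΨ, ← hTT', mulAlg_psi (ext δ) hD φ T' hT', h0, zero_mul]
  have hnpow : ∀ x : A, (∀ k, (iota x) ^ k ≠ 0) → ∀ k, npowr x k ≠ 0 := by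
    intro x hx k h0
    apply hx (k + 1)
    rw [← iota_npowr, h0, map_zero]
  refine ⟨Ψ, χ, ?_, hcoeff, ?_, ⟨n₀, hn1, ?_, ?_⟩, ⟨Q.comap iota, ⟨?_, ?_⟩, ?_, ?_, ?_⟩, ?_, ?_⟩
  · intro a ha
    rw [hχ]
    exact char_jac φ _ ((inRad_iff a).mp ha)
  · -- surjectivity
    intro F
    obtain ⟨c, hc'⟩ := hsurj (v * F)
    refine ⟨aug c • u + u * pr c, ?_⟩
    rw [hΨ, ← iota_mul_right, map_mul, hc', ← mul_assoc, hv, one_mul]
  · -- continuity in low degrees
    intro j hj
    exact (hn2 j hj).comp continuous_iota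
  · -- small preimages
    intro F hF ε hε
    have hF' : ∀ j < n₀, PowerSeries.coeff j (v * F) = 0 := by
      intro j hj
      rw [PowerSeries.coeff_mul]
      refine Finset.sum_eq_zero ?_
      rintro ⟨p, q⟩ hpq
      have hpq' := Finset.HasAntidiagonal.mem_antidiagonal.1 hpq
      have hq : q < n₀ := by
        have : p + q = j := hpq'
        omega
      show PowerSeries.coeff p v * PowerSeries.coeff q F = 0
      rw [hF q hq, mul_zero]
    obtain ⟨c, hc1, hc2⟩ := hn3 (v * F) hF' (ε / (1 + ‖u‖)) (by positivity)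
    refine ⟨aug c • u + u * pr c, ?_, ?_⟩
    · rw [← norm_iota, ← iota_mul_right]
      calc ‖iota u * c‖ ≤ ‖iota u‖ * ‖c‖ := norm_mul_le _ _
        _ = ‖u‖ * ‖c‖ := by rw [norm_iota]
        _ ≤ (1 + ‖u‖) * ‖c‖ := by
          have := norm_nonneg c
          nlinarith
        _ < (1 + ‖u‖) * (ε / (1 + ‖u‖)) := by
          apply mul_lt_mul_of_pos_left hc1
          positivity
        _ = ε := by
          rw [mul_div_cancel₀]
          positivity
    · rw [hΨ, ← iota_mul_right, map_mul, hc2, ← mul_assoc, hv, one_mul]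
  · exact hQ1.preimage continuous_iota
  · intro a x hx
    rw [Submodule.mem_comap] at hx
    refine ⟨?_, ?_⟩
    · rw [Submodule.mem_comap, iota_mul]
      exact (hQ2 _ _ hx).1
    · rw [Submodule.mem_comap, iota_mul]
      exact (hQ2 _ _ hx).2
  · intro x hx
    rw [inRad_iff]
    exact hQ3 _ hx
  · obtain ⟨q, hq1, hq2⟩ := hQ4
    have hq3 := hjac q (hQ3 q hq1)
    refine ⟨pr q, ?_, ?_⟩
    · rw [Submodule.mem_comap, hq3]
      exact hq1
    · rw [hΨ, hq3]
      exact hq2
  · rintro J ⟨hJ1, hJ2⟩ ⟨x, hx1, hx2⟩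
    have hle : Q ≤ J.map iota := by
      refine hQ5 (J.map iota) ?_ ?_ ⟨iota x, Submodule.mem_map_of_mem hx1, hx2⟩
      · have hiso : Isometry (iota : A →ₗ[ℂ] WithLp 1 (Unitization ℂ A)) :=
          AddMonoidHomClass.isometry_of_norm _ norm_iota
        rw [Submodule.map_coe]
        exact hiso.isClosedEmbedding.isClosedMap _ hJ1
      · rintro b _ ⟨y, hy, rfl⟩
        refine ⟨?_, ?_⟩
        · rw [iota_mul_left]
          exact Submodule.mem_map_of_mem (J.add_mem (J.smul_mem _ hy) (hJ2 _ _ hy).1)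
        · rw [iota_mul_right]
          exact Submodule.mem_map_of_mem (J.add_mem (J.smul_mem _ hy) (hJ2 _ _ hy).2)
    intro y hy
    obtain ⟨z, hz1, hz2⟩ := hle hy
    rwa [← iota_injective hz2]
  · -- the terminal operator
    obtain ⟨T₀, hT₀, hT₀2⟩ := opAlg_restrict T₀' hT₀'
    have hw4 : iota (pr w') = w' := hjac w' hw1
    refine ⟨T₀, hT₀, pr w', ?_, ?_, ?_⟩
    · rw [inRad_iff, hw4]
      exact hw1
    · rw [hΨ, hw4]
      exact hw2
    · intro T hT hTx ε hε
      choose T' hT' hTT' using fun i => opAlg_lift (T i) (hT i)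
      obtain ⟨u, hu1, hu2, hu3, hu4⟩ := hw3 T' hT'
        (fun i => hsymb (T i) (T' i) (hT' i) (hTT' i) (hTx i)) ε hε
      have hui : ∀ j, iota (pr (u j)) = u j := fun j => sep_ext δ (u j) (hu1 j)
      have hT0u : T₀' (u 0) = iota (T₀ (pr (u 0))) := by
        conv_lhs => rw [← hui 0]
        exact hT₀2 _
      refine ⟨fun j => pr (u j), fun j => ?_, ?_, ?_⟩
      · show pr (u j) = T j (pr (u (j + 1)))
        apply iota_injective
        rw [hui j, ← hTT', hui (j + 1)]
        exact hu2 j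
      · rw [← norm_iota, map_sub, hw4, ← hT0u]
        exact hu3
      · refine hnpow _ fun k => ?_
        rw [← hT0u]
        exact hu4 k
  · -- chains
    intro T hT hTx
    choose T' hT' hTT' using fun i => opAlg_lift (T i) (hT i)
    obtain ⟨w, hw1, hw2, hw3⟩ := hchain T' hT'
      (fun i => hsymb (T i) (T' i) (hT' i) (hTT' i) (hTx i))
    have hw4 : iota (pr w) = w := hjac w hw1
    refine ⟨pr w, ?_, ?_, fun ε hε => ?_⟩
    · rw [inRad_iff, hw4]
      exact hw1
    · rw [hΨ, hw4]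
      exact hw2
    · obtain ⟨u, hu1, hu2, hu3, hu4⟩ := hw3 ε hε
      have hui : ∀ j, iota (pr (u j)) = u j := fun j => sep_ext δ (u j) (hu1 j)
      refine ⟨fun j => pr (u j), fun j => ?_, ?_, ?_⟩
      · show pr (u j) = T j (pr (u (j + 1)))
        apply iota_injective
        rw [hui j, ← hTT', hui (j + 1)]
        exact hu2 j
      · rw [← norm_iota, map_sub, hw4, hui 0]
        exact hu3
      · refine hnpow _ fun k => ?_
        rw [hui 0]
        exact hu4 k

end Transfer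

end Pool.Agent.SW
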