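import Mathlib
import Pool.Agent.SW.Nonunital

/-!
Project SW: the dense factoring ideal of the smallest closed ideal.
-/

set_option autoImplicit false

namespace Pool.Agent.SW

section Full

variable {A : Type*} [NonUnitalNormedRing A] [NormedSpace ℂ A] [IsScalarTower ℂ A A]
  [SMulCommClass ℂ A A]

/-- Two-sided ideals (not assumed closed). -/
def IdealSub (X : Submodule ℂ A) : Prop :=
  ∀ a x : A, x ∈ X → a * x ∈ X ∧ x * a ∈ X

/-- The span of the products `q x q'` with `q, q'` in `Q` and `x` in `X`. -/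
def sandwich (Q X : Submodule ℂ A) : Submodule ℂ A :=
  Submodule.span ℂ {z | ∃ q ∈ Q, ∃ x ∈ X, ∃ q' ∈ Q, z = q * x * q'}

theorem sandwich_mono (Q : Submodule ℂ A) {X Y : Submodule ℂ A} (h : X ≤ Y) :
    sandwich Q X ≤ sandwich Q Y := by
  refine Submodule.span_mono ?_
  rintro z ⟨q, hq, x, hx, q', hq', rfl⟩
  exact ⟨q, hq, x, h hx, q', hq', rfl⟩

theorem sandwich_left (Q X : Submodule ℂ A) (hQ : IdealSub Q) (a z : A) (hz : z ∈ sandwich Q X) :
    a * z ∈ sandwich Q X := by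
  unfold sandwich at hz
  induction hz using Submodule.span_induction with
  | mem w hw =>
    obtain ⟨q, hq, x, hx, q', hq', rfl⟩ := hw
    refine Submodule.subset_span ⟨a * q, (hQ a q hq).1, x, hx, q', hq', ?_⟩
    simp only [mul_assoc]
  | zero => simp
  | add u v _ _ ihu ihv =>
    rw [mul_add]
    exact Submodule.add_mem _ ihu ihv
  | smul c u _ ihu =>
    rw [mul_smul_comm]
    exact Submodule.smul_mem _ c ihu

theorem sandwich_right (Q X : Submodule ℂ A) (hQ : IdealSub Q) (a z : A)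
    (hz : z ∈ sandwich Q X) : z * a ∈ sandwich Q X := by
  unfold sandwich at hz
  induction hz using Submodule.span_induction with
  | mem w hw =>
    obtain ⟨q, hq, x, hx, q', hq', rfl⟩ := hw
    refine Submodule.subset_span ⟨q, hq, x, hx, q' * a, (hQ a q' hq').2, ?_⟩
    simp only [mul_assoc]
  | zero => simp
  | add u v _ _ ihu ihv =>
    rw [add_mul]
    exact Submodule.add_mem _ ihu ihv
  | smul c u _ ihu =>
    rw [smul_mul_assoc]
    exact Submodule.smul_mem _ c ihu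

/-- The largest subspace `X` of `Q` with `X = Q X Q`. -/
def factoring (Q : Submodule ℂ A) : Submodule ℂ A :=
  sSup {Y : Submodule ℂ A | Y ≤ Q ∧ Y ≤ sandwich Q Y}

theorem factoring_le (Q : Submodule ℂ A) : factoring Q ≤ Q :=
  sSup_le fun _ hY => hY.1

theorem factoring_sandwich (Q : Submodule ℂ A) : factoring Q ≤ sandwich Q (factoring Q) :=
  sSup_le fun _ hY => hY.2.trans (sandwich_mono Q (le_sSup hY))

theorem le_factoring (Q Y : Submodule ℂ A) (h1 : Y ≤ Q) (h2 : Y ≤ sandwich Q Y) :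
    Y ≤ factoring Q := le_sSup ⟨h1, h2⟩

theorem factoring_ideal (Q : Submodule ℂ A) (hQ : IdealSub Q) : IdealSub (factoring Q) := by
  -- left and right multiples of `factoring Q`
  have key : ∀ Y : Submodule ℂ A, factoring Q ≤ Y → Y ≤ sandwich Q (factoring Q) → Y ≤ Q →
      Y ≤ factoring Q := fun Y h1 h2 h3 => le_factoring Q Y h3 (h2.trans (sandwich_mono Q h1))
  have hsQ : sandwich Q (factoring Q) ≤ Q := by
    refine Submodule.span_le.mpr ?_
    rintro z ⟨q, hq, x, hx, q', hq', rfl⟩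
    exact (hQ (q * x) q' hq').1
  intro a x hx
  have hx1 := factoring_sandwich Q hx
  have hall : sandwich Q (factoring Q) ≤ factoring Q :=
    key _ (factoring_sandwich Q) le_rfl hsQ
  exact ⟨hall (sandwich_left Q _ hQ a x hx1), hall (sandwich_right Q _ hQ a x hx1)⟩

/-- A homomorphism to power series which kills the constant terms on `Q` kills `factoring Q`. -/
theorem factoring_kernel (Ψ : A →ₙₐ[ℂ] PowerSeries ℂ) (Q X : Submodule ℂ A)
    (h0 : ∀ q ∈ Q, PowerSeries.coeff 0 (Ψ q) = 0) (hX : X ≤ sandwich Q X) (x : A) (hx : x ∈ X) :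
    Ψ x = 0 := by
  have hdvd : ∀ q ∈ Q, (PowerSeries.X : PowerSeries ℂ) ∣ Ψ q := by
    intro q hq
    rw [PowerSeries.X_dvd_iff, ← PowerSeries.coeff_zero_eq_constantCoeff_apply]
    exact h0 q hq
  have hpow : ∀ m : ℕ, ∀ x ∈ X, (PowerSeries.X : PowerSeries ℂ) ^ m ∣ Ψ x := by
    intro m
    induction m with
    | zero => intro x _; simp
    | succ m ih =>
      intro x hx
      have hx' := hX hx
      unfold sandwich at hx'
      clear hx
      induction hx' using Submodule.span_induction with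
      | mem w hw =>
        obtain ⟨q, hq, y, hy, q', hq', rfl⟩ := hw
        rw [map_mul, map_mul, pow_succ']
        exact Dvd.dvd.mul_right (mul_dvd_mul (hdvd q hq) (ih y hy)) _
      | zero => rw [map_zero]; exact dvd_zero _
      | add a b _ _ iha ihb =>
        rw [map_add]
        exact dvd_add iha ihb
      | smul c a _ iha =>
        rw [map_smul, PowerSeries.smul_eq_C_mul]
        exact iha.mul_left _
  ext n
  rw [map_zero]
  exact (PowerSeries.X_pow_dvd_iff.mp (hpow (n + 1) x hx)) n (Nat.lt_succ_self n)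

theorem closedIdeal_closure (P : Submodule ℂ A) (hP : IdealSub P) :
    ClosedIdeal P.topologicalClosure := by
  refine ⟨P.isClosed_topologicalClosure, ?_⟩
  intro a x hx
  have hx' : x ∈ closure (P : Set A) := hx
  refine ⟨?_, ?_⟩
  · have hcont : Continuous (fun y : A => a * y) := continuous_const.mul continuous_id
    exact map_mem_closure hcont hx' (fun y hy => (hP a y hy).1)
  · have hcont : Continuous (fun y : A => y * a) := continuous_id.mul continuous_const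
    exact map_mem_closure (f := fun y : A => y * a) hcont hx' (fun y hy => (hP a y hy).2)

/-- The operator `x ↦ q x q`. -/
def conj (q : A) : Module.End ℂ A := LinearMap.mulLeft ℂ q * LinearMap.mulRight ℂ q

theorem conj_apply (q x : A) : conj q x = q * (x * q) := rfl

theorem conj_mem (q : A) : conj q ∈ opAlg A :=
  Subalgebra.mul_mem _ (Algebra.subset_adjoin (Or.inl ⟨q, fun _ => rfl⟩))
    (Algebra.subset_adjoin (Or.inr ⟨q, fun _ => rfl⟩))

/-- The structure theorem with the dense factoring ideal. -/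
theorem structure_full [CompleteSpace A] (δ : A →ₗ[ℂ] A)
    (hδ : ∀ x y : A, δ (x * y) = δ x * y + x * δ y)
    (hc : ∀ x y : A, InRad ((x * δ x - δ x * x) * y - y * (x * δ x - δ x * x)))
    (h : ∃ x, ¬ InRad (δ x)) :
    ∃ (Ψ : A →ₙₐ[ℂ] PowerSeries ℂ) (χ : A →L[ℂ] ℂ),
      (∀ a, InRad a → χ a = 0) ∧
      (∀ a n, PowerSeries.coeff n (Ψ a) = χ ((δ ^ n) a) / (n.factorial : ℂ)) ∧
      Function.Surjective Ψ ∧
      (∃ n₀ : ℕ, 1 ≤ n₀ ∧
        (∀ j < n₀, Continuous (fun a => PowerSeries.coeff j (Ψ a))) ∧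
        ∀ F : PowerSeries ℂ, (∀ j < n₀, PowerSeries.coeff j F = 0) → ∀ ε > 0,
          ∃ a : A, ‖a‖ < ε ∧ Ψ a = F) ∧
      (∃ Q X : Submodule ℂ A, ClosedIdeal Q ∧ (∀ x ∈ Q, InRad x) ∧ (∃ x ∈ Q, Ψ x ≠ 0) ∧
        (∀ J : Submodule ℂ A, ClosedIdeal J → (∃ x ∈ J, Ψ x ≠ 0) → Q ≤ J) ∧
        IdealSub X ∧ X ≤ Q ∧ Q ≤ X.topologicalClosure ∧ X ≤ sandwich Q X ∧
        (∀ x ∈ X, Ψ x = 0) ∧ ∃ x ∈ X, ∀ k, npowr x k ≠ 0) ∧
      (∃ T₀ ∈ opAlg A, ∃ w, InRad w ∧ Ψ w ≠ 0 ∧
        ∀ T : ℕ → Module.End ℂ A, (∀ i, T i ∈ opAlg A) → (∀ i, ∃ x, Ψ (T i x) ≠ 0) →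
          ∀ ε > 0, ∃ u : ℕ → A, (∀ j, u j = T j (u (j + 1))) ∧ ‖T₀ (u 0) - w‖ < ε ∧
            ∀ k, npowr (T₀ (u 0)) k ≠ 0) ∧
      ∀ T : ℕ → Module.End ℂ A, (∀ i, T i ∈ opAlg A) → (∀ i, ∃ x, Ψ (T i x) ≠ 0) →
        ∃ w, InRad w ∧ Ψ w ≠ 0 ∧
          ∀ ε > 0, ∃ u : ℕ → A, (∀ j, u j = T j (u (j + 1))) ∧ ‖u 0 - w‖ < ε ∧
            ∀ k, npowr (u 0) k ≠ 0 := by
  obtain ⟨Ψ, χ, h1, h2, h3, h4, ⟨Q, hQ1, hQ2, ⟨q, hq1, hq2⟩, hQ4⟩, h6, h7⟩ :=
    structure_aux δ hδ hc h
  refine ⟨Ψ, χ, h1, h2, h3, h4, ⟨Q, factoring Q, hQ1, hQ2, ⟨q, hq1, hq2⟩, hQ4,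
    factoring_ideal Q hQ1.2, factoring_le Q, ?_, factoring_sandwich Q, ?_, ?_⟩, h6, h7⟩
  all_goals
    obtain ⟨w, -, hw2, hw3⟩ := h7 (fun _ => conj q) (fun _ => conj_mem q) (fun _ => ⟨q, by
      rw [conj_apply, map_mul, map_mul]
      exact mul_ne_zero hq2 (mul_ne_zero hq2 hq2)⟩)
    have hX : ∀ u : ℕ → A, (∀ j, u j = conj q (u (j + 1))) → u 0 ∈ factoring Q := by
      intro u hu
      have huQ : ∀ j, u j ∈ Q := by
        intro j
        rw [hu j, conj_apply]
        exact (hQ1.2 (u (j + 1) * q) q hq1).2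
      let Y : Submodule ℂ A := Submodule.span ℂ (Set.range u)
      have hY1 : Y ≤ Q := Submodule.span_le.mpr (by rintro _ ⟨j, rfl⟩; exact huQ j)
      have hY2 : Y ≤ sandwich Q Y := by
        refine Submodule.span_le.mpr ?_
        rintro _ ⟨j, rfl⟩
        refine Submodule.subset_span ⟨q, hq1, u (j + 1), Submodule.subset_span ⟨j + 1, rfl⟩, q,
          hq1, ?_⟩
        rw [hu j, conj_apply, mul_assoc]
      exact le_factoring Q Y hY1 hY2 (Submodule.subset_span ⟨0, rfl⟩)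
  · refine hQ4 _ (closedIdeal_closure _ (factoring_ideal Q hQ1.2)) ⟨w, ?_, hw2⟩
    show w ∈ closure (factoring Q : Set A)
    rw [Metric.mem_closure_iff]
    intro ε hε
    obtain ⟨u, hu1, hu2, -⟩ := hw3 ε hε
    exact ⟨u 0, hX u hu1, by rwa [dist_comm, dist_eq_norm]⟩
  · refine fun x hx => factoring_kernel Ψ Q (factoring Q) ?_ (factoring_sandwich Q) x hx
    intro y hy
    rw [h2, pow_zero, Module.End.one_apply, h1 y (hQ2 y hy), zero_div]
  · obtain ⟨u, hu1, -, hu3⟩ := hw3 1 one_pos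
    exact ⟨u 0, hX u hu1, hu3⟩

end Full

end Pool.Agent.SW
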