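import Mathlib
import Pool.Agent.SW.Full

/-!
Project SW: the separating space of the derivation contains the smallest closed ideal, and the
derivatives of the elements of the dense factoring ideal are jointly dense.
-/

set_option autoImplicit false

namespace Pool.Agent.SW

open Filter Topology

section SepDense

variable {X Y Z : Type*} [NormedAddCommGroup X] [NormedSpace ℂ X]
  [NormedAddCommGroup Y] [NormedSpace ℂ Y] [NormedAddCommGroup Z] [NormedSpace ℂ Z]

/-- The image of the separating space is dense in the separating space of the composition. -/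
theorem sep_comp_dense [CompleteSpace X] [CompleteSpace Y] (T : X →ₗ[ℂ] Y) (R : Y →L[ℂ] Z)
    (z : Z) (hz : z ∈ sep (R.toLinearMap ∘ₗ T)) : z ∈ closure (R '' (sep T : Set Y)) := by
  by_contra hcon
  obtain ⟨f, hf1, hf2⟩ := stability_functional ((sep T).map R.toLinearMap) z (by simpa using hcon)
  apply hf2
  have h1 : Continuous (fun x => (f.comp R) (T x)) :=
    continuous_comp_of_sep T _ (fun y hy => hf1 _ (Submodule.mem_map_of_mem hy))
  exact sep_of_continuous_comp (R.toLinearMap ∘ₗ T) f h1 z hz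

end SepDense

section DenseSec

variable {A : Type*} [NonUnitalNormedRing A] [NormedSpace ℂ A] [IsScalarTower ℂ A A]
  [SMulCommClass ℂ A A]

theorem ext_pow_iota (δ : A →ₗ[ℂ] A) (n : ℕ) (a : A) :
    ((ext δ) ^ n) (iota a) = iota ((δ ^ n) a) := by
  induction n with
  | zero => rfl
  | succ n ih =>
    rw [pow_succ', pow_succ', Module.End.mul_apply, Module.End.mul_apply, ih, ext_apply, pr_iota]

theorem leibniz (δ : A →ₗ[ℂ] A) (hδ : ∀ x y : A, δ (x * y) = δ x * y + x * δ y) (n : ℕ)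
    (x y : A) :
    (δ ^ n) (x * y) =
      ∑ i ∈ Finset.range (n + 1), (n.choose i : ℂ) • ((δ ^ i) x * (δ ^ (n - i)) y) := by
  apply iota_injective
  rw [← ext_pow_iota, iota_mul, iter_leibniz (ext δ) (ext_isDer δ hδ), map_sum]
  refine Finset.sum_congr rfl fun i _ => ?_
  rw [map_smul, iota_mul, ext_pow_iota, ext_pow_iota]

theorem sep_closedIdeal (δ : A →ₗ[ℂ] A) (hδ : ∀ x y : A, δ (x * y) = δ x * y + x * δ y) :
    ClosedIdeal (sep δ) := by
  refine ⟨sep_isClosed δ, ?_⟩
  intro a x hx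
  have hx' : ((0 : A), x) ∈ closure (δ.graph : Set (A × A)) := hx
  refine ⟨?_, ?_⟩
  · have hcont : Continuous (fun p : A × A => (a * p.1, δ a * p.1 + a * p.2)) := by fun_prop
    have h := map_mem_closure hcont hx' (t := (δ.graph : Set (A × A))) (by
      rintro ⟨u, v⟩ huv
      have hv : v = δ u := huv
      show δ a * u + a * v = δ (a * u)
      rw [hv, hδ])
    simp only [mul_zero, zero_add] at h
    exact h
  · have hcont : Continuous (fun p : A × A => (p.1 * a, p.1 * δ a + p.2 * a)) := by fun_prop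
    have h := map_mem_closure hcont hx' (t := (δ.graph : Set (A × A))) (by
      rintro ⟨u, v⟩ huv
      have hv : v = δ u := huv
      show u * δ a + v * a = δ (u * a)
      rw [hv, hδ, add_comm])
    simp only [zero_mul, zero_add] at h
    exact h

/-- The derivatives up to the order `n` are jointly small, and the last one is close to `y`. -/
def jetSub (δ : A →ₗ[ℂ] A) (X : Submodule ℂ A) (n : ℕ) : Submodule ℂ A where
  carrier := {y | ∀ ε > 0, ∃ x ∈ X, (∀ i < n, ‖(δ ^ i) x‖ < ε) ∧ ‖(δ ^ n) x - y‖ < ε}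
  add_mem' := by
    intro y z hy hz ε hε
    obtain ⟨x1, h1, h2, h3⟩ := hy (ε / 2) (by positivity)
    obtain ⟨x2, h4, h5, h6⟩ := hz (ε / 2) (by positivity)
    refine ⟨x1 + x2, X.add_mem h1 h4, fun i hi => ?_, ?_⟩
    · rw [map_add]
      linarith [norm_add_le ((δ ^ i) x1) ((δ ^ i) x2), h2 i hi, h5 i hi]
    · have e : (δ ^ n) (x1 + x2) - (y + z) = ((δ ^ n) x1 - y) + ((δ ^ n) x2 - z) := by
        rw [map_add]
        abel
      rw [e]
      linarith [norm_add_le ((δ ^ n) x1 - y) ((δ ^ n) x2 - z)]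
  zero_mem' := by
    intro ε hε
    refine ⟨0, X.zero_mem, fun i _ => ?_, ?_⟩
    · rw [map_zero, norm_zero]
      exact hε
    · rw [map_zero, sub_zero, norm_zero]
      exact hε
  smul_mem' := by
    intro c y hy ε hε
    obtain ⟨x, h1, h2, h3⟩ := hy (ε / (‖c‖ + 1)) (by positivity)
    have hle : ∀ t : ℝ, 0 ≤ t → t < ε / (‖c‖ + 1) → ‖c‖ * t < ε := by
      intro t ht0 ht
      rw [lt_div_iff₀ (by positivity)] at ht
      nlinarith [norm_nonneg c]
    refine ⟨c • x, X.smul_mem c h1, fun i hi => ?_, ?_⟩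
    · rw [map_smul, norm_smul]
      exact hle _ (norm_nonneg _) (h2 i hi)
    · rw [map_smul, ← smul_sub, norm_smul]
      exact hle _ (norm_nonneg _) h3

theorem mem_jetSub (δ : A →ₗ[ℂ] A) (X : Submodule ℂ A) (n : ℕ) (y : A) :
    y ∈ jetSub δ X n ↔
      ∀ ε > 0, ∃ x ∈ X, (∀ i < n, ‖(δ ^ i) x‖ < ε) ∧ ‖(δ ^ n) x - y‖ < ε := Iff.rfl

theorem jetSub_isClosed (δ : A →ₗ[ℂ] A) (X : Submodule ℂ A) (n : ℕ) :
    IsClosed (jetSub δ X n : Set A) := by
  rw [← closure_subset_iff_isClosed]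
  intro y hy ε hε
  rw [Metric.mem_closure_iff] at hy
  obtain ⟨z, hz, hyz⟩ := hy (ε / 2) (by positivity)
  obtain ⟨x, h1, h2, h3⟩ := hz (ε / 2) (by positivity)
  refine ⟨x, h1, fun i hi => (h2 i hi).trans (by linarith), ?_⟩
  rw [dist_eq_norm] at hyz
  have e : (δ ^ n) x - y = ((δ ^ n) x - z) - (y - z) := by abel
  rw [e]
  linarith [norm_sub_le ((δ ^ n) x - z) (y - z)]

/-- Elements of the separating space are approximated by elements which have joint limits. -/
theorem sep_lift [CompleteSpace A] (δ : A →ₗ[ℂ] A) (n : ℕ) (b : A) (hb : b ∈ sep δ) (ε : ℝ)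
    (hε : 0 < ε) :
    ∃ (s : ℕ → A) (a : ℕ → A), ‖s 1 - b‖ < ε ∧ Tendsto a atTop (𝓝 0) ∧
      ∀ j, 1 ≤ j → j ≤ n + 1 → Tendsto (fun k => (δ ^ j) (a k)) atTop (𝓝 (s j)) := by
  let Θ : A →ₗ[ℂ] (Fin (n + 1) → A) := LinearMap.pi fun j => δ ^ ((j : ℕ) + 1)
  have hΘ : ∀ a j, Θ a j = (δ ^ ((j : ℕ) + 1)) a := fun _ _ => rfl
  let R : (Fin (n + 1) → A) →L[ℂ] A := ContinuousLinearMap.proj (0 : Fin (n + 1))
  have hR : R.toLinearMap ∘ₗ Θ = δ := by
    ext a
    show (δ ^ (((0 : Fin (n + 1)) : ℕ) + 1)) a = δ a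
    simp
  have h1 := sep_comp_dense Θ R b (by rw [hR]; exact hb)
  rw [Metric.mem_closure_iff] at h1
  obtain ⟨_, ⟨t, ht, rfl⟩, hbt⟩ := h1 ε hε
  have ht' := (mem_sep_iff Θ t).mp ht
  have hpos : ∀ k : ℕ, (0 : ℝ) < 1 / ((k : ℝ) + 1) := fun k => by positivity
  choose a ha1 ha2 using fun k : ℕ => ht' (1 / ((k : ℝ) + 1)) (hpos k)
  have hlim : Tendsto (fun k : ℕ => 1 / ((k : ℝ) + 1)) atTop (𝓝 0) :=
    tendsto_one_div_add_atTop_nhds_zero_nat
  refine ⟨fun j => if h : j - 1 < n + 1 then t ⟨j - 1, h⟩ else 0, a, ?_, ?_, ?_⟩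
  · rw [dist_eq_norm, norm_sub_rev] at hbt
    have e : (if h : 1 - 1 < n + 1 then t ⟨1 - 1, h⟩ else 0) = R t := by
      rw [dif_pos (by omega)]
      rfl
    show ‖(if h : 1 - 1 < n + 1 then t ⟨1 - 1, h⟩ else 0) - b‖ < ε
    rw [e]
    exact hbt
  · exact squeeze_zero_norm (fun k => (ha1 k).le) hlim
  · intro j hj1 hj2
    have hlt : j - 1 < n + 1 := by omega
    show Tendsto _ atTop (𝓝 (if h : j - 1 < n + 1 then t ⟨j - 1, h⟩ else 0))
    rw [dif_pos hlt, tendsto_iff_norm_sub_tendsto_zero]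
    refine squeeze_zero (fun k => norm_nonneg _) (fun k => ?_) hlim
    have h2 := norm_le_pi_norm (Θ (a k) - t) ⟨j - 1, hlt⟩
    rw [Pi.sub_apply, hΘ] at h2
    have e : j - 1 + 1 = j := by omega
    simp only [e] at h2
    exact h2.trans (ha2 k).le

/-- The key step: multiplication by an element of the separating space raises the order. -/
theorem jetSub_step [CompleteSpace A] (δ : A →ₗ[ℂ] A)
    (hδ : ∀ x y : A, δ (x * y) = δ x * y + x * δ y) (X : Submodule ℂ A) (hX : IdealSub X)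
    (n : ℕ) (b y : A) (hb : b ∈ sep δ) (hy : y ∈ jetSub δ X n) : b * y ∈ jetSub δ X (n + 1) := by
  -- it is enough to treat elements with lifts
  have key : ∀ (s a : ℕ → A), Tendsto a atTop (𝓝 0) →
      (∀ j, 1 ≤ j → j ≤ n + 1 → Tendsto (fun k => (δ ^ j) (a k)) atTop (𝓝 (s j))) →
      ((n : ℂ) + 1) • (s 1 * y) ∈ jetSub δ X (n + 1) := by
    intro s a ha hs
    -- the limit of `δ ^ m (a k * x)`
    let L : ℕ → A → A := fun m x =>
      ∑ j ∈ Finset.Icc 1 m, (m.choose j : ℂ) • (s j * (δ ^ (m - j)) x)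
    have hL : ∀ m ≤ n + 1, ∀ x, Tendsto (fun k => (δ ^ m) (a k * x)) atTop (𝓝 (L m x)) := by
      intro m hm x
      have e : ∀ k, (δ ^ m) (a k * x) = a k * (δ ^ m) x +
          ∑ j ∈ Finset.Icc 1 m, (m.choose j : ℂ) • ((δ ^ j) (a k) * (δ ^ (m - j)) x) := by
        intro k
        rw [leibniz δ hδ, Finset.sum_range_eq_add_Ico _ (by omega)]
        simp only [pow_zero, Nat.choose_zero_right, Nat.cast_one, one_smul, Nat.sub_zero,
          Module.End.one_apply]
        rfl
      simp only [e]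
      have h0 : Tendsto (fun k => a k * (δ ^ m) x) atTop (𝓝 0) := by
        have := ha.mul_const ((δ ^ m) x)
        rwa [zero_mul] at this
      have h1 : Tendsto (fun k => ∑ j ∈ Finset.Icc 1 m,
          (m.choose j : ℂ) • ((δ ^ j) (a k) * (δ ^ (m - j)) x)) atTop (𝓝 (L m x)) := by
        refine tendsto_finsetSum _ fun j hj => ?_
        rw [Finset.mem_Icc] at hj
        exact ((hs j hj.1 (hj.2.trans hm)).mul_const _).const_smul _
      have := h0.add h1
      rwa [zero_add] at this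
    -- a sequence for `y`
    have hpos : ∀ k : ℕ, (0 : ℝ) < 1 / ((k : ℝ) + 1) := fun k => by positivity
    choose x hx1 hx2 hx3 using fun k : ℕ => hy (1 / ((k : ℝ) + 1)) (hpos k)
    have hlim : Tendsto (fun k : ℕ => 1 / ((k : ℝ) + 1)) atTop (𝓝 0) :=
      tendsto_one_div_add_atTop_nhds_zero_nat
    have hx4 : ∀ i < n, Tendsto (fun k => (δ ^ i) (x k)) atTop (𝓝 0) := fun i hi =>
      squeeze_zero_norm (fun k => (hx2 k i hi).le) hlim
    have hx5 : Tendsto (fun k => (δ ^ n) (x k)) atTop (𝓝 y) := by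
      rw [tendsto_iff_norm_sub_tendsto_zero]
      exact squeeze_zero (fun k => norm_nonneg _) (fun k => (hx3 k).le) hlim
    have hL0 : ∀ m < n + 1, Tendsto (fun l => L m (x l)) atTop (𝓝 0) := by
      intro m hm
      have e : (0 : A) = ∑ j ∈ Finset.Icc 1 m, (m.choose j : ℂ) • (s j * (0 : A)) := by simp
      rw [e]
      refine tendsto_finsetSum _ fun j hj => ?_
      rw [Finset.mem_Icc] at hj
      exact ((hx4 (m - j) (by omega)).const_mul _).const_smul _
    have hL1 : Tendsto (fun l => L (n + 1) (x l)) atTop (𝓝 (((n : ℂ) + 1) • (s 1 * y))) := by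
      have e : ((n : ℂ) + 1) • (s 1 * y) = ∑ j ∈ Finset.Icc 1 (n + 1),
          ((n + 1).choose j : ℂ) • (s j * (if j = 1 then y else 0)) := by
        rw [Finset.sum_eq_single 1]
        · simp
        · intro j _ hj
          rw [if_neg hj, mul_zero, smul_zero]
        · intro h
          exact absurd (Finset.mem_Icc.mpr ⟨le_refl 1, by omega⟩) h
      rw [e]
      refine tendsto_finsetSum _ fun j hj => ?_
      rw [Finset.mem_Icc] at hj
      refine Tendsto.const_smul (Tendsto.const_mul _ ?_) _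
      by_cases h : j = 1
      · rw [if_pos h, h]
        exact hx5
      · rw [if_neg h]
        exact hx4 (n + 1 - j) (by omega)
    -- conclusion
    intro ε hε
    have h1 : ∀ᶠ l in atTop, ∀ m < n + 1, ‖L m (x l)‖ < ε / 2 := by
      have : ∀ m ∈ Finset.range (n + 1), ∀ᶠ l in atTop, ‖L m (x l)‖ < ε / 2 := by
        intro m hm
        have h := (hL0 m (Finset.mem_range.mp hm)).norm
        rw [norm_zero] at h
        exact h.eventually (gt_mem_nhds (by positivity))
      have h2 := (Filter.eventually_all_finset (Finset.range (n + 1))).mpr this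
      refine h2.mono fun l hl m hm => hl m (Finset.mem_range.mpr hm)
    have h2 : ∀ᶠ l in atTop, ‖L (n + 1) (x l) - ((n : ℂ) + 1) • (s 1 * y)‖ < ε / 2 := by
      have h := tendsto_iff_norm_sub_tendsto_zero.mp hL1
      exact h.eventually (gt_mem_nhds (by positivity))
    obtain ⟨l, hl1, hl2⟩ := (h1.and h2).exists
    have h3 : ∀ᶠ k in atTop, ∀ m ≤ n + 1, ‖(δ ^ m) (a k * x l) - L m (x l)‖ < ε / 2 := by
      have : ∀ m ∈ Finset.range (n + 2), ∀ᶠ k in atTop,
          ‖(δ ^ m) (a k * x l) - L m (x l)‖ < ε / 2 := by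
        intro m hm
        have h := tendsto_iff_norm_sub_tendsto_zero.mp
          (hL m (by have := Finset.mem_range.mp hm; omega) (x l))
        exact h.eventually (gt_mem_nhds (by positivity))
      have h2 := (Filter.eventually_all_finset (Finset.range (n + 2))).mpr this
      refine h2.mono fun k hk m hm => hk m (Finset.mem_range.mpr (by omega))
    obtain ⟨k, hk⟩ := h3.exists
    refine ⟨a k * x l, (hX (a k) (x l) (hx1 l)).1, fun i hi => ?_, ?_⟩
    · have e : (δ ^ i) (a k * x l) = ((δ ^ i) (a k * x l) - L i (x l)) + L i (x l) := by abel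
      rw [e]
      linarith [norm_add_le ((δ ^ i) (a k * x l) - L i (x l)) (L i (x l)), hk i (by omega),
        hl1 i hi]
    · have e : (δ ^ (n + 1)) (a k * x l) - ((n : ℂ) + 1) • (s 1 * y) =
          ((δ ^ (n + 1)) (a k * x l) - L (n + 1) (x l)) +
            (L (n + 1) (x l) - ((n : ℂ) + 1) • (s 1 * y)) := by abel
      rw [e]
      linarith [norm_add_le ((δ ^ (n + 1)) (a k * x l) - L (n + 1) (x l))
        (L (n + 1) (x l) - ((n : ℂ) + 1) • (s 1 * y)), hk (n + 1) le_rfl]
  have hn : ((n : ℂ) + 1) ≠ 0 := Nat.cast_add_one_ne_zero n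
  have hmem : ∀ (s a : ℕ → A), Tendsto a atTop (𝓝 0) →
      (∀ j, 1 ≤ j → j ≤ n + 1 → Tendsto (fun k => (δ ^ j) (a k)) atTop (𝓝 (s j))) →
      s 1 * y ∈ jetSub δ X (n + 1) := by
    intro s a ha hs
    have h := (jetSub δ X (n + 1)).smul_mem (((n : ℂ) + 1)⁻¹) (key s a ha hs)
    rwa [smul_smul, inv_mul_cancel₀ hn, one_smul] at h
  -- the general case by closedness
  have hcl := jetSub_isClosed δ X (n + 1)
  have hcont : Continuous (fun c : A => c * y) := continuous_id.mul continuous_const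
  have hset : IsClosed {c : A | c * y ∈ (jetSub δ X (n + 1) : Set A)} := hcl.preimage hcont
  have hb' : b ∈ closure {c : A | c * y ∈ (jetSub δ X (n + 1) : Set A)} := by
    rw [Metric.mem_closure_iff]
    intro ε hε
    obtain ⟨s, a, h1, h2, h3⟩ := sep_lift δ n b hb ε hε
    exact ⟨s 1, hmem s a h2 h3, by rwa [dist_comm, dist_eq_norm]⟩
  rw [hset.closure_eq] at hb'
  exact hb'

theorem jetSub_full [CompleteSpace A] (δ : A →ₗ[ℂ] A)
    (hδ : ∀ x y : A, δ (x * y) = δ x * y + x * δ y) (Q X : Submodule ℂ A) (hX : IdealSub X)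
    (hXQ : X ≤ Q) (hQX : Q ≤ X.topologicalClosure) (hXs : X ≤ sandwich Q X) (hQ : IdealSub Q)
    (hQS : Q ≤ sep δ) (n : ℕ) : Q ≤ jetSub δ X n := by
  induction n with
  | zero =>
    intro y hy ε hε
    have h : y ∈ closure (X : Set A) := hQX hy
    rw [Metric.mem_closure_iff] at h
    obtain ⟨x, hx, hyx⟩ := h ε hε
    refine ⟨x, hx, fun i hi => absurd hi (Nat.not_lt_zero i), ?_⟩
    rw [pow_zero, Module.End.one_apply, ← dist_eq_norm, dist_comm]
    exact hyx
  | succ n ih =>
    refine hQX.trans (Submodule.topologicalClosure_minimal X ?_ (jetSub_isClosed δ X (n + 1)))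
    refine hXs.trans (Submodule.span_le.mpr ?_)
    rintro z ⟨q, hq, x, hx, q', hq', rfl⟩
    show q * x * q' ∈ jetSub δ X (n + 1)
    rw [mul_assoc]
    exact jetSub_step δ hδ X hX n q (x * q') (hQS hq) (ih ((hQ q' x (hXQ hx)).2))

/-- Joint density of the derivatives. -/
theorem joint_dense [CompleteSpace A] (δ : A →ₗ[ℂ] A)
    (hδ : ∀ x y : A, δ (x * y) = δ x * y + x * δ y) (Q X : Submodule ℂ A) (hX : IdealSub X)
    (hXQ : X ≤ Q) (hQX : Q ≤ X.topologicalClosure) (hXs : X ≤ sandwich Q X) (hQ : IdealSub Q)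
    (hQS : Q ≤ sep δ) (hδX : ∀ x ∈ X, δ x ∈ X) (n : ℕ) (q : ℕ → A) (hq : ∀ i, q i ∈ Q)
    (ε : ℝ) (hε : 0 < ε) : ∃ x ∈ X, ∀ i ≤ n, ‖(δ ^ i) x - q i‖ < ε := by
  have hpow : ∀ i, ∀ x ∈ X, (δ ^ i) x ∈ X := by
    intro i
    induction i with
    | zero => intro x hx; exact hx
    | succ i ih =>
      intro x hx
      rw [pow_succ', Module.End.mul_apply]
      exact hδX _ (ih x hx)
  have hfull := jetSub_full δ hδ Q X hX hXQ hQX hXs hQ hQS
  induction n generalizing ε with
  | zero =>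
    obtain ⟨x, hx, -, h⟩ := hfull 0 (hq 0) ε hε
    refine ⟨x, hx, fun i hi => ?_⟩
    obtain rfl : i = 0 := by omega
    exact h
  | succ n ih =>
    obtain ⟨x0, hx0, h0⟩ := ih (ε / 2) (by positivity)
    obtain ⟨x1, hx1, h1, h2⟩ := hfull (n + 1)
      (Q.sub_mem (hq (n + 1)) (hXQ (hpow (n + 1) x0 hx0))) (ε / 2) (by positivity)
    refine ⟨x0 + x1, X.add_mem hx0 hx1, fun i hi => ?_⟩
    rcases Nat.lt_or_ge i (n + 1) with h | h
    · have e : (δ ^ i) (x0 + x1) - q i = ((δ ^ i) x0 - q i) + (δ ^ i) x1 := by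
        rw [map_add]
        abel
      rw [e]
      linarith [norm_add_le ((δ ^ i) x0 - q i) ((δ ^ i) x1), h0 i (by omega), h1 i h]
    · obtain rfl : i = n + 1 := by omega
      have e : (δ ^ (n + 1)) (x0 + x1) - q (n + 1) =
          (δ ^ (n + 1)) x1 - (q (n + 1) - (δ ^ (n + 1)) x0) := by
        rw [map_add]
        abel
      rw [e]
      linarith

/-- The dense factoring ideal is invariant. -/
theorem factoring_invariant (δ : A →ₗ[ℂ] A)
    (hδ : ∀ x y : A, δ (x * y) = δ x * y + x * δ y) (Q : Submodule ℂ A) (hQ : IdealSub Q)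
    (x : A) (hx : x ∈ factoring Q) : δ x ∈ factoring Q := by
  have hideal := factoring_ideal Q hQ
  let Y : Submodule ℂ A := factoring Q ⊔ (factoring Q).map δ
  have hmem : ∀ x ∈ factoring Q, δ x ∈ Q ∧ δ x ∈ sandwich Q Y := by
    intro x hx
    have hx' := factoring_sandwich Q hx
    unfold sandwich at hx'
    clear hx
    induction hx' using Submodule.span_induction with
    | mem z hz =>
      obtain ⟨q, hq, w, hw, q', hq', rfl⟩ := hz
      have e : δ (q * w * q') = δ q * w * q' + q * δ w * q' + q * w * δ q' := by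
        rw [hδ, hδ, add_mul]
      have h1 : δ q * w * q' ∈ factoring Q := (hideal q' _ (hideal (δ q) w hw).1).2
      have h2 : q * w * δ q' ∈ factoring Q := (hideal (δ q') _ (hideal q w hw).1).2
      have hYle : sandwich Q (factoring Q) ≤ sandwich Q Y := sandwich_mono Q le_sup_left
      rw [e]
      refine ⟨Q.add_mem (Q.add_mem (factoring_le Q h1) ?_) (factoring_le Q h2),
        Submodule.add_mem _ (Submodule.add_mem _ (hYle (factoring_sandwich Q h1)) ?_)
          (hYle (factoring_sandwich Q h2))⟩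
      · exact (hQ (q * δ w) q' hq').1
      · exact Submodule.subset_span ⟨q, hq, δ w,
          Submodule.mem_sup_right (Submodule.mem_map_of_mem hw), q', hq', rfl⟩
    | zero => rw [map_zero]; exact ⟨Q.zero_mem, Submodule.zero_mem _⟩
    | add u v _ _ ihu ihv =>
      rw [map_add]
      exact ⟨Q.add_mem ihu.1 ihv.1, Submodule.add_mem _ ihu.2 ihv.2⟩
    | smul c u _ ihu =>
      rw [map_smul]
      exact ⟨Q.smul_mem c ihu.1, Submodule.smul_mem _ c ihu.2⟩
  have hY1 : Y ≤ Q := by
    refine sup_le (factoring_le Q) ?_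
    rintro _ ⟨x, hx, rfl⟩
    exact (hmem x hx).1
  have hY2 : Y ≤ sandwich Q Y := by
    refine sup_le ((factoring_sandwich Q).trans (sandwich_mono Q le_sup_left)) ?_
    rintro _ ⟨x, hx, rfl⟩
    exact (hmem x hx).2
  exact le_factoring Q Y hY1 hY2 (Submodule.mem_sup_right (Submodule.mem_map_of_mem hx))

end DenseSec

end Pool.Agent.SW
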