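import Mathlib
import Pool.Agent.SW.Dense

/-!
Project SW: Mittag-Leffler for arbitrary sequences of one-sided multiplications on the smallest
closed ideal.
-/

set_option autoImplicit false

namespace Pool.Agent.SW

section General

variable {E : Type*} [NormedAddCommGroup E] [NormedSpace ℂ E]

theorem ml_general [CompleteSpace E] (T : ℕ → E →L[ℂ] E) (W : Submodule ℂ E)
    (hW : IsClosed (W : Set E)) (hT : ∀ j, ∀ x ∈ W, T j x ∈ W)
    (hst : ∀ j, ∃ k, ∀ s ∈ W, ∀ m,
      prodL (fun i => T (j + i)) k s ∈ closure (prodL (fun i => T (j + i)) m '' (W : Set E))) :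
    ∃ K, ∀ s ∈ W, ∀ ε > 0, ∃ u : ℕ → E, (∀ j, u j ∈ W) ∧ (∀ j, u j = T j (u (j + 1))) ∧
      ‖u 0 - prodL T K s‖ < ε := by
  let V : ℕ → Submodule ℂ E := fun j =>
    ⨅ m, (W.map (prodL (fun i => T (j + i)) m).toLinearMap).topologicalClosure
  have hV : ∀ j x, x ∈ V j ↔ ∀ m, x ∈ closure (prodL (fun i => T (j + i)) m '' (W : Set E)) := by
    intro j x
    simp only [V, Submodule.mem_iInf]
    rfl
  have hshift : ∀ j m, prodL (fun i => T (j + i)) (m + 1) =
      (T j).comp (prodL (fun i => T (j + 1 + i)) m) := by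
    intro j m
    rw [prodL_shift]
    have e2 : (fun l => T (j + (l + 1))) = fun l => T (j + 1 + l) := by
      funext l
      congr 1
      omega
    rw [e2]
    rfl
  have h1 : ∀ j, IsClosed (V j : Set E) := by
    intro j
    show IsClosed ((⨅ m, (W.map (prodL (fun i => T (j + i)) m).toLinearMap).topologicalClosure :
      Submodule ℂ E) : Set E)
    rw [Submodule.coe_iInf]
    exact isClosed_iInter fun m => Submodule.isClosed_topologicalClosure _
  have h0 : ∀ j, prodL (fun i => T (j + i)) 0 '' (W : Set E) = (W : Set E) := by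
    intro j
    show (fun x => (ContinuousLinearMap.id ℂ E) x) '' (W : Set E) = _
    simp
  have h2 : ∀ j, ∀ x ∈ V (j + 1), T j x ∈ V j := by
    intro j x hx
    rw [hV] at hx ⊢
    intro m
    cases m with
    | zero =>
      have h := hx 0
      rw [h0, hW.closure_eq] at h ⊢
      exact hT j x h
    | succ m =>
      rw [hshift]
      refine map_mem_closure (T j).continuous (hx m) ?_
      rintro _ ⟨y, hy, rfl⟩
      exact ⟨y, hy, rfl⟩
  have h3 : ∀ j, ∀ x ∈ V j, x ∈ closure (T j '' (V (j + 1) : Set E)) := by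
    intro j x hx
    rw [hV] at hx
    obtain ⟨k, hk⟩ := hst (j + 1)
    have h := hx (k + 1)
    rw [hshift] at h
    refine closure_mono ?_ h
    rintro _ ⟨s, hs, rfl⟩
    refine ⟨prodL (fun i => T (j + 1 + i)) k s, ?_, rfl⟩
    exact (hV (j + 1) _).mpr (hk s hs)
  obtain ⟨K, hK⟩ := hst 0
  have e2 : (fun i => T (0 + i)) = T := by
    funext i
    rw [zero_add]
  refine ⟨K, fun s hs ε hε => ?_⟩
  have h4 : prodL T K s ∈ V 0 := by
    rw [hV]
    intro m
    have h := hK s hs m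
    rw [e2] at h ⊢
    exact h
  obtain ⟨u, hu1, hu2, hu3⟩ := mittag T V h1 h2 h3 _ h4 ε hε
  refine ⟨u, fun j => ?_, hu2, hu3⟩
  have h := (hV j (u j)).mp (hu1 j) 0
  rw [h0, hW.closure_eq] at h
  exact h

end General

section Alg

variable {A : Type*} [NonUnitalNormedRing A] [NormedSpace ℂ A] [IsScalarTower ℂ A A]
  [SMulCommClass ℂ A A]

theorem iota_mem_sep (δ : A →ₗ[ℂ] A) (y : A) (hy : y ∈ sep δ) : iota y ∈ sep (ext δ) := by
  rw [mem_sep_iff] at hy ⊢
  intro ε hε
  obtain ⟨x, hx1, hx2⟩ := hy ε hε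
  refine ⟨iota x, by rwa [norm_iota], ?_⟩
  rw [ext_apply, pr_iota, ← map_sub, norm_iota]
  exact hx2

theorem pr_mem_sep (δ : A →ₗ[ℂ] A) (y : WithLp 1 (Unitization ℂ A)) (hy : y ∈ sep (ext δ)) :
    pr y ∈ sep δ := by
  have hy' := sep_ext δ y hy
  rw [mem_sep_iff] at hy ⊢
  intro ε hε
  obtain ⟨x, hx1, hx2⟩ := hy ε hε
  refine ⟨pr x, lt_of_le_of_lt (norm_pr_le x) hx1, ?_⟩
  rw [ext_apply, ← hy', ← map_sub, norm_iota] at hx2
  exact hx2

theorem closure_iota (S : Set A) (x : A) (h : iota x ∈ closure (iota '' S)) : x ∈ closure S := by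
  have hiso : Isometry (iota : A →ₗ[ℂ] WithLp 1 (Unitization ℂ A)) :=
    AddMonoidHomClass.isometry_of_norm _ norm_iota
  rw [hiso.isEmbedding.closure_eq_preimage_closure_image]
  exact h

/-- The eventual constancy of the closures on the separating space, without unit. -/
theorem op_chain [CompleteSpace A] (δ : A →ₗ[ℂ] A)
    (hδ : ∀ x y : A, δ (x * y) = δ x * y + x * δ y) (T : ℕ → Module.End ℂ A)
    (hT : ∀ i, T i ∈ opAlg A) :
    ∃ k, ∀ s ∈ sep δ, ∀ m, prodE T k s ∈ closure (prodE T m '' (sep δ : Set A)) := by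
  choose T' hT' hTT' using fun i => opAlg_lift (T i) (hT i)
  obtain ⟨k, hk⟩ := core_chain (ext δ) (ext_isDer δ hδ) T' hT'
  refine ⟨k, fun s hs m => ?_⟩
  have h := hk (iota s) (iota_mem_sep δ s hs) m
  rw [prodE_iota T T' hTT'] at h
  apply closure_iota
  refine closure_mono ?_ h
  rintro _ ⟨y, hy, rfl⟩
  refine ⟨prodE T m (pr y), ⟨pr y, pr_mem_sep δ y hy, rfl⟩, ?_⟩
  rw [← prodE_iota T T' hTT', sep_ext δ y hy]

/-- Left multiplication. -/
noncomputable def lmul (a : A) : A →L[ℂ] A := ContinuousLinearMap.mul ℂ A a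

/-- Right multiplication. -/
noncomputable def rmul (a : A) : A →L[ℂ] A := (ContinuousLinearMap.mul ℂ A).flip a

theorem lmul_apply (a x : A) : lmul a x = a * x := rfl

theorem rmul_apply (a x : A) : rmul a x = x * a := rfl

theorem prodL_eq_prodE (C : ℕ → A →L[ℂ] A) (k : ℕ) (x : A) :
    prodL C k x = prodE (fun i => ((C i : A →L[ℂ] A) : A →ₗ[ℂ] A)) k x := by
  induction k generalizing x with
  | zero => rfl
  | succ k ih =>
    show prodL C k (C k x) = prodE _ k (C k x)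
    rw [ih]

theorem chain_lmul [CompleteSpace A] (δ : A →ₗ[ℂ] A)
    (hδ : ∀ x y : A, δ (x * y) = δ x * y + x * δ y) (Q : Submodule ℂ A) (hQ : IdealSub Q)
    (hQS : Q ≤ sep δ)
    (hQQ : Q ≤ (Submodule.span ℂ {z | ∃ x ∈ Q, ∃ y ∈ Q, z = x * y}).topologicalClosure)
    (a : ℕ → A) :
    ∃ k, ∀ s ∈ Q, ∀ m, prodL (fun i => lmul (a i)) k s ∈
      closure (prodL (fun i => lmul (a i)) m '' (Q : Set A)) := by
  obtain ⟨k, hk⟩ := op_chain δ hδ (fun i => ((lmul (a i) : A →L[ℂ] A) : A →ₗ[ℂ] A))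
    (fun i => Algebra.subset_adjoin (Or.inl ⟨a i, fun _ => rfl⟩))
  have hmul : ∀ m x y, prodL (fun i => lmul (a i)) m (x * y) =
      prodL (fun i => lmul (a i)) m x * y := by
    intro m
    induction m with
    | zero => intro x y; rfl
    | succ m ih =>
      intro x y
      show prodL (fun i => lmul (a i)) m (a m * (x * y)) =
        prodL (fun i => lmul (a i)) m (a m * x) * y
      rw [← mul_assoc, ih]
  refine ⟨k, fun s hs m => ?_⟩
  let W : Submodule ℂ A := (Q.map (prodL (fun i => lmul (a i)) m).toLinearMap).topologicalClosure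
  have hWcl : IsClosed (W : Set A) := Submodule.isClosed_topologicalClosure _
  have hle : (Submodule.span ℂ {z | ∃ x ∈ Q, ∃ y ∈ Q, z = x * y}).topologicalClosure ≤
      W.comap (prodL (fun i => lmul (a i)) k).toLinearMap := by
    refine Submodule.topologicalClosure_minimal _ ?_
      (hWcl.preimage (prodL (fun i => lmul (a i)) k).continuous)
    refine Submodule.span_le.mpr ?_
    rintro z ⟨x, hx, y, hy, rfl⟩
    show prodL (fun i => lmul (a i)) k (x * y) ∈
      closure (prodL (fun i => lmul (a i)) m '' (Q : Set A))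
    rw [hmul]
    have h := hk x (hQS hx) m
    rw [← prodL_eq_prodE] at h
    have hcont : Continuous (fun z : A => z * y) := continuous_id.mul continuous_const
    refine map_mem_closure (f := fun z : A => z * y) hcont h ?_
    rintro _ ⟨w, hw, rfl⟩
    refine ⟨w * y, (hQ w y hy).1, ?_⟩
    rw [hmul, prodL_eq_prodE]
  exact hle (hQQ hs)

theorem chain_rmul [CompleteSpace A] (δ : A →ₗ[ℂ] A)
    (hδ : ∀ x y : A, δ (x * y) = δ x * y + x * δ y) (Q : Submodule ℂ A) (hQ : IdealSub Q)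
    (hQS : Q ≤ sep δ)
    (hQQ : Q ≤ (Submodule.span ℂ {z | ∃ x ∈ Q, ∃ y ∈ Q, z = x * y}).topologicalClosure)
    (a : ℕ → A) :
    ∃ k, ∀ s ∈ Q, ∀ m, prodL (fun i => rmul (a i)) k s ∈
      closure (prodL (fun i => rmul (a i)) m '' (Q : Set A)) := by
  obtain ⟨k, hk⟩ := op_chain δ hδ (fun i => ((rmul (a i) : A →L[ℂ] A) : A →ₗ[ℂ] A))
    (fun i => Algebra.subset_adjoin (Or.inr ⟨a i, fun _ => rfl⟩))
  have hmul : ∀ m x y, prodL (fun i => rmul (a i)) m (x * y) =
      x * prodL (fun i => rmul (a i)) m y := by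
    intro m
    induction m with
    | zero => intro x y; rfl
    | succ m ih =>
      intro x y
      show prodL (fun i => rmul (a i)) m ((x * y) * a m) =
        x * prodL (fun i => rmul (a i)) m (y * a m)
      rw [mul_assoc, ih]
  refine ⟨k, fun s hs m => ?_⟩
  let W : Submodule ℂ A := (Q.map (prodL (fun i => rmul (a i)) m).toLinearMap).topologicalClosure
  have hWcl : IsClosed (W : Set A) := Submodule.isClosed_topologicalClosure _
  have hle : (Submodule.span ℂ {z | ∃ x ∈ Q, ∃ y ∈ Q, z = x * y}).topologicalClosure ≤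
      W.comap (prodL (fun i => rmul (a i)) k).toLinearMap := by
    refine Submodule.topologicalClosure_minimal _ ?_
      (hWcl.preimage (prodL (fun i => rmul (a i)) k).continuous)
    refine Submodule.span_le.mpr ?_
    rintro z ⟨x, hx, y, hy, rfl⟩
    show prodL (fun i => rmul (a i)) k (x * y) ∈
      closure (prodL (fun i => rmul (a i)) m '' (Q : Set A))
    rw [hmul]
    have h := hk y (hQS hy) m
    rw [← prodL_eq_prodE] at h
    have hcont : Continuous (fun z : A => x * z) := continuous_const.mul continuous_id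
    refine map_mem_closure hcont h ?_
    rintro _ ⟨w, hw, rfl⟩
    refine ⟨x * w, (hQ w x hx).2, ?_⟩
    rw [hmul, prodL_eq_prodE]
  exact hle (hQQ hs)

/-- `leftProd a k q = a 0 * (a 1 * ⋯ (a (k - 1) * q))`. -/
def leftProd (a : ℕ → A) : ℕ → A → A
  | 0, q => q
  | k + 1, q => leftProd a k (a k * q)

/-- `rightProd a k q = ((q * a (k - 1)) ⋯ * a 1) * a 0`. -/
def rightProd (a : ℕ → A) : ℕ → A → A
  | 0, q => q
  | k + 1, q => rightProd a k (q * a k)

theorem leftProd_eq (a : ℕ → A) (k : ℕ) (q : A) :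
    leftProd a k q = prodL (fun i => lmul (a i)) k q := by
  induction k generalizing q with
  | zero => rfl
  | succ k ih =>
    show leftProd a k (a k * q) = prodL (fun i => lmul (a i)) k (a k * q)
    rw [ih]

theorem rightProd_eq (a : ℕ → A) (k : ℕ) (q : A) :
    rightProd a k q = prodL (fun i => rmul (a i)) k q := by
  induction k generalizing q with
  | zero => rfl
  | succ k ih =>
    show rightProd a k (q * a k) = prodL (fun i => rmul (a i)) k (q * a k)
    rw [ih]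

theorem ml_left [CompleteSpace A] (δ : A →ₗ[ℂ] A)
    (hδ : ∀ x y : A, δ (x * y) = δ x * y + x * δ y) (Q : Submodule ℂ A) (hQ : ClosedIdeal Q)
    (hQS : Q ≤ sep δ)
    (hQQ : Q ≤ (Submodule.span ℂ {z | ∃ x ∈ Q, ∃ y ∈ Q, z = x * y}).topologicalClosure)
    (a : ℕ → A) :
    ∃ K, ∀ q ∈ Q, ∀ ε > 0, ∃ u : ℕ → A, (∀ j, u j ∈ Q) ∧ (∀ j, u j = a j * u (j + 1)) ∧
      ‖u 0 - leftProd a K q‖ < ε := by
  obtain ⟨K, hK⟩ := ml_general (fun i => lmul (a i)) Q hQ.1 (fun j x hx => (hQ.2 (a j) x hx).1)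
    (fun j => chain_lmul δ hδ Q hQ.2 hQS hQQ (fun i => a (j + i)))
  refine ⟨K, fun q hq ε hε => ?_⟩
  obtain ⟨u, h1, h2, h3⟩ := hK q hq ε hε
  exact ⟨u, h1, h2, by rwa [leftProd_eq]⟩

theorem ml_right [CompleteSpace A] (δ : A →ₗ[ℂ] A)
    (hδ : ∀ x y : A, δ (x * y) = δ x * y + x * δ y) (Q : Submodule ℂ A) (hQ : ClosedIdeal Q)
    (hQS : Q ≤ sep δ)
    (hQQ : Q ≤ (Submodule.span ℂ {z | ∃ x ∈ Q, ∃ y ∈ Q, z = x * y}).topologicalClosure)
    (a : ℕ → A) :
    ∃ K, ∀ q ∈ Q, ∀ ε > 0, ∃ u : ℕ → A, (∀ j, u j ∈ Q) ∧ (∀ j, u j = u (j + 1) * a j) ∧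
      ‖u 0 - rightProd a K q‖ < ε := by
  obtain ⟨K, hK⟩ := ml_general (fun i => rmul (a i)) Q hQ.1 (fun j x hx => (hQ.2 (a j) x hx).2)
    (fun j => chain_rmul δ hδ Q hQ.2 hQS hQQ (fun i => a (j + i)))
  refine ⟨K, fun q hq ε hε => ?_⟩
  obtain ⟨u, h1, h2, h3⟩ := hK q hq ε hε
  exact ⟨u, h1, h2, by rwa [rightProd_eq]⟩

/-- Orbits in the separating space with a first element which is not nilpotent. -/
theorem ml_op [CompleteSpace A] (δ : A →ₗ[ℂ] A)
    (hδ : ∀ x y : A, δ (x * y) = δ x * y + x * δ y) (T : ℕ → Module.End ℂ A)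
    (hT : ∀ i, T i ∈ opAlg A) :
    ∃ K, ∀ s ∈ sep δ, (∀ k, npowr (prodE T K s) k ≠ 0) → ∀ ε > 0,
      ∃ u : ℕ → A, (∀ j, u j ∈ sep δ) ∧ (∀ j, u j = T j (u (j + 1))) ∧
        ‖u 0 - prodE T K s‖ < ε ∧ ∀ k, npowr (u 0) k ≠ 0 := by
  choose T' hT' hTT' using fun i => opAlg_lift (T i) (hT i)
  obtain ⟨K, hK⟩ := core_chain (ext δ) (ext_isDer δ hδ) T' hT'
  refine ⟨K, fun s hs hne ε hε => ?_⟩
  have hpowiota : ∀ x : A, (∀ k, npowr x k ≠ 0) → ∀ k, (iota x) ^ k ≠ 0 := by
    intro x hx k h0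
    apply hx k
    apply iota_injective
    rw [map_zero, iota_npowr, pow_succ, h0, zero_mul]
  obtain ⟨u, hu, hu3, hu4⟩ := core_ml_nonnil (ext δ) (ext_isDer δ hδ) T' hT'
    (prodE T' K (iota s)) (hK (iota s) (iota_mem_sep δ s hs)) (by
      rw [prodE_iota T T' hTT']
      exact hpowiota _ hne) ε hε
  have hui : ∀ j, iota (pr (u j)) = u j := fun j => sep_ext δ (u j) (hu j).1
  refine ⟨fun j => pr (u j), fun j => pr_mem_sep δ _ (hu j).1, fun j => ?_, ?_, fun k h0 => ?_⟩
  · show pr (u j) = T j (pr (u (j + 1)))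
    apply iota_injective
    rw [hui j, ← hTT', hui (j + 1)]
    exact (hu j).2
  · rw [← norm_iota, map_sub, hui 0, ← prodE_iota T T' hTT']
    exact hu3
  · apply hu4 (k + 1)
    rw [← hui 0, ← iota_npowr]
    show iota (npowr (pr (u 0)) k) = 0
    rw [h0, map_zero]

end Alg

end Pool.Agent.SW
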