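import Mathlib
import Pool.Agent.SW.Full

/-!
Project SW: classes of algebras and of derivations for which the conjecture holds.
-/

set_option autoImplicit false

namespace Pool.Agent.SW

section Classes

variable {A : Type*} [NonUnitalNormedRing A] [NormedSpace ℂ A] [IsScalarTower ℂ A A]
  [SMulCommClass ℂ A A]

/-- The span of the products of elements of `P` and `Q`. -/
def prodSpan (P Q : Submodule ℂ A) : Submodule ℂ A :=
  Submodule.span ℂ {z | ∃ x ∈ P, ∃ y ∈ Q, z = x * y}

theorem inRad_smul (c : ℂ) (x : A) (hx : InRad x) : InRad (c • x) := by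
  unfold InRad at hx ⊢
  have e : (Unitization.inr (c • x) : Unitization ℂ A) = Unitization.inl c * Unitization.inr x := by
    ext
    · simp
    · simp
  rw [e]
  exact Ideal.mul_mem_left _ _ hx

/-- The radical as a subspace. -/
def radSub (A : Type*) [NonUnitalNormedRing A] [NormedSpace ℂ A] [IsScalarTower ℂ A A]
    [SMulCommClass ℂ A A] : Submodule ℂ A where
  carrier := {x | InRad x}
  add_mem' := by
    intro x y hx hy
    show (Unitization.inr (x + y) : Unitization ℂ A) ∈ (⊥ : Ideal (Unitization ℂ A)).jacobson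
    rw [Unitization.inr_add]
    exact Ideal.add_mem _ hx hy
  zero_mem' := by
    show (Unitization.inr (0 : A) : Unitization ℂ A) ∈ (⊥ : Ideal (Unitization ℂ A)).jacobson
    rw [Unitization.inr_zero]
    exact Ideal.zero_mem _
  smul_mem' := fun c x hx => inRad_smul c x hx

theorem mem_radSub (x : A) : x ∈ radSub A ↔ InRad x := Iff.rfl

/-- `radPow A m` is the span of the products of `m + 1` elements of the radical. -/
def radPow (A : Type*) [NonUnitalNormedRing A] [NormedSpace ℂ A] [IsScalarTower ℂ A A]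
    [SMulCommClass ℂ A A] : ℕ → Submodule ℂ A
  | 0 => radSub A
  | m + 1 => prodSpan (radSub A) (radPow A m)

theorem map_npowr (Ψ : A →ₙₐ[ℂ] PowerSeries ℂ) (x : A) (k : ℕ) :
    Ψ (npowr x k) = Ψ x ^ (k + 1) := by
  induction k with
  | zero => simp [npowr]
  | succ k ih => rw [npowr, map_mul, ih, pow_succ' _ (k + 1)]

theorem dvd_of_radPow (Ψ : A →ₙₐ[ℂ] PowerSeries ℂ)
    (h0 : ∀ a, InRad a → PowerSeries.coeff 0 (Ψ a) = 0) (m : ℕ) (z : A) (hz : z ∈ radPow A m) :
    (PowerSeries.X : PowerSeries ℂ) ^ (m + 1) ∣ Ψ z := by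
  have hrad : ∀ a, InRad a → (PowerSeries.X : PowerSeries ℂ) ∣ Ψ a := by
    intro a ha
    rw [PowerSeries.X_dvd_iff, ← PowerSeries.coeff_zero_eq_constantCoeff_apply]
    exact h0 a ha
  induction m generalizing z with
  | zero => rw [zero_add, pow_one]; exact hrad z hz
  | succ m ih =>
    have hz' : z ∈ Submodule.span ℂ {z | ∃ x ∈ radSub A, ∃ y ∈ radPow A m, z = x * y} := hz
    induction hz' using Submodule.span_induction with
    | mem w hw =>
      obtain ⟨x, hx, y, hy, rfl⟩ := hw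
      rw [map_mul, pow_succ']
      exact mul_dvd_mul (hrad x hx) (ih y hy)
    | zero => rw [map_zero]; exact dvd_zero _
    | add a b ha hb iha ihb =>
      rw [map_add]
      exact dvd_add (iha ha) (ihb hb)
    | smul c a ha iha =>
      rw [map_smul, PowerSeries.smul_eq_C_mul]
      exact (iha ha).mul_left _

theorem eq_zero_of_forall_dvd (F : PowerSeries ℂ)
    (h : ∀ m : ℕ, (PowerSeries.X : PowerSeries ℂ) ^ (m + 1) ∣ F) : F = 0 := by
  ext n
  rw [map_zero]
  exact (PowerSeries.X_pow_dvd_iff.mp (h n)) n (Nat.lt_succ_self n)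

/-- The coefficients of order at least `n₀` are discontinuous. -/
theorem small_discont (Ψ : A →ₙₐ[ℂ] PowerSeries ℂ) (n₀ : ℕ)
    (h : ∀ F : PowerSeries ℂ, (∀ j < n₀, PowerSeries.coeff j F = 0) → ∀ ε > 0,
      ∃ a : A, ‖a‖ < ε ∧ Ψ a = F) (n : ℕ) (hn : n₀ ≤ n) :
    ¬ Continuous (fun a => PowerSeries.coeff n (Ψ a)) := by
  intro hcont
  have h0 := Metric.continuous_iff.mp hcont 0 1 one_pos
  obtain ⟨ε, hε, h1⟩ := h0
  obtain ⟨a, ha1, ha2⟩ := h (PowerSeries.X ^ n) (by
    intro j hj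
    rw [PowerSeries.coeff_X_pow, if_neg (by omega)]) ε hε
  have h2 := h1 a (by rwa [dist_zero_right])
  simp only [map_zero, dist_zero_right] at h2
  rw [ha2, PowerSeries.coeff_X_pow, if_pos rfl, norm_one] at h2
  exact lt_irrefl _ h2

/-- A factoring ideal inside the radical lies in all powers of the radical. -/
theorem factoring_radPow (Q X : Submodule ℂ A) (hQ : ∀ x ∈ Q, InRad x) (hXi : IdealSub X)
    (hXQ : X ≤ Q) (hX : X ≤ sandwich Q X) (m : ℕ) : X ≤ radPow A m := by
  induction m with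
  | zero => exact fun x hx => hQ x (hXQ hx)
  | succ m ih =>
    refine hX.trans (Submodule.span_le.mpr ?_)
    rintro z ⟨q, hq, x, hx, q', hq', rfl⟩
    exact Submodule.subset_span ⟨q, hQ q hq, x * q', ih (hXi q' x hx).2, by rw [mul_assoc]⟩

/-- Class theorem, general form. -/
theorem class_general [CompleteSpace A]
    (hA : ∀ Q X : Submodule ℂ A, ClosedIdeal Q → (∀ x ∈ Q, InRad x) → IdealSub X → X ≤ Q →
      Q ≤ X.topologicalClosure → X ≤ sandwich Q X →
      (∀ J : Submodule ℂ A, ClosedIdeal J →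
        (∀ Ψ : A →ₙₐ[ℂ] PowerSeries ℂ, Function.Surjective Ψ → ∃ y ∈ J, Ψ y ≠ 0) → Q ≤ J) →
      (∀ x ∈ X, ∃ k, npowr x k = 0) ∨ (∀ x ∈ Q, ∃ k, ∀ m, npowr x k ∈ radPow A m))
    (δ : A →ₗ[ℂ] A)
    (hδ : ∀ x y : A, δ (x * y) = δ x * y + x * δ y)
    (hc : ∀ x y : A, InRad ((x * δ x - δ x * x) * y - y * (x * δ x - δ x * x))) (x : A) :
    InRad (δ x) := by
  by_contra hx
  obtain ⟨Ψ, χ, h2, hcoeff, hsurj, -, ⟨Q, X, hQ, hQr, ⟨w, hw1, hw2⟩, hmin, hX1, hX2, hX3, hX4,
    hX5, v, hv1, hv2⟩, -⟩ := structure_full δ hδ hc ⟨x, hx⟩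
  rcases hA Q X hQ hQr hX1 hX2 hX3 hX4 (fun J hJ hJ' => hmin J hJ (hJ' Ψ hsurj)) with h | h
  · obtain ⟨k, hk⟩ := h v hv1
    exact hv2 k hk
  · obtain ⟨k, hk⟩ := h w hw1
    have h0 : ∀ a, InRad a → PowerSeries.coeff 0 (Ψ a) = 0 := fun a ha => by
      rw [hcoeff, pow_zero, Module.End.one_apply, h2 a ha, zero_div]
    have hz : Ψ (npowr w k) = 0 :=
      eq_zero_of_forall_dvd _ (fun m => dvd_of_radPow Ψ h0 m _ (hk m))
    rw [map_npowr] at hz
    exact hw2 (pow_eq_zero_iff (Nat.succ_ne_zero k) |>.mp hz)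

/-- Class theorem: the intersection of the (algebraic) powers of the radical is closed or nil. -/
theorem class_omega [CompleteSpace A]
    (hA : IsClosed ((⨅ m, radPow A m : Submodule ℂ A) : Set A) ∨
      ∀ x ∈ (⨅ m, radPow A m : Submodule ℂ A), ∃ k, npowr x k = 0)
    (δ : A →ₗ[ℂ] A)
    (hδ : ∀ x y : A, δ (x * y) = δ x * y + x * δ y)
    (hc : ∀ x y : A, InRad ((x * δ x - δ x * x) * y - y * (x * δ x - δ x * x))) (x : A) :
    InRad (δ x) := by
  refine class_general ?_ δ hδ hc x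
  intro Q X hQ hQr hX1 hX2 hX3 hX4 _
  have hXN : X ≤ ⨅ m, radPow A m := le_iInf fun m => factoring_radPow Q X hQr hX1 hX2 hX4 m
  rcases hA with h | h
  · right
    intro y hy
    refine ⟨0, fun m => ?_⟩
    have h1 : y ∈ (⨅ m, radPow A m : Submodule ℂ A) := by
      have h2 : y ∈ closure (X : Set A) := hX3 hy
      have h3 : y ∈ closure ((⨅ m, radPow A m : Submodule ℂ A) : Set A) := closure_mono hXN h2
      rw [h.closure_eq] at h3
      exact h3
    exact (Submodule.mem_iInf _).mp h1 m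
  · left
    intro y hy
    exact h y (hXN hy)

/-- Class theorem: the elements of the radical which lie in all closed ideals of finite
codimension are nilpotent. -/
theorem class_rfd [CompleteSpace A]
    (hA : ∀ x : A, InRad x →
      (∀ J : Submodule ℂ A, ClosedIdeal J → FiniteDimensional ℂ (A ⧸ J) → x ∈ J) →
      ∃ k, npowr x k = 0)
    (δ : A →ₗ[ℂ] A)
    (hδ : ∀ x y : A, δ (x * y) = δ x * y + x * δ y)
    (hc : ∀ x y : A, InRad ((x * δ x - δ x * x) * y - y * (x * δ x - δ x * x))) (x : A) :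
    InRad (δ x) := by
  refine class_general ?_ δ hδ hc x
  intro Q X hQ hQr hX1 hX2 hX3 hX4 hJ
  left
  intro y hy
  refine hA y (hQr y (hX2 hy)) fun J hJ1 hJ2 => hJ J hJ1 ?_ (hX2 hy)
  intro Ψ hsurj
  by_contra hcon
  push Not at hcon
  -- `Ψ` factors through the finite-dimensional quotient
  let Ψl : A →ₗ[ℂ] PowerSeries ℂ :=
    { toFun := Ψ
      map_add' := map_add Ψ
      map_smul' := fun c a => map_smul Ψ c a }
  have hker : J ≤ LinearMap.ker Ψl := fun y hy => hcon y hy
  have hs : Function.Surjective (J.liftQ Ψl hker) := by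
    intro F
    obtain ⟨a, ha⟩ := hsurj F
    exact ⟨J.mkQ a, ha⟩
  have hfd : FiniteDimensional ℂ (PowerSeries ℂ) := Module.Finite.of_surjective _ hs
  -- the powers of `X` are linearly independent
  have hli : LinearIndependent ℂ (fun n : ℕ => (PowerSeries.X : PowerSeries ℂ) ^ n) := by
    rw [linearIndependent_iff']
    intro s g hg i hi
    have := congrArg (PowerSeries.coeff i) hg
    rw [map_sum] at this
    simp only [map_smul, PowerSeries.coeff_X_pow, smul_eq_mul, mul_ite, mul_one, mul_zero,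
      map_zero, Finset.sum_ite_eq, hi, if_true] at this
    exact this
  exact Module.Finite.not_linearIndependent_of_infinite _ hli

/-- `r` is a radical element such that the elements of the intersection of the sets `rᵐ A rᵐ`
are nilpotent. -/
def IsShrinking (r : A) : Prop :=
  InRad r ∧ ∀ w : A, (∀ m, ∃ x, w = npowr r m * x * npowr r m) → ∃ k, npowr w k = 0

theorem npowr_succ_right (r : A) (m : ℕ) : npowr r (m + 1) = npowr r m * r := by
  induction m with
  | zero => rfl
  | succ m ihm =>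
    show r * npowr r (m + 1) = (r * npowr r m) * r
    rw [mul_assoc, ← ihm]

/-- Class theorem: some power of the radical lies in the ideal generated by the shrinking
elements. -/
theorem class_shrink [CompleteSpace A]
    (hA : ∃ p, ∀ I : Submodule ℂ A, IdealSub I → (∀ r, IsShrinking r → r ∈ I) → radPow A p ≤ I)
    (δ : A →ₗ[ℂ] A)
    (hδ : ∀ x y : A, δ (x * y) = δ x * y + x * δ y)
    (hc : ∀ x y : A, InRad ((x * δ x - δ x * x) * y - y * (x * δ x - δ x * x))) (x : A) :
    InRad (δ x) := by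
  by_contra hx
  obtain ⟨Ψ, χ, -, -, -, -, ⟨Q, -, -, hQr, ⟨w₀, hw1, hw2⟩, -⟩, -, hchain⟩ :=
    structure_full δ hδ hc ⟨x, hx⟩
  obtain ⟨p, hp⟩ := hA
  -- the kernel of `Ψ`
  let Ψl : A →ₗ[ℂ] PowerSeries ℂ :=
    { toFun := Ψ
      map_add' := map_add Ψ
      map_smul' := fun c a => map_smul Ψ c a }
  have hker : radPow A p ≤ LinearMap.ker Ψl := by
    refine hp _ ?_ ?_
    · intro a y hy
      have hy' : Ψ y = 0 := hy
      refine ⟨?_, ?_⟩
      · show Ψ (a * y) = 0
        rw [map_mul, hy', mul_zero]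
      · show Ψ (y * a) = 0
        rw [map_mul, hy', zero_mul]
    · rintro r ⟨hr1, hr2⟩
      show Ψ r = 0
      by_contra hr3
      obtain ⟨w, -, -, hw5⟩ := hchain (fun _ => conj r) (fun _ => conj_mem r) (fun _ => ⟨r, by
        rw [conj_apply, map_mul, map_mul]
        exact mul_ne_zero hr3 (mul_ne_zero hr3 hr3)⟩)
      obtain ⟨u, hu1, -, hu3⟩ := hw5 1 one_pos
      have hu : ∀ m j, u j = npowr r m * u (j + m + 1) * npowr r m := by
        intro m
        induction m with
        | zero =>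
          intro j
          show u j = r * u (j + 1) * r
          rw [hu1 j, conj_apply, mul_assoc]
        | succ m ih =>
          intro j
          have e1 : npowr r (m + 1) = npowr r m * r := npowr_succ_right r m
          have e2 : npowr r m * r = r * npowr r m := by rw [← e1]; rfl
          have e3 : u (j + m + 1) = r * (u (j + m + 1 + 1) * r) := by
            rw [hu1 (j + m + 1), conj_apply]
          rw [ih j, e3]
          have e4 : j + (m + 1) + 1 = j + m + 1 + 1 := by omega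
          rw [e4]
          calc npowr r m * (r * (u (j + m + 1 + 1) * r)) * npowr r m
              = (npowr r m * r) * u (j + m + 1 + 1) * (r * npowr r m) := by
                simp only [mul_assoc]
            _ = npowr r (m + 1) * u (j + m + 1 + 1) * npowr r (m + 1) := by
                rw [← e2, ← e1]
      obtain ⟨k, hk⟩ := hr2 (u 0) (fun m => ⟨_, hu m 0⟩)
      exact hu3 k hk
  -- contradiction: `w₀ ^ (p + 1)` lies in the power `p` of the radical
  have hmem : npowr w₀ p ∈ radPow A p := by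
    clear hp hker
    induction p with
    | zero => exact hQr w₀ hw1
    | succ p ih => exact Submodule.subset_span ⟨w₀, hQr w₀ hw1, _, ih, rfl⟩
  have hz : Ψ (npowr w₀ p) = 0 := hker hmem
  rw [map_npowr] at hz
  exact hw2 (pow_eq_zero_iff (Nat.succ_ne_zero p) |>.mp hz)

/-- It is enough that the separating space of infinitely many powers lies in the radical. -/
theorem class_sep [CompleteSpace A] (δ : A →ₗ[ℂ] A)
    (hδ : ∀ x y : A, δ (x * y) = δ x * y + x * δ y)
    (hc : ∀ x y : A, InRad ((x * δ x - δ x * x) * y - y * (x * δ x - δ x * x)))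
    (hS : ∀ N : ℕ, ∃ n ≥ N, ∀ y : A, (∀ ε > 0, ∃ x, ‖x‖ < ε ∧ ‖(δ ^ n) x - y‖ < ε) → InRad y)
    (x : A) : InRad (δ x) := by
  by_contra hx
  obtain ⟨Ψ, χ, h2, hcoeff, -, ⟨n₀, -, -, hn₀⟩, -⟩ := structure_full δ hδ hc ⟨x, hx⟩
  obtain ⟨n, hn, hsep⟩ := hS n₀
  refine small_discont Ψ n₀ hn₀ n hn ?_
  have hcont : Continuous (fun a => χ ((δ ^ n) a)) := by
    refine continuous_comp_of_sep (δ ^ n) χ ?_
    intro y hy
    exact h2 y (hsep y ((mem_sep_iff (δ ^ n) y).mp hy))
  have e : (fun a => PowerSeries.coeff n (Ψ a)) =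
      fun a => χ ((δ ^ n) a) / (n.factorial : ℂ) := by
    funext a
    exact hcoeff a n
  rw [e]
  exact hcont.div_const _

/-- It is enough that the orbits have a common rate of growth. -/
theorem class_growth [CompleteSpace A] (δ : A →ₗ[ℂ] A)
    (hδ : ∀ x y : A, δ (x * y) = δ x * y + x * δ y)
    (hc : ∀ x y : A, InRad ((x * δ x - δ x * x) * y - y * (x * δ x - δ x * x)))
    (hM : ∃ M : ℕ → ℝ, ∀ x : A, ∃ C : ℝ, ∀ n : ℕ, ‖(δ ^ n) x‖ ≤ C * M n)
    (x : A) : InRad (δ x) := by
  by_contra hx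
  obtain ⟨Ψ, χ, -, hcoeff, hsurj, -⟩ := structure_full δ hδ hc ⟨x, hx⟩
  obtain ⟨M, hM⟩ := hM
  obtain ⟨a, ha⟩ := hsurj (PowerSeries.mk fun n => ((n : ℝ) * (|M n| + 1) : ℝ))
  obtain ⟨C, hC⟩ := hM a
  -- the estimate which fails for large `n`
  have key : ∀ n : ℕ, (n : ℝ) * (|M n| + 1) ≤ ‖χ‖ * |C| * (|M n| + 1) := by
    intro n
    have h1 : χ ((δ ^ n) a) = (n.factorial : ℂ) * ((n : ℝ) * (|M n| + 1) : ℝ) := by
      have h2 := hcoeff a n
      rw [ha, PowerSeries.coeff_mk] at h2
      have hfac : (n.factorial : ℂ) ≠ 0 := by exact_mod_cast n.factorial_ne_zero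
      rw [eq_div_iff hfac] at h2
      rw [← h2]
      ring
    have h3 : ‖χ ((δ ^ n) a)‖ = (n.factorial : ℝ) * ((n : ℝ) * (|M n| + 1)) := by
      rw [h1, norm_mul, Complex.norm_natCast, Complex.norm_real, Real.norm_of_nonneg (by positivity)]
    have h4 : ‖χ ((δ ^ n) a)‖ ≤ ‖χ‖ * (C * M n) :=
      (χ.le_opNorm _).trans (mul_le_mul_of_nonneg_left (hC n) (norm_nonneg χ))
    have h5 : C * M n ≤ |C| * (|M n| + 1) := by
      have h6 : C * M n ≤ |C * M n| := le_abs_self _
      rw [abs_mul] at h6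
      nlinarith [abs_nonneg C, abs_nonneg (M n)]
    have h7 : (1 : ℝ) ≤ (n.factorial : ℝ) := by exact_mod_cast n.factorial_pos
    have h8 : (0 : ℝ) ≤ (n : ℝ) * (|M n| + 1) := by positivity
    calc (n : ℝ) * (|M n| + 1) ≤ (n.factorial : ℝ) * ((n : ℝ) * (|M n| + 1)) := by nlinarith
      _ = ‖χ ((δ ^ n) a)‖ := h3.symm
      _ ≤ ‖χ‖ * (C * M n) := h4
      _ ≤ ‖χ‖ * (|C| * (|M n| + 1)) := mul_le_mul_of_nonneg_left h5 (norm_nonneg χ)
      _ = ‖χ‖ * |C| * (|M n| + 1) := by ring
  obtain ⟨n, hn⟩ := exists_nat_gt (‖χ‖ * |C|)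
  have hpos : (0 : ℝ) < |M n| + 1 := by positivity
  have := key n
  exact absurd (le_of_mul_le_mul_right this hpos) (not_le.mpr hn)

end Classes

end Pool.Agent.SW
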