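import Mathlib
import Pool.Agent.SW.Chain
import Pool.Agent.SW.Classes

/-!
Project SW: the final form of the structure theorem.
-/

set_option autoImplicit false

namespace Pool.Agent.SW

section Final

variable {A : Type*} [NonUnitalNormedRing A] [NormedSpace ℂ A] [IsScalarTower ℂ A A]
  [SMulCommClass ℂ A A]

/-- Operators of the multiplication algebra act on the power series by a symbol. -/
theorem opAlg_symbol (Ψ : A →ₙₐ[ℂ] PowerSeries ℂ) (T : Module.End ℂ A) (hT : T ∈ opAlg A) :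
    ∃ σ : PowerSeries ℂ, ∀ x, Ψ (T x) = σ * Ψ x := by
  unfold opAlg at hT
  induction hT using Algebra.adjoin_induction with
  | mem T h =>
    rcases h with ⟨a, ha⟩ | ⟨a, ha⟩
    · exact ⟨Ψ a, fun x => by rw [ha, map_mul]⟩
    · exact ⟨Ψ a, fun x => by rw [ha, map_mul, mul_comm]⟩
  | algebraMap c =>
    exact ⟨PowerSeries.C c, fun x => by
      rw [Module.algebraMap_end_apply, map_smul, PowerSeries.smul_eq_C_mul]⟩
  | add T U _ _ ihT ihU =>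
    obtain ⟨σ, hσ⟩ := ihT
    obtain ⟨τ, hτ⟩ := ihU
    exact ⟨σ + τ, fun x => by rw [LinearMap.add_apply, map_add, hσ, hτ, add_mul]⟩
  | mul T U _ _ ihT ihU =>
    obtain ⟨σ, hσ⟩ := ihT
    obtain ⟨τ, hτ⟩ := ihU
    exact ⟨σ * τ, fun x => by rw [Module.End.mul_apply, hσ, hτ, mul_assoc]⟩

theorem prodE_ne_zero (Ψ : A →ₙₐ[ℂ] PowerSeries ℂ) (T : ℕ → Module.End ℂ A)
    (hT : ∀ i, T i ∈ opAlg A) (hTx : ∀ i, ∃ x, Ψ (T i x) ≠ 0) (k : ℕ) (s : A) (hs : Ψ s ≠ 0) :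
    Ψ (prodE T k s) ≠ 0 := by
  induction k generalizing s with
  | zero => exact hs
  | succ k ih =>
    show Ψ (prodE T k (T k s)) ≠ 0
    apply ih
    obtain ⟨σ, hσ⟩ := opAlg_symbol Ψ (T k) (hT k)
    obtain ⟨x, hx⟩ := hTx k
    rw [hσ] at hx ⊢
    exact mul_ne_zero (left_ne_zero_of_mul hx) hs

/-- The separating space of the derivation is not in the kernel of `Ψ`. -/
theorem sep_not_le_ker [CompleteSpace A] (δ : A →ₗ[ℂ] A) (Ψ : A →ₙₐ[ℂ] PowerSeries ℂ)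
    (χ : A →L[ℂ] ℂ)
    (hcoeff : ∀ a n, PowerSeries.coeff n (Ψ a) = χ ((δ ^ n) a) / (n.factorial : ℂ))
    (n₀ : ℕ) (hn₀ : 1 ≤ n₀) (hcont : ∀ j < n₀, Continuous (fun a => PowerSeries.coeff j (Ψ a)))
    (hdisc : ¬ Continuous (fun a => PowerSeries.coeff n₀ (Ψ a))) : ∃ y ∈ sep δ, Ψ y ≠ 0 := by
  by_contra hcon
  push Not at hcon
  apply hdisc
  obtain ⟨m, rfl⟩ : ∃ m, n₀ = m + 1 := ⟨n₀ - 1, by omega⟩
  -- the functional `χ ∘ δ ^ m` is continuous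
  have hfac : (m.factorial : ℂ) ≠ 0 := by exact_mod_cast m.factorial_ne_zero
  have h1 : Continuous (fun a => χ ((δ ^ m) a)) := by
    have e : (fun a => χ ((δ ^ m) a)) =
        fun a => (m.factorial : ℂ) * PowerSeries.coeff m (Ψ a) := by
      funext a
      rw [hcoeff]
      field_simp
    rw [e]
    exact continuous_const.mul (hcont m (Nat.lt_succ_self m))
  let G : A →L[ℂ] ℂ := ⟨χ.toLinearMap ∘ₗ (δ ^ m), h1⟩
  have hG : ∀ a, G a = χ ((δ ^ m) a) := fun _ => rfl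
  have h2 : Continuous (fun a => G (δ a)) := by
    refine continuous_comp_of_sep δ G fun y hy => ?_
    have h3 := hcoeff y m
    rw [hcon y hy, map_zero] at h3
    rw [hG]
    rw [eq_comm, div_eq_zero_iff] at h3
    exact h3.resolve_right hfac
  have e : (fun a => PowerSeries.coeff (m + 1) (Ψ a)) =
      fun a => G (δ a) / ((m + 1).factorial : ℂ) := by
    funext a
    rw [hcoeff, hG, pow_succ, Module.End.mul_apply]
  rw [e]
  exact h2.div_const _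

/-- The final form of the structure theorem. -/
theorem structure_final [CompleteSpace A] (δ : A →ₗ[ℂ] A)
    (hδ : ∀ x y : A, δ (x * y) = δ x * y + x * δ y)
    (hc : ∀ x y : A, InRad ((x * δ x - δ x * x) * y - y * (x * δ x - δ x * x)))
    (h : ∃ x, ¬ InRad (δ x)) :
    ∃ (Ψ : A →ₙₐ[ℂ] PowerSeries ℂ) (χ : A →L[ℂ] ℂ) (n₀ : ℕ) (Q X : Submodule ℂ A),
      (∀ a, InRad a → χ a = 0) ∧
      (∀ a n, PowerSeries.coeff n (Ψ a) = χ ((δ ^ n) a) / (n.factorial : ℂ)) ∧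
      Function.Surjective Ψ ∧
      1 ≤ n₀ ∧ (∀ j < n₀, Continuous (fun a => PowerSeries.coeff j (Ψ a))) ∧
      (∀ F : PowerSeries ℂ, (∀ j < n₀, PowerSeries.coeff j F = 0) → ∀ ε > 0,
        ∃ a : A, ‖a‖ < ε ∧ Ψ a = F) ∧
      ClosedIdeal Q ∧ (∀ x ∈ Q, InRad x) ∧ Q ≤ sep δ ∧ (∃ x ∈ Q, Ψ x ≠ 0) ∧
      (∀ J : Submodule ℂ A, ClosedIdeal J → (∃ x ∈ J, Ψ x ≠ 0) → Q ≤ J) ∧
      IdealSub X ∧ X ≤ Q ∧ Q ≤ X.topologicalClosure ∧ X ≤ sandwich Q X ∧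
      (∀ x ∈ X, δ x ∈ X) ∧ (∀ x ∈ X, Ψ x = 0) ∧ (∃ x ∈ X, ∀ k, npowr x k ≠ 0) ∧
      (∀ (n : ℕ) (q : ℕ → A), (∀ i, q i ∈ Q) → ∀ ε > 0,
        ∃ x ∈ X, ∀ i ≤ n, ‖(δ ^ i) x - q i‖ < ε) ∧
      (∀ a : ℕ → A, ∃ K, ∀ q ∈ Q, ∀ ε > 0, ∃ u : ℕ → A, (∀ j, u j ∈ Q) ∧
        (∀ j, u j = a j * u (j + 1)) ∧ ‖u 0 - leftProd a K q‖ < ε) ∧
      (∀ a : ℕ → A, ∃ K, ∀ q ∈ Q, ∀ ε > 0, ∃ u : ℕ → A, (∀ j, u j ∈ Q) ∧
        (∀ j, u j = u (j + 1) * a j) ∧ ‖u 0 - rightProd a K q‖ < ε) ∧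
      ∀ T : ℕ → Module.End ℂ A, (∀ i, T i ∈ opAlg A) → (∀ i, ∃ x, Ψ (T i x) ≠ 0) →
        ∃ K, ∀ s ∈ sep δ, Ψ s ≠ 0 → ∀ ε > 0, ∃ u : ℕ → A, (∀ j, u j ∈ sep δ) ∧
          (∀ j, u j = T j (u (j + 1))) ∧ ‖u 0 - prodE T K s‖ < ε ∧
            ∀ k, npowr (u 0) k ≠ 0 := by
  obtain ⟨Ψ, χ, h1, h2, h3, ⟨n₀, hn1, hn2, hn3⟩, ⟨Q, X, hQ1, hQ2, hQ3, hQ4, hX1, hX2, hX3, hX4,
    hX5, hX6⟩, -, -⟩ := structure_full δ hδ hc h
  have hXf : X ≤ factoring Q := le_factoring Q X hX2 hX4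
  have hQS : Q ≤ sep δ := hQ4 (sep δ) (sep_closedIdeal δ hδ)
    (sep_not_le_ker δ Ψ χ h2 n₀ hn1 hn2 (small_discont Ψ n₀ hn3 n₀ le_rfl))
  have hfQ : Q ≤ (factoring Q).topologicalClosure :=
    hX3.trans (Submodule.topologicalClosure_mono hXf)
  have hinv := factoring_invariant δ hδ Q hQ1.2
  have hQQ : Q ≤ (Submodule.span ℂ {z | ∃ x ∈ Q, ∃ y ∈ Q, z = x * y}).topologicalClosure := by
    refine hX3.trans (Submodule.topologicalClosure_mono ?_)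
    refine hX4.trans (Submodule.span_mono ?_)
    rintro z ⟨q, hq, x, hx, q', hq', rfl⟩
    exact ⟨q * x, (hQ1.2 q x (hX2 hx)).1, q', hq', rfl⟩
  refine ⟨Ψ, χ, n₀, Q, factoring Q, h1, h2, h3, hn1, hn2, hn3, hQ1, hQ2, hQS, hQ3, hQ4,
    factoring_ideal Q hQ1.2, factoring_le Q, hfQ, factoring_sandwich Q, hinv, ?_, ?_, ?_, ?_, ?_,
    ?_⟩
  · refine fun x hx => factoring_kernel Ψ Q (factoring Q) ?_ (factoring_sandwich Q) x hx
    intro y hy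
    rw [h2, pow_zero, Module.End.one_apply, h1 y (hQ2 y hy), zero_div]
  · obtain ⟨x, hx, hx2⟩ := hX6
    exact ⟨x, hXf hx, hx2⟩
  · intro n q hq ε hε
    exact joint_dense δ hδ Q (factoring Q) (factoring_ideal Q hQ1.2) (factoring_le Q) hfQ
      (factoring_sandwich Q) hQ1.2 hQS hinv n q hq ε hε
  · exact ml_left δ hδ Q hQ1 hQS hQQ
  · exact ml_right δ hδ Q hQ1 hQS hQQ
  · intro T hT hTx
    obtain ⟨K, hK⟩ := ml_op δ hδ T hT
    refine ⟨K, fun s hs hs2 ε hε => hK s hs (fun k h0 => ?_) ε hε⟩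
    have h4 := prodE_ne_zero Ψ T hT hTx K s hs2
    apply h4
    have h5 := map_npowr Ψ (prodE T K s) k
    rw [h0, map_zero] at h5
    exact (pow_eq_zero_iff (Nat.succ_ne_zero k)).mp h5.symm

end Final

end Pool.Agent.SW
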