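import Mathlib
import Pool.Agent.SW.Final

/-!
Project SW: criteria for a derivation to map into the radical.
-/

set_option autoImplicit false

namespace Pool.Agent.SW

open Filter

section Criteria

variable {A : Type*} [NonUnitalNormedRing A] [NormedSpace ℂ A] [IsScalarTower ℂ A A]
  [SMulCommClass ℂ A A]

theorem inRad_mul (a x : A) (hx : InRad x) : InRad (a * x) ∧ InRad (x * a) := by
  unfold InRad at hx ⊢
  rw [Unitization.inr_mul, Unitization.inr_mul]
  refine ⟨Ideal.mul_mem_left _ _ hx, ?_⟩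
  rw [Ideal.jacobson_bot] at hx ⊢
  exact Ideal.mul_mem_right _ _ hx

/-- The elements of the radical which lie in all closed ideals of finite codimension. -/
def finRad (A : Type*) [NonUnitalNormedRing A] [NormedSpace ℂ A] [IsScalarTower ℂ A A]
    [SMulCommClass ℂ A A] : Submodule ℂ A where
  carrier := {x | InRad x ∧
    ∀ J : Submodule ℂ A, ClosedIdeal J → FiniteDimensional ℂ (A ⧸ J) → x ∈ J}
  add_mem' := by
    rintro x y ⟨hx1, hx2⟩ ⟨hy1, hy2⟩
    exact ⟨(radSub A).add_mem hx1 hy1, fun J h1 h2 => J.add_mem (hx2 J h1 h2) (hy2 J h1 h2)⟩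
  zero_mem' := ⟨(radSub A).zero_mem, fun J _ _ => J.zero_mem⟩
  smul_mem' := by
    rintro c x ⟨hx1, hx2⟩
    exact ⟨(radSub A).smul_mem c hx1, fun J h1 h2 => J.smul_mem c (hx2 J h1 h2)⟩

theorem mem_finRad (x : A) : x ∈ finRad A ↔ InRad x ∧
    ∀ J : Submodule ℂ A, ClosedIdeal J → FiniteDimensional ℂ (A ⧸ J) → x ∈ J := Iff.rfl

theorem finRad_ideal : IdealSub (finRad A) := by
  rintro a x ⟨hx1, hx2⟩
  exact ⟨⟨(inRad_mul a x hx1).1, fun J h1 h2 => (h1.2 a x (hx2 J h1 h2)).1⟩,
    ⟨(inRad_mul a x hx1).2, fun J h1 h2 => (h1.2 a x (hx2 J h1 h2)).2⟩⟩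

theorem finRad_isClosed [CompleteSpace A] : IsClosed (finRad A : Set A) := by
  have e : (finRad A : Set A) = (iota ⁻¹' (jac (WithLp 1 (Unitization ℂ A)) : Set _)) ∩
      ⋂ J : {J : Submodule ℂ A // ClosedIdeal J ∧ FiniteDimensional ℂ (A ⧸ J)},
        ((J : Submodule ℂ A) : Set A) := by
    ext x
    constructor
    · rintro ⟨h1, h2⟩
      exact ⟨(inRad_iff x).mp h1, Set.mem_iInter.mpr fun J => h2 J J.2.1 J.2.2⟩
    · rintro ⟨h1, h2⟩
      exact ⟨(inRad_iff x).mpr h1, fun J h3 h4 => Set.mem_iInter.mp h2 ⟨J, h3, h4⟩⟩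
  rw [e]
  exact (jac_isClosed.preimage continuous_iota).inter
    (isClosed_iInter fun J => J.2.1.1)

/-- A surjection onto the power series does not kill a closed ideal of finite codimension. -/
theorem not_killed_of_finite (Ψ : A →ₙₐ[ℂ] PowerSeries ℂ) (hsurj : Function.Surjective Ψ)
    (J : Submodule ℂ A) (hJ : FiniteDimensional ℂ (A ⧸ J)) : ∃ x ∈ J, Ψ x ≠ 0 := by
  by_contra hcon
  push Not at hcon
  let Ψl : A →ₗ[ℂ] PowerSeries ℂ :=
    { toFun := Ψ
      map_add' := map_add Ψ
      map_smul' := fun c a => map_smul Ψ c a }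
  have hker : J ≤ LinearMap.ker Ψl := fun y hy => hcon y hy
  have hs : Function.Surjective (J.liftQ Ψl hker) := by
    intro F
    obtain ⟨a, ha⟩ := hsurj F
    exact ⟨J.mkQ a, ha⟩
  have hfd : FiniteDimensional ℂ (PowerSeries ℂ) := Module.Finite.of_surjective _ hs
  have hli : LinearIndependent ℂ (fun n : ℕ => (PowerSeries.X : PowerSeries ℂ) ^ n) := by
    rw [linearIndependent_iff']
    intro s g hg i hi
    have := congrArg (PowerSeries.coeff i) hg
    rw [map_sum] at this
    simp only [map_smul, PowerSeries.coeff_X_pow, smul_eq_mul, mul_ite, mul_one, mul_zero,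
      map_zero, Finset.sum_ite_eq, hi, if_true] at this
    exact this
  exact Module.Finite.not_linearIndependent_of_infinite _ hli

/-- The factoring core: the largest subspace `E` of `I = finRad A` with `E = span I E I`. -/
def facCore (A : Type*) [NonUnitalNormedRing A] [NormedSpace ℂ A] [IsScalarTower ℂ A A]
    [SMulCommClass ℂ A A] : Submodule ℂ A := factoring (finRad A)

/-- The part of the closure of the factoring core in the separating space of `δ`. -/
def critical (δ : A →ₗ[ℂ] A) : Submodule ℂ A :=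
  sep δ ⊓ (facCore A).topologicalClosure

/-- Elements which are killed by every homomorphism attached to a counterexample. -/
def killGen (δ : A →ₗ[ℂ] A) : Set A :=
  {x | (∃ a b : A, x = a * b - b * a) ∨ (∀ m, x ∈ radPow A m) ∨ (∀ n : ℕ, InRad ((δ ^ n) x)) ∨
    (x ∈ finRad A ∧ ∀ w : A, (∀ m, ∃ y ∈ facCore A, w = npowr x m * y * npowr x m) →
      ∃ k, npowr w k = 0)}

/-- The ideal generated by `killGen δ`. -/
def killIdeal (δ : A →ₗ[ℂ] A) : Submodule ℂ A :=
  sInf {K : Submodule ℂ A | IdealSub K ∧ killGen δ ⊆ (K : Set A)}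

/-- An element `x` of `J` is separated by a sequence of left multiplications. -/
def LeftSep (J : Submodule ℂ A) (x : A) : Prop :=
  ∃ a : ℕ → A, (∀ m, leftProd a m x ≠ 0) ∧
    ∀ w : A, (∀ m, ∃ y ∈ J, w = leftProd a m y) → w = 0

/-- An element `x` of `J` is separated by a sequence of right multiplications. -/
def RightSep (J : Submodule ℂ A) (x : A) : Prop :=
  ∃ a : ℕ → A, (∀ m, rightProd a m x ≠ 0) ∧
    ∀ w : A, (∀ m, ∃ y ∈ J, w = rightProd a m y) → w = 0

theorem leftProd_orbit (a u : ℕ → A) (hu : ∀ j, u j = a j * u (j + 1)) (m : ℕ) :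
    u 0 = leftProd a m (u m) := by
  induction m with
  | zero => rfl
  | succ m ih =>
    show u 0 = leftProd a m (a m * u (m + 1))
    rw [← hu m]
    exact ih

theorem rightProd_orbit (a u : ℕ → A) (hu : ∀ j, u j = u (j + 1) * a j) (m : ℕ) :
    u 0 = rightProd a m (u m) := by
  induction m with
  | zero => rfl
  | succ m ih =>
    show u 0 = rightProd a m (u (m + 1) * a m)
    rw [← hu m]
    exact ih

theorem conj_orbit (r : A) (u : ℕ → A) (hu : ∀ j, u j = conj r (u (j + 1))) (m j : ℕ) :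
    u j = npowr r m * u (j + m + 1) * npowr r m := by
  induction m generalizing j with
  | zero =>
    show u j = r * u (j + 1) * r
    rw [hu j, conj_apply, mul_assoc]
  | succ m ih =>
    have e1 : npowr r (m + 1) = npowr r m * r := npowr_succ_right r m
    have e2 : npowr r m * r = r * npowr r m := by rw [← e1]; rfl
    have e3 : u (j + m + 1) = r * (u (j + m + 1 + 1) * r) := by
      rw [hu (j + m + 1), conj_apply]
    rw [ih j, e3]
    have e4 : j + (m + 1) + 1 = j + m + 1 + 1 := by omega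
    rw [e4]
    calc npowr r m * (r * (u (j + m + 1 + 1) * r)) * npowr r m
        = (npowr r m * r) * u (j + m + 1 + 1) * (r * npowr r m) := by
          simp only [mul_assoc]
      _ = npowr r (m + 1) * u (j + m + 1 + 1) * npowr r (m + 1) := by
          rw [← e2, ← e1]

/-- The main criterion. -/
theorem criterion [CompleteSpace A] (δ : A →ₗ[ℂ] A)
    (hδ : ∀ x y : A, δ (x * y) = δ x * y + x * δ y)
    (hc : ∀ x y : A, InRad ((x * δ x - δ x * x) * y - y * (x * δ x - δ x * x)))
    (hJ : ∀ x ∈ critical δ, (∃ k, npowr x k ∈ killIdeal δ) ∨ LeftSep (critical δ) x ∨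
      RightSep (critical δ) x) (x : A) : InRad (δ x) := by
  by_contra hx
  obtain ⟨Ψ, χ, n₀, Q, X, h0, hcoeff, hsurj, -, -, -, hQ1, hQ2, hQS, ⟨w, hw1, hw2⟩, hmin, hX1,
    hX2, hX3, hX4, -, -, -, -, hleft, hright, hop⟩ := structure_final δ hδ hc ⟨x, hx⟩
  have hQfin : Q ≤ finRad A := fun y hy => ⟨hQ2 y hy, fun J hJ1 hJ2 =>
    hmin J hJ1 (not_killed_of_finite Ψ hsurj J hJ2) hy⟩
  have hXE : X ≤ facCore A := by
    refine le_factoring _ X (hX2.trans hQfin) (hX4.trans (Submodule.span_mono ?_))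
    rintro z ⟨q, hq, y, hy, q', hq', rfl⟩
    exact ⟨q, hQfin hq, y, hy, q', hQfin hq', rfl⟩
  have hQcrit : Q ≤ critical δ :=
    le_inf hQS (hX3.trans (Submodule.topologicalClosure_mono hXE))
  have hrad0 : ∀ a, InRad a → PowerSeries.coeff 0 (Ψ a) = 0 := fun a ha => by
    rw [hcoeff, pow_zero, Module.End.one_apply, h0 a ha, zero_div]
  -- the kernel of `Ψ`
  let Ψl : A →ₗ[ℂ] PowerSeries ℂ :=
    { toFun := Ψ
      map_add' := map_add Ψ
      map_smul' := fun c a => map_smul Ψ c a }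
  have hkerI : IdealSub (LinearMap.ker Ψl) := by
    intro a y hy
    have hy' : Ψ y = 0 := hy
    refine ⟨?_, ?_⟩
    · show Ψ (a * y) = 0
      rw [map_mul, hy', mul_zero]
    · show Ψ (y * a) = 0
      rw [map_mul, hy', zero_mul]
  have hgen : killGen δ ⊆ (LinearMap.ker Ψl : Set A) := by
    rintro y (⟨a, b, rfl⟩ | hy | hy | ⟨hy1, hy2⟩)
    · show Ψ (a * b - b * a) = 0
      rw [map_sub, map_mul, map_mul, mul_comm, sub_self]
    · exact eq_zero_of_forall_dvd _ (fun m => dvd_of_radPow Ψ hrad0 m _ (hy m))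
    · show Ψ y = 0
      ext n
      rw [hcoeff, h0 _ (hy n), zero_div, map_zero]
    · show Ψ y = 0
      by_contra hy3
      obtain ⟨K, hK⟩ := hop (fun _ => conj y) (fun _ => conj_mem y) (fun _ => ⟨y, by
        rw [conj_apply, map_mul, map_mul]
        exact mul_ne_zero hy3 (mul_ne_zero hy3 hy3)⟩)
      obtain ⟨u, -, hu2, -, hu4⟩ := hK w (hQS hw1) hw2 1 one_pos
      have huI : ∀ j, u j ∈ finRad A := by
        intro j
        rw [hu2 j, conj_apply]
        exact (finRad_ideal (u (j + 1) * y) y hy1).2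
      have huE : ∀ j, u j ∈ facCore A := by
        have hY1 : Submodule.span ℂ (Set.range u) ≤ finRad A :=
          Submodule.span_le.mpr (by rintro _ ⟨j, rfl⟩; exact huI j)
        have hY2 : Submodule.span ℂ (Set.range u) ≤
            sandwich (finRad A) (Submodule.span ℂ (Set.range u)) := by
          refine Submodule.span_le.mpr ?_
          rintro _ ⟨j, rfl⟩
          refine Submodule.subset_span ⟨y, hy1, u (j + 1), Submodule.subset_span ⟨j + 1, rfl⟩, y,
            hy1, ?_⟩
          rw [hu2 j, conj_apply, mul_assoc]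
        exact fun j => le_factoring _ _ hY1 hY2 (Submodule.subset_span ⟨j, rfl⟩)
      obtain ⟨k, hk⟩ := hy2 (u 0) (fun m => ⟨u (0 + m + 1), huE _, conj_orbit y u hu2 m 0⟩)
      exact hu4 k hk
  have hkill : killIdeal δ ≤ LinearMap.ker Ψl := sInf_le ⟨hkerI, hgen⟩
  rcases hJ w (hQcrit hw1) with ⟨k, hk⟩ | ⟨a, ha1, ha2⟩ | ⟨a, ha1, ha2⟩
  · have hz : Ψ (npowr w k) = 0 := hkill hk
    rw [map_npowr] at hz
    exact hw2 (pow_eq_zero_iff (Nat.succ_ne_zero k) |>.mp hz)
  · obtain ⟨K, hK⟩ := hleft a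
    obtain ⟨u, hu1, hu2, hu3⟩ := hK w hw1 ‖leftProd a K w‖ (norm_pos_iff.mpr (ha1 K))
    have hu0 : u 0 = 0 := ha2 (u 0) (fun m => ⟨u m, hQcrit (hu1 m), leftProd_orbit a u hu2 m⟩)
    rw [hu0, zero_sub, norm_neg] at hu3
    exact lt_irrefl _ hu3
  · obtain ⟨K, hK⟩ := hright a
    obtain ⟨u, hu1, hu2, hu3⟩ := hK w hw1 ‖rightProd a K w‖ (norm_pos_iff.mpr (ha1 K))
    have hu0 : u 0 = 0 := ha2 (u 0) (fun m => ⟨u m, hQcrit (hu1 m), rightProd_orbit a u hu2 m⟩)
    rw [hu0, zero_sub, norm_neg] at hu3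
    exact lt_irrefl _ hu3

/-- The factoring core lies in all powers of the radical. -/
theorem facCore_le_radPow (m : ℕ) : facCore A ≤ radPow A m :=
  factoring_radPow (finRad A) (facCore A) (fun x hx => hx.1)
    (factoring_ideal _ finRad_ideal) (factoring_le _) (factoring_sandwich _) m

/-- A class of algebras. -/
theorem criterion_class [CompleteSpace A]
    (hA : (∀ x ∈ finRad A, (∀ m, x ∈ radPow A m) → ∃ k, npowr x k = 0) ∨
      IsClosed ((⨅ m, radPow A m : Submodule ℂ A) : Set A))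
    (δ : A →ₗ[ℂ] A)
    (hδ : ∀ x y : A, δ (x * y) = δ x * y + x * δ y)
    (hc : ∀ x y : A, InRad ((x * δ x - δ x * x) * y - y * (x * δ x - δ x * x))) (x : A) :
    InRad (δ x) := by
  refine criterion δ hδ hc (fun y hy => Or.inl ?_) x
  obtain ⟨hy1, hy2⟩ := hy
  refine ⟨0, ?_⟩
  show y ∈ sInf {K : Submodule ℂ A | IdealSub K ∧ killGen δ ⊆ (K : Set A)}
  rw [Submodule.mem_sInf]
  rintro K ⟨hK1, hK2⟩
  rcases hA with h | h
  · have hyfin : y ∈ finRad A := by
      have h1 : y ∈ closure (finRad A : Set A) :=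
        closure_mono (factoring_le (finRad A)) hy2
      rwa [finRad_isClosed.closure_eq] at h1
    apply hK2
    right
    right
    right
    refine ⟨hyfin, fun w hw => ?_⟩
    obtain ⟨z, hz, rfl⟩ := hw 0
    have hE := factoring_ideal (finRad A) finRad_ideal
    have hmem : npowr y 0 * z * npowr y 0 ∈ facCore A :=
      (hE (npowr y 0) _ (hE (npowr y 0) z hz).1).2
    exact h _ (factoring_le _ hmem) (fun m => facCore_le_radPow m hmem)
  · apply hK2
    right
    left
    have h1 : y ∈ closure ((⨅ m, radPow A m : Submodule ℂ A) : Set A) :=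
      closure_mono (show (facCore A : Set A) ⊆ _ from
        fun z hz => (Submodule.mem_iInf _).mpr fun m => facCore_le_radPow m hz) hy2
    rw [h.closure_eq] at h1
    exact fun m => (Submodule.mem_iInf _).mp h1 m

end Criteria

end Pool.Agent.SW
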