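import Mathlib
import Pool.Agent.SW.Criteria

/-!
Project SW: a derivation whose orbits on the radical have spectral radii of bounded growth.
-/

set_option autoImplicit false

namespace Pool.Agent.SW

open Filter

section Growth

variable {A : Type*} [NonUnitalNormedRing A] [NormedSpace ℂ A] [IsScalarTower ℂ A A]
  [SMulCommClass ℂ A A]

/-- The value of a character lies in the quasispectrum. -/
theorem char_mem_quasispectrum (χ : A →ₙₐ[ℂ] ℂ) (a : A) : χ a ∈ quasispectrum ℂ a := by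
  rw [Unitization.quasispectrum_eq_spectrum_inr]
  have h : Unitization.lift χ (Unitization.inr a : Unitization ℂ A) = χ a := by simp
  rw [← h]
  exact AlgHom.apply_mem_spectrum (Unitization.lift χ) _

theorem growth [CompleteSpace A] (δ : A →ₗ[ℂ] A)
    (hδ : ∀ x y : A, δ (x * y) = δ x * y + x * δ y)
    (hc : ∀ x y : A, InRad ((x * δ x - δ x * x) * y - y * (x * δ x - δ x * x)))
    (M : ℕ → ℝ)
    (hM : ∀ x, InRad x → x ∈ sep δ →
      ∃ᶠ n : ℕ in atTop, ∀ z ∈ quasispectrum ℂ ((δ ^ n) x), ‖z‖ ≤ M n)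
    (x : A) : InRad (δ x) := by
  by_contra hx
  obtain ⟨Ψ, χ, n₀, Q, X, -, hcoeff, hsurj, -, -, -, hQ1, hQ2, hQS, ⟨w, hw1, hw2⟩, -⟩ :=
    structure_final δ hδ hc ⟨x, hx⟩
  -- the character
  have hχ0 : ∀ a, PowerSeries.coeff 0 (Ψ a) = χ a := by
    intro a
    rw [hcoeff, pow_zero, Module.End.one_apply, Nat.factorial_zero, Nat.cast_one, div_one]
  let χ' : A →ₙₐ[ℂ] ℂ :=
    { toFun := χ
      map_smul' := fun c a => map_smul χ c a
      map_zero' := map_zero χ
      map_add' := map_add χ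
      map_mul' := fun a b => by
        rw [← hχ0, ← hχ0, ← hχ0, map_mul]
        simp only [PowerSeries.coeff_zero_eq_constantCoeff_apply, map_mul] }
  have hspec : ∀ a, χ a ∈ quasispectrum ℂ a := fun a => char_mem_quasispectrum χ' a
  -- a multiple of `w` with rapidly growing coefficients
  obtain ⟨N, U, hU, hw⟩ : ∃ (N : ℕ) (U : PowerSeries ℂ), IsUnit U ∧
      Ψ w = PowerSeries.X ^ N * U := by
    refine ⟨(Ψ w).order.toNat, PowerSeries.divXPowOrder (Ψ w), ?_,
      PowerSeries.X_pow_order_mul_divXPowOrder.symm⟩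
    rw [PowerSeries.isUnit_iff_constantCoeff, isUnit_iff_ne_zero]
    intro h0
    exact hw2 (PowerSeries.constantCoeff_divXPowOrder_eq_zero_iff.mp h0)
  obtain ⟨V, hV⟩ := hU.exists_right_inv
  obtain ⟨a, ha⟩ := hsurj (V * PowerSeries.mk fun n => (((|M (n + N)| + 1 : ℝ)) : ℂ))
  have hwa : ∀ n, PowerSeries.coeff (n + N) (Ψ (w * a)) = ((|M (n + N)| + 1 : ℝ) : ℂ) := by
    intro n
    have e : Ψ (w * a) = PowerSeries.X ^ N *
        PowerSeries.mk fun n => (((|M (n + N)| + 1 : ℝ)) : ℂ) := by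
      rw [map_mul, hw, ha, mul_assoc, ← mul_assoc U, hV, one_mul]
    rw [e, PowerSeries.coeff_X_pow_mul, PowerSeries.coeff_mk]
  have hmem : w * a ∈ Q := (hQ1.2 a w hw1).2
  have hfreq := hM (w * a) (hQ2 _ hmem) (hQS hmem)
  obtain ⟨n, hn, hnN⟩ := (hfreq.and_eventually (eventually_ge_atTop N)).exists
  obtain ⟨m, rfl⟩ : ∃ m, n = m + N := ⟨n - N, by omega⟩
  have h1 := hn _ (hspec ((δ ^ (m + N)) (w * a)))
  have h2 := hwa m
  rw [hcoeff, div_eq_iff (by exact_mod_cast (m + N).factorial_ne_zero)] at h2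
  rw [h2, norm_mul, Complex.norm_real, Complex.norm_natCast,
    Real.norm_of_nonneg (by positivity)] at h1
  have h3 : (1 : ℝ) ≤ ((m + N).factorial : ℝ) := by exact_mod_cast (m + N).factorial_pos
  have h4 : M (m + N) ≤ |M (m + N)| := le_abs_self _
  nlinarith [abs_nonneg (M (m + N))]

end Growth

end Pool.Agent.SW
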