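import Mathlib
import Pool.Agent.SW.Defs
import Pool.Agent.SW.Sep
import Pool.Agent.SW.Stability
import Pool.Agent.SW.Psi
import Pool.Agent.SW.Sinclair

/-!
# SW-10: the minimal closed ideal on which the power series map does not vanish
-/

set_option autoImplicit false

namespace Pool.Agent.SW

section MinIdeal

variable {A : Type*} [NormedRing A] [NormedAlgebra ℂ A] [CompleteSpace A]

omit [CompleteSpace A] in
theorem sw10_sep_left (δ : A →ₗ[ℂ] A) (hδ : IsDer δ) (a s : A) (hs : s ∈ sep δ) :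
    a * s ∈ sep δ := by
  rw [mem_sep_iff] at hs ⊢
  intro ε hε
  have hM : 0 < 1 + ‖a‖ + ‖δ a‖ := by positivity
  obtain ⟨x, hx1, hx2⟩ := hs (ε / (1 + ‖a‖ + ‖δ a‖)) (by positivity)
  set e := ε / (1 + ‖a‖ + ‖δ a‖) with he
  have heM : e * (1 + ‖a‖ + ‖δ a‖) = ε := by
    rw [he]; field_simp
  have he0 : 0 < e := by positivity
  refine ⟨a * x, ?_, ?_⟩
  · calc ‖a * x‖ ≤ ‖a‖ * ‖x‖ := norm_mul_le _ _
      _ ≤ ‖a‖ * e := by gcongr
      _ < ε := by
          rw [← heM]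
          nlinarith [norm_nonneg a, norm_nonneg (δ a), mul_nonneg he0.le (norm_nonneg (δ a))]
  · have h1 : δ (a * x) - a * s = δ a * x + a * (δ x - s) := by
      rw [hδ a x]; noncomm_ring
    rw [h1]
    calc ‖δ a * x + a * (δ x - s)‖ ≤ ‖δ a * x‖ + ‖a * (δ x - s)‖ := norm_add_le _ _
      _ ≤ ‖δ a‖ * ‖x‖ + ‖a‖ * ‖δ x - s‖ := add_le_add (norm_mul_le _ _) (norm_mul_le _ _)
      _ ≤ ‖δ a‖ * e + ‖a‖ * e := by gcongr
      _ < ε := by
          rw [← heM]
          nlinarith [norm_nonneg a, norm_nonneg (δ a)]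

omit [CompleteSpace A] in
theorem sw10_sep_right (δ : A →ₗ[ℂ] A) (hδ : IsDer δ) (a s : A) (hs : s ∈ sep δ) :
    s * a ∈ sep δ := by
  rw [mem_sep_iff] at hs ⊢
  intro ε hε
  have hM : 0 < 1 + ‖a‖ + ‖δ a‖ := by positivity
  obtain ⟨x, hx1, hx2⟩ := hs (ε / (1 + ‖a‖ + ‖δ a‖)) (by positivity)
  set e := ε / (1 + ‖a‖ + ‖δ a‖) with he
  have heM : e * (1 + ‖a‖ + ‖δ a‖) = ε := by
    rw [he]; field_simp
  have he0 : 0 < e := by positivity
  refine ⟨x * a, ?_, ?_⟩
  · calc ‖x * a‖ ≤ ‖x‖ * ‖a‖ := norm_mul_le _ _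
      _ ≤ e * ‖a‖ := by gcongr
      _ < ε := by
          rw [← heM]
          nlinarith [norm_nonneg a, norm_nonneg (δ a), mul_nonneg he0.le (norm_nonneg (δ a))]
  · have h1 : δ (x * a) - s * a = x * δ a + (δ x - s) * a := by
      rw [hδ x a]; noncomm_ring
    rw [h1]
    calc ‖x * δ a + (δ x - s) * a‖ ≤ ‖x * δ a‖ + ‖(δ x - s) * a‖ := norm_add_le _ _
      _ ≤ ‖x‖ * ‖δ a‖ + ‖δ x - s‖ * ‖a‖ := add_le_add (norm_mul_le _ _) (norm_mul_le _ _)
      _ ≤ e * ‖δ a‖ + e * ‖a‖ := by gcongr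
      _ < ε := by
          rw [← heM]
          nlinarith [norm_nonneg a, norm_nonneg (δ a)]

/-- The separating space is not contained in the kernel of `Psi`. -/
theorem sw10_sep_psi (δ : A →ₗ[ℂ] A) (hδ : IsDer δ) (φ : A →ₐ[ℂ] ℂ)
    (hφ : ∃ x, φ (δ x) ≠ 0) : ∃ s ∈ sep δ, Psi δ hδ φ s ≠ 0 := by
  by_contra hcon
  push Not at hcon
  have hcont : ∀ n : ℕ, Continuous (fun x => φ ((δ ^ n) x)) := by
    intro n
    induction n with
    | zero => simpa using map_continuous φ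
    | succ n ih =>
      let G : A →L[ℂ] ℂ := ⟨φ.toLinearMap ∘ₗ (δ ^ n), ih⟩
      have hG : ∀ y ∈ sep δ, G y = 0 := by
        intro y hy
        have h1 := coeff_Psi δ hδ φ n y
        rw [hcon y hy, map_zero] at h1
        have hn : (n.factorial : ℂ) ≠ 0 := by exact_mod_cast n.factorial_ne_zero
        have h2 : φ ((δ ^ n) y) = 0 := by
          rcases div_eq_zero_iff.1 h1.symm with h | h
          · exact h
          · exact absurd h hn
        exact h2
      have h3 := continuous_comp_of_sep δ G hG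
      have h4 : (fun x => φ ((δ ^ (n + 1)) x)) = fun x => G (δ x) := by
        funext x
        rw [pow_succ]
        rfl
      rw [h4]
      exact h3
  obtain ⟨x, hx⟩ := hφ
  exact hx (sinclair δ hδ φ hcont x)

/-- The key consequence of the stability lemma. -/
theorem sw10_claim (δ : A →ₗ[ℂ] A) (hδ : IsDer δ) (φ : A →ₐ[ℂ] ℂ) :
    ∃ a : A, Psi δ hδ φ a ≠ 0 ∧ ∀ b : A, Psi δ hδ φ b ≠ 0 → ∀ s ∈ sep δ,
      a * s ∈ closure ((fun s => a * b * s) '' (sep δ : Set A)) := by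
  by_contra hcon
  push Not at hcon
  have hcon' : ∀ a : A, Psi δ hδ φ a ≠ 0 → ∃ b : A, Psi δ hδ φ b ≠ 0 ∧ ‖b‖ ≤ 1 ∧ ∃ s ∈ sep δ,
      a * s ∉ closure ((fun s => a * b * s) '' (sep δ : Set A)) := by
    intro a ha
    obtain ⟨b, hb, s, hs, hn⟩ := hcon a ha
    set c : ℂ := (((1 + ‖b‖)⁻¹ : ℝ) : ℂ) with hc
    have hcpos : (0 : ℝ) < (1 + ‖b‖)⁻¹ := by positivity
    have hc0 : c ≠ 0 := by
      rw [hc]
      exact_mod_cast hcpos.ne'
    refine ⟨c • b, ?_, ?_, s, hs, ?_⟩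
    · rw [map_smul]
      exact smul_ne_zero hc0 hb
    · rw [norm_smul, hc, Complex.norm_real, Real.norm_of_nonneg hcpos.le, inv_mul_le_iff₀
        (by positivity)]
      linarith
    · intro hmem
      apply hn
      have himg : ((fun s => a * (c • b) * s) '' (sep δ : Set A))
          = (fun s => a * b * s) '' (sep δ : Set A) := by
        ext y
        constructor
        · rintro ⟨t, ht, rfl⟩
          exact ⟨c • t, (sep δ).smul_mem c ht, by simp⟩
        · rintro ⟨t, ht, rfl⟩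
          refine ⟨c⁻¹ • t, (sep δ).smul_mem _ ht, ?_⟩
          simp [smul_smul, hc0]
      rwa [himg] at hmem
  choose! bb hb1 hb2 hb3 using hcon'
  let seq : ℕ → {a : A // Psi δ hδ φ a ≠ 0} := fun n => Nat.rec
    (⟨1, by rw [map_one]; exact one_ne_zero⟩ : {a : A // Psi δ hδ φ a ≠ 0})
    (fun _ a => ⟨a.1 * bb a.1, by rw [map_mul]; exact mul_ne_zero a.2 (hb1 a.1 a.2)⟩) n
  have seq0 : (seq 0).1 = 1 := rfl
  have seqS : ∀ n, (seq (n + 1)).1 = (seq n).1 * bb (seq n).1 := fun n => rfl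
  let B : ℕ → A →L[ℂ] A := fun n => ContinuousLinearMap.mul ℂ A (bb (seq n).1)
  have hB : ∀ n y, B n y = bb (seq n).1 * y := fun n y => rfl
  have hprod : ∀ n y, prodL B n y = (seq n).1 * y := by
    intro n
    induction n with
    | zero => intro y; rw [seq0, one_mul]; rfl
    | succ n ih =>
      intro y
      have h1 : prodL B (n + 1) y = prodL B n (B n y) := rfl
      rw [h1, ih, hB, seqS, mul_assoc]
  obtain ⟨k, hk⟩ := stability δ B B
    (fun i => (ContinuousLinearMap.opNorm_mul_apply_le ℂ A _).trans (hb2 _ (seq i).2))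
    (fun i => by
      have h1 : (fun x => δ (B i x) - B i (δ x)) = fun x => δ (bb (seq i).1) * x := by
        funext x
        rw [hB, hB, hδ]
        abel
      rw [h1]
      exact continuous_const.mul continuous_id)
  obtain ⟨s, hs, hns⟩ := hb3 (seq k).1 (seq k).2
  apply hns
  have h1 := hk s hs
  rw [hprod k s] at h1
  have h2 : (prodL B (k + 1) '' (sep δ : Set A))
      = (fun s => (seq k).1 * bb (seq k).1 * s) '' (sep δ : Set A) := by
    apply Set.image_congr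
    intro y _
    rw [hprod (k + 1) y, seqS]
  rwa [h2] at h1

theorem exists_min_ideal (δ : A →ₗ[ℂ] A) (hδ : IsDer δ) (φ : A →ₐ[ℂ] ℂ)
    (hφ : ∃ x, φ (δ x) ≠ 0) :
    ∃ Q : Submodule ℂ A, IsClosed (Q : Set A) ∧ TwoSided Q ∧ (∃ x ∈ Q, Psi δ hδ φ x ≠ 0) ∧
      ∀ J : Submodule ℂ A, IsClosed (J : Set A) → TwoSided J →
        (∃ x ∈ J, Psi δ hδ φ x ≠ 0) → Q ≤ J := by
  obtain ⟨a, ha, hab⟩ := sw10_claim δ hδ φ
  obtain ⟨s0, hs0, hs0'⟩ := sw10_sep_psi δ hδ φ hφ
  let E : Set A := {y | ∃ x s, s ∈ sep δ ∧ y = x * (a * s)}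
  let Q0 : Submodule ℂ A := Submodule.span ℂ E
  have hl0 : ∀ c : A, ∀ y ∈ Q0, c * y ∈ Q0 := by
    intro c y hy
    refine Submodule.span_induction (p := fun y _ => c * y ∈ Q0) ?_ ?_ ?_ ?_ hy
    · rintro y ⟨x, s, hs, rfl⟩
      exact Submodule.subset_span ⟨c * x, s, hs, by rw [mul_assoc]⟩
    · rw [mul_zero]; exact Q0.zero_mem
    · intro y z _ _ h1 h2
      rw [mul_add]; exact Q0.add_mem h1 h2
    · intro r y _ h1
      rw [mul_smul_comm]; exact Q0.smul_mem r h1
  have hr0 : ∀ c : A, ∀ y ∈ Q0, y * c ∈ Q0 := by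
    intro c y hy
    refine Submodule.span_induction (p := fun y _ => y * c ∈ Q0) ?_ ?_ ?_ ?_ hy
    · rintro y ⟨x, s, hs, rfl⟩
      exact Submodule.subset_span ⟨x, s * c, sw10_sep_right δ hδ c s hs, by
        rw [mul_assoc, mul_assoc]⟩
    · rw [zero_mul]; exact Q0.zero_mem
    · intro y z _ _ h1 h2
      rw [add_mul]; exact Q0.add_mem h1 h2
    · intro r y _ h1
      rw [smul_mul_assoc]; exact Q0.smul_mem r h1
  refine ⟨Q0.topologicalClosure, Q0.isClosed_topologicalClosure, ?_, ?_, ?_⟩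
  · intro c y hy
    have hy' : y ∈ closure (Q0 : Set A) := hy
    constructor
    · have h1 : c * y ∈ closure (Q0 : Set A) :=
        map_mem_closure (f := fun z : A => c * z) (by fun_prop) hy' (fun z hz => hl0 c z hz)
      exact h1
    · have h1 : y * c ∈ closure (Q0 : Set A) :=
        map_mem_closure (f := fun z : A => z * c) (by fun_prop) hy' (fun z hz => hr0 c z hz)
      exact h1
  · refine ⟨a * s0, ?_, ?_⟩
    · apply Q0.le_topologicalClosure
      exact Submodule.subset_span ⟨1, s0, hs0, by rw [one_mul]⟩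
    · rw [map_mul]
      exact mul_ne_zero ha hs0'
  · rintro J hJc hJt ⟨b, hb, hb'⟩
    refine Submodule.topologicalClosure_minimal _ ?_ hJc
    refine Submodule.span_le.2 ?_
    rintro y ⟨x, s, hs, rfl⟩
    have h1 := hab b hb' s hs
    have h2 : (fun s => a * b * s) '' (sep δ : Set A) ⊆ (J : Set A) := by
      rintro z ⟨t, _, rfl⟩
      exact (hJt t (a * b) (hJt a b hb).1).2
    have h3 : a * s ∈ (J : Set A) := closure_minimal h2 hJc h1
    exact (hJt x (a * s) h3).1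

end MinIdeal

end Pool.Agent.SW
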